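import Pool.Agent.PB.S7.Defs

/-!
PB / S7 / SqInt: `q_h(A,v)` as an expectation (7.1).

Plan. `C ω = Cl (OA A ω) v` is a measurable random set (`(OA_MES A).cl v`), finite a.s. (`⊆ Cl (Oc ω) v`, `h5.theta_pc`, translation).
`lintegral_split_fin`: the integral is `∑' K, ∫⁻ over {C ω = K}`; there the integrand is `(1 - ex h K) * ∑' u, ∑' w, (if DConn (OA A ω) v u then
J(w-u) * aps A K w else 0)`, a constant times indicator functions of the measurable events `{DConn (OA A ω) v u}` (`MES.dconn`):
`lintegral_tsum`, `lintegral_const_mul`, `lintegral_indicator`, so `∫⁻ = (1 - ex h K) ∑' u, ∑' w, J(w-u) aps A K w Pr{C = K ∧ DConn}`.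
`aps A K w = ofReal (psiK (A ∪ K) w)` if `w ∉ A`, `w ∉ K` (`Finset.coe_union`).  Finally reorder the sums (`ENNReal.tsum_prod`, `ENNReal.tsum_comm`).
-/

set_option autoImplicit false
open MeasureTheory Filter Topology
open scoped ENNReal BigOperators

namespace Pool.Agent.PB.S7

open Pool.Agent.PB

variable {d : ℕ}

theorem OA_fin (h5 : Out5 d) (A : Finset (V d)) (v : V d) :
    Pr d {ω : Om d | (Cl (OA A ω) v).Infinite} = 0 := by
  have h0 : Pr d {ω : Om d | (Cl (Oc ω) v).Infinite} = 0 := by
    have h1 := theta_shift (d := d) (pc d) v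
    rw [h5.theta_pc] at h1
    exact h1
  refine measure_mono_null (fun ω hω => ?_) h0
  exact Set.Infinite.mono (Cl_mono (OA_subset A ω) v) hω

theorem qh_int (h5 : Out5 d) (A : Finset (V d)) (v : V d) (h : ℝ) :
    qh h A v = ENNReal.ofReal (1 / (1 - pc d)) *
      ∫⁻ ω, (1 - ex h (Cl (OA A ω) v)) * Sq (A : Set (V d)) (OA A ω) v ∂Pr d := by
  classical
  unfold qh
  congr 1
  rw [lintegral_split_fin ((OA_MES A).cl v) (OA_fin h5 A v)]
  have h1 : ∀ K : Finset (V d), ∫⁻ ω in {ω | Cl (OA A ω) v = (K : Set (V d))},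
      (1 - ex h (Cl (OA A ω) v)) * Sq (A : Set (V d)) (OA A ω) v ∂Pr d =
      ∑' u : V d, ∑' w : V d, wq A v u w K *
        ((1 - ex h (K : Set (V d))) * ENNReal.ofReal (psiK (A ∪ K) w)) := by
    intro K
    have hm : MeasurableSet {ω : Om d | Cl (OA A ω) v = (K : Set (V d))} :=
      ((OA_MES A).cl v).eq_set _
    have hD : ∀ u : V d, MeasurableSet {ω : Om d | DConn (OA A ω) v u} :=
      fun u => (OA_MES A).dconn v u
    have h2 : Set.EqOn
        (fun ω => (1 - ex h (Cl (OA A ω) v)) * Sq (A : Set (V d)) (OA A ω) v)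
        (fun ω => (1 - ex h (K : Set (V d))) * ∑' u : V d, ∑' w : V d,
          Set.indicator {ω : Om d | DConn (OA A ω) v u}
            (fun _ => J (pc d) (w - u) * aps (A : Set (V d)) (K : Set (V d)) w) ω)
        {ω : Om d | Cl (OA A ω) v = (K : Set (V d))} := by
      intro ω hω
      have hω' : Cl (OA A ω) v = (K : Set (V d)) := hω
      simp only [Sq, hω', Set.indicator_apply, Set.mem_ofPred_eq]
    rw [setLIntegral_congr_fun hm h2]
    have hmi : ∀ u w : V d, Measurable (fun ω : Om d =>
        Set.indicator {ω : Om d | DConn (OA A ω) v u}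
          (fun _ => J (pc d) (w - u) * aps (A : Set (V d)) (K : Set (V d)) w) ω) :=
      fun u w => measurable_const.indicator (hD u)
    rw [lintegral_const_mul _ (Measurable.tsum fun u =>
      Measurable.tsum fun w => hmi u w),
      lintegral_tsum (fun u => (Measurable.tsum fun w => hmi u w).aemeasurable),
      ← ENNReal.tsum_mul_left]
    refine tsum_congr fun u => ?_
    rw [lintegral_tsum (fun w => (hmi u w).aemeasurable), ← ENNReal.tsum_mul_left]
    refine tsum_congr fun w => ?_
    rw [lintegral_indicator_const (hD u), Measure.restrict_apply (hD u)]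
    have h3 : {ω : Om d | DConn (OA A ω) v u} ∩ {ω : Om d | Cl (OA A ω) v = (K : Set (V d))} =
        {ω | Cl (OA A ω) v = (K : Set (V d)) ∧ DConn (OA A ω) v u} := by
      ext ω
      exact and_comm
    rw [h3]
    unfold wq aps psiK
    simp only [Finset.mem_coe, Finset.coe_union]
    split_ifs
    · ring
    · ring
  simp only [h1]
  have e1 : ∑' q : Tr d, wq A v q.1 q.2.1 q.2.2 *
      ((1 - ex h (q.2.2 : Set (V d))) * ENNReal.ofReal (psiK (A ∪ q.2.2) q.2.1)) =
      ∑' u : V d, ∑' w : V d, ∑' K : Finset (V d), wq A v u w K *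
        ((1 - ex h (K : Set (V d))) * ENNReal.ofReal (psiK (A ∪ K) w)) := by
    rw [ENNReal.tsum_prod']
    refine tsum_congr fun u => ?_
    rw [ENNReal.tsum_prod']
  refine Eq.trans e1 (Eq.symm (Eq.trans ENNReal.tsum_comm ?_))
  exact tsum_congr fun u => ENNReal.tsum_comm

end Pool.Agent.PB.S7
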