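import Pool.Agent.PB.S7.SqDet
import Pool.Agent.PB.S7.SqInt

/-!
PB / S7 / LocH: the local function `HL` (7.3).

Plan. `HL_local`: `B = {e | ∀ x ∈ e, x ∈ bx R' v}` is finite (`bx_finite`; image of a finite set of pairs) and `HL O` depends only on
`(A.rem O) ∩ ins (bx R' v) = A.rem (O ∩ ins (bx R' v))`, which is determined by `O ∩ B` (`ins (bx R' v) = B`).  (`Lb R' O v = Cl (O ∩ ins (bx R' v)) v` by definition.)
`HL_bd`: `SqL_bd` and `0 ≤ 1/(1-p)`.
`EWH_HL`: `EWH H W1 h (ofSet A) v = ∫ H(Oc ω) (1 - exp(-h Nc(OA A ω) v))` for `v ∉ A`; all functions are bounded and measurable (`HL` is a function of finitely many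
measurable events: `measurable_of_finite`-type, or `LocalF` and `opn_MES`), `ofReal_integral_eq_lintegral_ofReal`; a.s. finite clusters (`OA_fin`):
`ofReal (1 - exp(-h N)) = 1 - ex h (Cl ..)`; `ofReal (HL O) = ofReal (1/(1-p)) * SqL ..` (`SqL < ∞`).
-/

set_option autoImplicit false
open MeasureTheory Filter Topology
open scoped ENNReal BigOperators

namespace Pool.Agent.PB.S7

open Pool.Agent.PB

variable {d : ℕ}

private theorem mem_ins {W : Type*} {S : Set W} {a b : W} : s(a, b) ∈ ins S ↔ a ∈ S ∧ b ∈ S := by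
  simp only [ins, Set.mem_ofPred_eq, Sym2.mem_iff, forall_eq_or_imp, forall_eq]

private theorem ins_finite {W : Type*} {S : Set W} (hS : S.Finite) : (ins S).Finite := by
  refine ((hS.prod hS).image (fun q : W × W => s(q.1, q.2))).subset ?_
  intro e he
  induction e using Sym2.ind with
  | _ a b => exact ⟨(a, b), mem_ins.1 he, rfl⟩

private theorem SqL_congr (A : Set (V d)) (R R' : ℕ) {O O' : Set (Sym2 (V d))} (v : V d)
    (h : O ∩ ins (bx R' v) = O' ∩ ins (bx R' v)) : SqL A R R' O v = SqL A R R' O' v := by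
  have h2 : Lb R' O v = Lb R' O' v := by
    unfold Lb
    rw [h]
  unfold SqL
  rw [h, h2]

theorem HL_local (A : Finset (V d)) (v : V d) (R R' : ℕ) : ∃ B, LocalF B (HL A v R R') := by
  refine ⟨ins (bx R' v), ins_finite (bx_finite R' v), ?_⟩
  intro O O' h
  unfold HL
  have h1 : (Del.ofSet (A : Set (V d))).rem O ∩ ins (bx R' v) =
      (Del.ofSet (A : Set (V d))).rem O' ∩ ins (bx R' v) := by
    rw [← rem_inter, ← rem_inter, h]
  rw [SqL_congr (A : Set (V d)) R R' v h1]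

/-- every local function is measurable -/
theorem local_measurable {B : Set (Sym2 (V d))} {H : Set (Sym2 (V d)) → ℝ} (hH : LocalF B H) :
    Measurable (fun ω : Om d => H (Oc ω)) := by
  obtain ⟨hB, hloc⟩ := hH
  have : Finite B := hB
  have h1 : (fun ω : Om d => H (Oc ω)) =
      (fun T : Set B => H (Subtype.val '' T)) ∘ fun ω : Om d => {b : B | (b : Sym2 (V d)) ∈ Oc ω} := by
    funext ω
    refine hloc _ _ ?_
    ext e
    simp only [Set.mem_inter_iff, Set.mem_image, Set.mem_ofPred_eq, Subtype.exists]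
    constructor
    · rintro ⟨he, heB⟩
      exact ⟨⟨e, heB, he, rfl⟩, heB⟩
    · rintro ⟨⟨e', he', hO, rfl⟩, _⟩
      exact ⟨hO, he'⟩
  have m1 : Measurable (fun T : Set B => H (Subtype.val '' T)) := measurable_of_countable _
  have m2 : Measurable (fun ω : Om d => {b : B | (b : Sym2 (V d)) ∈ Oc ω}) := by
    rw [measurable_set_iff]
    intro b
    exact measurableSet_setOfPred.1 (opn_MES (pc d) (b : Sym2 (V d)))
  rw [h1]
  exact m1.comp m2

theorem HL_bd (hC : Crit d) (h6 : Out6 d) (A : Finset (V d)) (v : V d) (R R' : ℕ) :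
    ∃ B : ℝ, ∀ O, 0 ≤ HL A v R R' O ∧ HL A v R R' O ≤ B := by
  obtain ⟨B, hB0, hB⟩ := SqL_bd h6 A v R R'
  have hp : 0 < 1 - pc d := sub_pos.2 hC.pc_lt
  refine ⟨1 / (1 - pc d) * B, fun O => ⟨?_, ?_⟩⟩
  · unfold HL
    positivity
  · unfold HL
    refine mul_le_mul_of_nonneg_left ?_ (by positivity)
    exact ENNReal.toReal_le_of_le_ofReal hB0 (hB _)

private theorem WA_W1 (A : Finset (V d)) {v : V d} (hv : v ∉ A) (h : ℝ) (ω : Om d) :
    WA W1 h (Del.ofSet (A : Set (V d))) (Oc ω) v =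
      1 - Real.exp (-(h * (Nc (OA A ω) v : ℝ))) := by
  have h1 : v ∉ (Del.ofSet (A : Set (V d))).S := fun hh => hv hh
  unfold WA
  rw [if_neg h1]
  rfl

private theorem WA_mem (A : Finset (V d)) {v : V d} (hv : v ∈ A) (h : ℝ) (ω : Om d) :
    WA W1 h (Del.ofSet (A : Set (V d))) (Oc ω) v = 0 := by
  have h1 : v ∈ (Del.ofSet (A : Set (V d))).S := hv
  unfold WA
  rw [if_pos h1]

private theorem meas_N (A : Finset (V d)) (v : V d) :
    Measurable (fun ω : Om d => (Nc (OA A ω) v : ℝ)) := by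
  have h1 : (fun ω : Om d => (Nc (OA A ω) v : ℝ)) =
      (fun n : ℕ∞ => (n.toNat : ℝ)) ∘ fun ω : Om d => (Cl (OA A ω) v).encard := rfl
  rw [h1]
  exact (measurable_of_countable _).comp ((OA_MES A).cl v).encard

theorem EWH_HL (hC : Crit d) (h5 : Out5 d) (h6 : Out6 d) (A : Finset (V d)) {v : V d}
    (hv : v ∉ A) (R R' : ℕ) {h : ℝ} (hh : 0 < h) :
    ENNReal.ofReal (EWH (HL A v R R') W1 h (Del.ofSet (A : Set (V d))) v) =
      ENNReal.ofReal (1 / (1 - pc d)) *
        ∫⁻ ω, (1 - ex h (Cl (OA A ω) v)) * SqL (A : Set (V d)) R R' (OA A ω) v ∂Pr d := by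
  obtain ⟨B, hB⟩ := HL_bd hC h6 A v R R'
  obtain ⟨B', hB'0, hB'⟩ := SqL_bd h6 A v R R'
  obtain ⟨S, hS⟩ := HL_local A v R R'
  have hp : 0 < 1 - pc d := sub_pos.2 hC.pc_lt
  have hmH := local_measurable hS
  have hmN := meas_N A v
  have hmW : Measurable (fun ω : Om d => 1 - Real.exp (-(h * (Nc (OA A ω) v : ℝ)))) :=
    measurable_const.sub (Real.measurable_exp.comp ((hmN.const_mul h).neg))
  have hW0 : ∀ ω : Om d, 0 ≤ 1 - Real.exp (-(h * (Nc (OA A ω) v : ℝ))) := by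
    intro ω
    have h1 : 0 ≤ h * (Nc (OA A ω) v : ℝ) := mul_nonneg hh.le (Nat.cast_nonneg _)
    have h2 : Real.exp (-(h * (Nc (OA A ω) v : ℝ))) ≤ 1 := Real.exp_le_one_iff.2 (by linarith)
    linarith
  have hW1 : ∀ ω : Om d, 1 - Real.exp (-(h * (Nc (OA A ω) v : ℝ))) ≤ 1 := by
    intro ω
    linarith [Real.exp_pos (-(h * (Nc (OA A ω) v : ℝ)))]
  unfold EWH
  have e1 : (fun ω : Om d => HL A v R R' (Oc ω) * WA W1 h (Del.ofSet (A : Set (V d))) (Oc ω) v) =
      fun ω => HL A v R R' (Oc ω) * (1 - Real.exp (-(h * (Nc (OA A ω) v : ℝ)))) := by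
    funext ω
    rw [WA_W1 A hv]
  rw [e1]
  rw [ofReal_integral_eq_lintegral_ofReal]
  · rw [← lintegral_const_mul' _ _ ENNReal.ofReal_ne_top]
    refine lintegral_congr_ae ?_
    have hfin : ∀ᵐ ω ∂Pr d, (Cl (OA A ω) v).Finite := by
      rw [ae_iff]
      exact OA_fin h5 A v
    filter_upwards [hfin] with ω hω
    have hne : SqL (A : Set (V d)) R R' (OA A ω) v ≠ ⊤ :=
      ((hB' _).trans_lt ENNReal.ofReal_lt_top).ne
    rw [ENNReal.ofReal_mul (hB _).1]
    have h3 : ENNReal.ofReal (HL A v R R' (Oc ω)) =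
        ENNReal.ofReal (1 / (1 - pc d)) * SqL (A : Set (V d)) R R' (OA A ω) v := by
      unfold HL
      rw [ENNReal.ofReal_mul (by positivity)]
      congr 1
      exact ENNReal.ofReal_toReal hne
    have h4 : ENNReal.ofReal (1 - Real.exp (-(h * (Nc (OA A ω) v : ℝ)))) =
        1 - ex h (Cl (OA A ω) v) := by
      rw [ex_fin h hω, ENNReal.ofReal_sub _ (Real.exp_pos _).le, ENNReal.ofReal_one]
      rfl
    rw [h3, h4]
    ring
  · refine Integrable.of_bound (hmH.mul hmW).aestronglyMeasurable B (Eventually.of_forall ?_)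
    intro ω
    rw [Real.norm_eq_abs, abs_of_nonneg (mul_nonneg (hB _).1 (hW0 ω))]
    calc HL A v R R' (Oc ω) * (1 - Real.exp (-(h * (Nc (OA A ω) v : ℝ))))
        ≤ B * 1 := mul_le_mul (hB _).2 (hW1 ω) (hW0 ω) ((hB (Oc ω)).1.trans (hB (Oc ω)).2)
      _ = B := mul_one B
  · exact Eventually.of_forall fun ω => mul_nonneg (hB _).1 (hW0 ω)

theorem EWH_HL_nonneg (hC : Crit d) (h6 : Out6 d) (A : Finset (V d)) (v : V d)
    (R R' : ℕ) {h : ℝ} (hh : 0 < h) :
    0 ≤ EWH (HL A v R R') W1 h (Del.ofSet (A : Set (V d))) v := by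
  obtain ⟨B, hB⟩ := HL_bd hC h6 A v R R'
  unfold EWH
  refine integral_nonneg fun ω => mul_nonneg (hB _).1 ?_
  by_cases hv : v ∈ A
  · rw [WA_mem A hv]
  · rw [WA_W1 A hv]
    have h1 : 0 ≤ h * (Nc (OA A ω) v : ℝ) := mul_nonneg hh.le (Nat.cast_nonneg _)
    have h2 : Real.exp (-(h * (Nc (OA A ω) v : ℝ))) ≤ 1 := Real.exp_le_one_iff.2 (by linarith)
    linarith

end Pool.Agent.PB.S7
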