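import Pool.Agent.PB.Crit
import Pool.Agent.PB.G.Diag
import Pool.Agent.PB.G.Split

/-!
PB / S7 / ExitDet: deterministic lemmas: leaving a set.

Plan. `off O Sᶜ = O ∩ ins S` (`mem_off`, `ins`).  `exit_box`: `exists_split` (G/Split) with `K = Sᶜ`.
`exit_dconn`: `DConn.two` gives disjoint `S1, S2 ⊆ O` with `Rch S1 v u`, `Rch S2 v u` (`disjConn_two`).  If `Rch (S1 ∩ ins S) v u` and
`Rch (S2 ∩ ins S) v u` then `DConn (O ∩ ins S) v u` (an edge lies in at most one of `S1, S2`, the other connection avoids it).  Otherwise `exit_box` for `S1`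
or `S2`, and `DisjConn.mono`.
-/

set_option autoImplicit false
open scoped BigOperators

namespace Pool.Agent.PB.S7

open Pool.Agent.PB

theorem exit_box {W : Type*} {O : Set (Sym2 W)} {v z : W} {S : Set W} (h : Rch O v z)
    (hn : ¬ Rch (O ∩ ins S) v z) : ∃ x, x ∉ S ∧ DisjConn O ![(v, x), (x, z)] := by
  have hK : ¬ Rch (off O Sᶜ) v z := by
    intro h'
    refine hn (h'.mono ?_)
    intro e he
    rw [mem_off] at he
    exact ⟨he.1, fun x hx => not_not.1 fun hxS => he.2 x hx hxS⟩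
  obtain ⟨a, ha, hc⟩ := exists_split h Sᶜ (Or.inr hK)
  exact ⟨a, ha, hc⟩

theorem exit_dconn {W : Type*} {O : Set (Sym2 W)} {v u : W} {S : Set W} (h : DConn O v u)
    (hn : ¬ DConn (O ∩ ins S) v u) : ∃ x, x ∉ S ∧ DisjConn O ![(v, x), (x, u)] := by
  obtain ⟨S1, S2, h1, h2, hd, hr1, hr2⟩ := disjConn_two.1 h.two
  by_cases k1 : Rch (S1 ∩ ins S) v u
  · by_cases k2 : Rch (S2 ∩ ins S) v u
    · exfalso
      apply hn
      refine ⟨k1.mono (Set.inter_subset_inter_left _ h1), ?_⟩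
      rintro e ⟨-, hsep⟩
      apply hsep
      refine ⟨u, rfl, ?_⟩
      by_cases he : e ∈ S1
      · refine k2.mono ?_
        rintro f ⟨hf, hfS⟩
        refine ⟨⟨h2 hf, hfS⟩, ?_⟩
        rintro rfl
        exact Set.disjoint_left.1 hd he hf
      · refine k1.mono ?_
        rintro f ⟨hf, hfS⟩
        refine ⟨⟨h1 hf, hfS⟩, ?_⟩
        rintro rfl
        exact he hf
    · obtain ⟨x, hx, hc⟩ := exit_box hr2 k2
      exact ⟨x, hx, hc.mono h2⟩
  · obtain ⟨x, hx, hc⟩ := exit_box hr1 k1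
    exact ⟨x, hx, hc.mono h1⟩

end Pool.Agent.PB.S7
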