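import Pool.Agent.PB.S7.Defs
import Pool.Agent.PB.G.Diag
import Pool.Agent.PB.BK
import Pool.Agent.PB.P.BKw

/-!
PB / S7 / WqSum: the weights of 7.1 are summable.

Plan. `DConn.mono'`: for `O ⊆ O'`: `Rch.mono`; if `e` separates `v` from `u` in `O'` then `¬ Rch (del1 O' e) v u`, hence `¬ Rch (del1 O e) v u`;
if `e ∈ O` it separates in `O`, if `e ∉ O` then `del1 O e = O` and `Rch O v u`: contradiction.
`Pr_DConn_le`: `DConn.two` (G/Diag) gives `DisjConn (opn p ω) ![(v,u),(v,u)]`; finite edge sets (`DisjConn.exists_finite`) are witnesses of the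
disjoint occurrence of `{Rch (opn p ω) v u}` twice; `bk`; `tau_shift` (P/Act).
`wq_sum_le`: for fixed `u, w` the events `{Cl (OA A ω) v = K ∧ DConn (OA A ω) v u}`, `K` finset, are disjoint, so
`∑' K, wq A v u w K ≤ J(w-u) Pr{DConn (OA A ω) v u} ≤ J(w-u) τ(u-v)²`; sum over `w`: `nrm J` (`ENNReal.tsum_prod`, shift), over `u`:
`∑ τ² = cpow τ 2 0` (`conv_zero_eq`, `tau_neg`).
`cpow_ne_top`: `cpow τ m x ≤ cpow τ 8 x ≤ cpow τ 8 0 < ∞` (`cpow_le_cpow`, `cpow_even_le_zero`, `hC.B8`).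
-/

set_option autoImplicit false
open MeasureTheory Filter Topology
open scoped ENNReal BigOperators

namespace Pool.Agent.PB.S7

open Pool.Agent.PB

variable {d : ℕ}

theorem DConn_mono {W : Type*} {O O' : Set (Sym2 W)} (hO : O ⊆ O') {v u : W}
    (h : DConn O v u) : DConn O' v u := by
  refine ⟨h.1.mono hO, fun e he => ?_⟩
  by_cases heO : e ∈ O
  · refine h.2 e ⟨heO, ?_⟩
    rintro ⟨t, ht, hr⟩
    exact he.2 ⟨t, ht, hr.mono (del1_mono hO e)⟩
  · have hsub : O ⊆ del1 O' e := by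
      intro f hf
      refine ⟨hO hf, ?_⟩
      rintro rfl
      exact heO hf
    exact he.2 ⟨u, rfl, h.1.mono hsub⟩

theorem Pr_DConn_le (p : ℝ) (v u : V d) :
    Pr d {ω | DConn (opn p ω) v u} ≤ tau p (u - v) * tau p (u - v) := by
  have h1 := Pr_disjConn_le (d := d) p (Del.ofSet ∅) ![(v, u), (v, u)]
  rw [Fin.prod_univ_two] at h1
  refine le_trans (measure_mono fun ω hω => ?_) h1
  have h2 : (Del.ofSet (∅ : Set (V d))).rem (opn p ω) = opn p ω := by
    rw [Del.ofSet_rem]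
    ext e
    simp
  change DisjConn ((Del.ofSet ∅).rem (opn p ω)) ![(v, u), (v, u)]
  rw [h2]
  exact DConn.two hω

theorem cpow_ne_top (hC : Crit d) {m : ℕ} (hm : m ≤ 8) (x : V d) :
    cpow (tau (pc d)) m x ≠ ⊤ := by
  refine ne_of_lt (lt_of_le_of_lt ?_ hC.B8)
  refine (cpow_le_cpow (tau_zero (d := d) (pc d)).ge hm x).trans ?_
  exact cpow_even_le_zero (tau_neg (d := d) (pc d)) 4 x

theorem wq_sum_le (A : Finset (V d)) (v : V d) :
    ∑' q : Tr d, wq A v q.1 q.2.1 q.2.2 ≤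
      nrm (J (pc d) : V d → ℝ≥0∞) * cpow (tau (pc d)) 2 (0 : V d) := by
  have h0 : ∀ u w : V d, ∑' K : Finset (V d), wq A v u w K ≤
      J (pc d) (w - u) * (tau (pc d) (u - v) * tau (pc d) (u - v)) := by
    intro u w
    have h1 : ∀ K : Finset (V d), wq A v u w K ≤ J (pc d) (w - u) *
        Pr d {ω | Cl (OA A ω) v = (K : Set (V d)) ∧ DConn (OA A ω) v u} := by
      intro K
      unfold wq
      split_ifs
      · exact le_rfl
      · exact zero_le
    refine (ENNReal.tsum_le_tsum h1).trans ?_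
    rw [ENNReal.tsum_mul_left]
    refine mul_le_mul' le_rfl ?_
    refine le_trans (tsum_meas_le_meas_iUnion_of_disjoint (Pr d) (fun K => ?_) ?_) ?_
    · exact (((OA_MES A).cl v).eq_set _).inter ((OA_MES A).dconn v u)
    · intro K K' hne
      simp only [Function.onFun]
      rw [Set.disjoint_left]
      rintro ω ⟨h2, _⟩ ⟨h3, _⟩
      exact hne (Finset.coe_injective (h2.symm.trans h3))
    · refine le_trans (measure_mono (Set.iUnion_subset fun K ω hω => ?_))
        (Pr_DConn_le (pc d) v u)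
      exact DConn_mono (OA_subset A ω) hω.2
  have h1 : ∑' q : Tr d, wq A v q.1 q.2.1 q.2.2 =
      ∑' u : V d, ∑' w : V d, ∑' K : Finset (V d), wq A v u w K := by
    rw [ENNReal.tsum_prod']
    refine tsum_congr fun u => ?_
    rw [ENNReal.tsum_prod']
  rw [h1]
  have h2 : ∀ u : V d, ∑' w : V d, J (pc d) (w - u) * (tau (pc d) (u - v) * tau (pc d) (u - v))
      = nrm (J (pc d) : V d → ℝ≥0∞) * (tau (pc d) (u - v) * tau (pc d) (u - v)) := by
    intro u
    rw [ENNReal.tsum_mul_right]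
    congr 1
    exact (Equiv.subRight u).tsum_eq (J (pc d))
  refine (ENNReal.tsum_le_tsum fun u => ENNReal.tsum_le_tsum fun w => h0 u w).trans ?_
  simp only [h2]
  rw [ENNReal.tsum_mul_left]
  refine mul_le_mul' le_rfl (le_of_eq ?_)
  rw [cpow_two, conv_zero_eq (tau_neg (d := d) (pc d))]
  exact (Equiv.subRight v).tsum_eq (fun x => tau (pc d) x * tau (pc d) x)

theorem wq_sum_ne_top (hC : Crit d) (A : Finset (V d)) (v : V d) :
    ∑' q : Tr d, wq A v q.1 q.2.1 q.2.2 ≠ ⊤ := by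
  refine ne_top_of_le_ne_top (ENNReal.mul_ne_top ?_ (cpow_ne_top hC (by norm_num) 0))
    (wq_sum_le A v)
  rw [nrm_J]
  exact ENNReal.mul_ne_top ENNReal.ofReal_ne_top (ENNReal.natCast_ne_top _)

end Pool.Agent.PB.S7
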