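import Pool.Agent.PB.S7.NLx
import Pool.Agent.PB.S7.ExitDet
import Pool.Agent.PB.S7.WqSum

/-!
PB / S7 / SqErr: expectation of the error terms of 7.3.
-/

set_option autoImplicit false
open MeasureTheory Filter Topology
open scoped ENNReal BigOperators

namespace Pool.Agent.PB.S7

open Pool.Agent.PB

variable {d : ℕ}

private theorem OA_dep (A : Finset (V d)) :
    DependsOn (fun ω : Om d => OA A ω) (gI d false)ᶜ := by
  intro ω ω' h
  have h1 : opn (pc d) ω = opn (pc d) ω' := by
    ext e
    simp only [opn, Set.mem_ofPred_eq]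
    rw [h (Sum.inl e) (by simp [gI])]
  show (Del.ofSet (A : Set (V d))).rem (opn (pc d) ω) = (Del.ofSet (A : Set (V d))).rem (opn (pc d) ω')
  rw [h1]

/-- `E[(1 - e^{-h|C|}) 1_P] ≤ P(P, v → G_h)` -/
private theorem hit_le (A : Finset (V d)) (v : V d) {h : ℝ} (hh : 0 < h)
    {P : Set (Sym2 (V d)) → Prop} (mP : MeasurableSet {ω : Om d | P (OA A ω)}) :
    ∫⁻ ω, (1 - ex h (Cl (OA A ω) v)) * {ω : Om d | P (OA A ω)}.indicator 1 ω ∂Pr d ≤
      Pr d ({ω : Om d | P (OA A ω)} ∩ {ω : Om d | RchT (Oc ω) v (ghost false h ω)}) := by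
  classical
  have hC : MVS (fun ω : Om d => Cl (OA A ω) v) := (OA_MES A).cl v
  have hCd : DependsOn (fun ω : Om d => Cl (OA A ω) v) (gI d false)ᶜ := by
    intro ω ω' hω
    have := OA_dep A hω
    simp only at this ⊢
    rw [this]
  have hFd : DependsOn ({ω : Om d | P (OA A ω)}.indicator (1 : Om d → ℝ≥0∞)) (gI d false)ᶜ := by
    intro ω ω' hω
    have h1 := OA_dep A hω
    simp only at h1
    simp only [Set.indicator_apply, Set.mem_ofPred_eq, h1, Pi.one_apply]
  have h1 := lintegral_ghost_hit (d := d) false hh hC hCd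
    (F := {ω : Om d | P (OA A ω)}.indicator 1) (measurable_one.indicator mP) hFd
  have h2 : ∫⁻ ω, (1 - ex h (Cl (OA A ω) v)) * {ω : Om d | P (OA A ω)}.indicator 1 ω ∂Pr d =
      ∫⁻ ω, {ω : Om d | P (OA A ω)}.indicator 1 ω * (1 - ex h (Cl (OA A ω) v)) ∂Pr d :=
    lintegral_congr fun ω => mul_comm _ _
  rw [h2, ← h1, lintegral_indicator_one mP, Measure.restrict_apply mP]
  refine measure_mono ?_
  rintro ω ⟨h3, g, hg, hgC⟩
  exact ⟨h3, g, hg, Rch.mono (OA_subset A ω) hgC⟩

theorem Er_int_le (A : Finset (V d)) (v : V d) {h : ℝ} (hh : 0 < h) (R R' : ℕ) :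
    ∫⁻ ω, (1 - ex h (Cl (OA A ω) v)) * Er R R' (OA A ω) v ∂Pr d ≤
      err d R R' * Mg d (pc d) h := by
  classical
  set M := Mg d (pc d) h with hM
  let T : V d → ℝ≥0∞ := tau (pc d)
  let g : Om d → ℝ≥0∞ := fun ω => 1 - ex h (Cl (OA A ω) v)
  have mg : Measurable g := measurable_const.sub (measurable_ex ((OA_MES A).cl v))
  let P1 : V d → Set (Sym2 (V d)) → Prop := fun u O => DConn O v u
  let P2 : V d → Set (Sym2 (V d)) → Prop := fun u O =>
    DConn O v u ∧ ¬ DConn (O ∩ ins (bx R' v)) v u
  let P3 : V d → Set (Sym2 (V d)) → Prop := fun z O => z ∈ Cl O v ∧ z ∉ Lb R' O v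
  have mP1 : ∀ u, MeasurableSet {ω : Om d | P1 u (OA A ω)} := fun u => (OA_MES A).dconn v u
  have mP2 : ∀ u, MeasurableSet {ω : Om d | P2 u (OA A ω)} := fun u =>
    ((OA_MES A).dconn v u).inter (((OA_MES A).inter (MES.const (ins (bx R' v)))).dconn v u).compl
  have mP3 : ∀ z, MeasurableSet {ω : Om d | P3 z (OA A ω)} := fun z =>
    ((OA_MES A).cl v z).inter (((OA_MES A).inter (MES.const (ins (bx R' v)))).cl v z).compl
  let I1 : V d → Om d → ℝ≥0∞ := fun u => {ω : Om d | P1 u (OA A ω)}.indicator 1
  let I2 : V d → Om d → ℝ≥0∞ := fun u => {ω : Om d | P2 u (OA A ω)}.indicator 1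
  let I3 : V d → Om d → ℝ≥0∞ := fun z => {ω : Om d | P3 z (OA A ω)}.indicator 1
  have mI1 : ∀ u, Measurable (I1 u) := fun u => measurable_one.indicator (mP1 u)
  have mI2 : ∀ u, Measurable (I2 u) := fun u => measurable_one.indicator (mP2 u)
  have mI3 : ∀ u, Measurable (I3 u) := fun u => measurable_one.indicator (mP3 u)
  -- the three expectations
  have e1 : ∀ u, ∫⁻ ω, g ω * I1 u ω ∂Pr d ≤ T (u - v) * conv T T (u - v) * M := by
    intro u
    refine (hit_le A v hh (mP1 u)).trans (le_trans (measure_mono ?_) (DG v u hh))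
    exact Set.inter_subset_inter_left _ fun ω hω => DConn_mono (OA_subset A ω) hω
  have e2 : ∀ u, ∫⁻ ω, g ω * I2 u ω ∂Pr d ≤ Rcal R' (u - v) * M := by
    intro u
    refine (hit_le A v hh (mP2 u)).trans (le_trans (measure_mono ?_) (NLx R' v u hh))
    refine Set.inter_subset_inter_left _ fun ω hω => ?_
    obtain ⟨x, hx, hc⟩ := exit_dconn hω.1 hω.2
    exact ⟨x, hx, hc.mono (OA_subset A ω)⟩
  have e3 : ∀ z, ∫⁻ ω, g ω * I3 z ω ∂Pr d ≤ Rcal R' (z - v) * M := by
    intro z
    refine (hit_le A v hh (mP3 z)).trans (le_trans (measure_mono ?_) (NLx R' v z hh))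
    refine Set.inter_subset_inter_left _ fun ω hω => ?_
    obtain ⟨x, hx, hc⟩ := exit_box (S := bx R' v) hω.1 hω.2
    exact ⟨x, hx, hc.mono (OA_subset A ω)⟩
  -- the integrand
  have hEr : ∀ ω, g ω * Er R R' (OA A ω) v = ∑' u : V d, ∑' w : V d, J (pc d) (w - u) *
      ((if u ∉ bx R v then g ω * I1 u ω else 0) + (if u ∈ bx R v then g ω * I2 u ω else 0) +
        (if u ∈ bx R v then ∑' z : V d, T (z - w) * (g ω * I3 z ω) else 0)) := by
    intro ω
    unfold Er
    rw [← ENNReal.tsum_mul_left]
    refine tsum_congr fun u => ?_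
    rw [← ENNReal.tsum_mul_left]
    refine tsum_congr fun w => ?_
    rw [mul_left_comm]
    congr 1
    rw [mul_add, mul_add]
    congr 1
    · congr 1
      · by_cases hu : u ∉ bx R v <;> by_cases hD : DConn (OA A ω) v u <;>
          simp [I1, P1, hu, hD]
      · by_cases hu : u ∈ bx R v <;> by_cases hD : DConn (OA A ω) v u <;>
          by_cases hD' : DConn (OA A ω ∩ ins (bx R' v)) v u <;>
          simp [I2, P2, hu, hD, hD']
    · by_cases hu : u ∈ bx R v
      · rw [if_pos hu, if_pos hu, ← ENNReal.tsum_mul_left]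
        refine tsum_congr fun z => ?_
        by_cases hz : z ∈ Cl (OA A ω) v <;> by_cases hz' : z ∈ Lb R' (OA A ω) v <;>
          simp [I3, P3, hz, hz', T, mul_comm]
      · simp [hu]
  have hint : ∫⁻ ω, g ω * Er R R' (OA A ω) v ∂Pr d = ∑' u : V d, ∑' w : V d, J (pc d) (w - u) *
      ((if u ∉ bx R v then ∫⁻ ω, g ω * I1 u ω ∂Pr d else 0) +
        (if u ∈ bx R v then ∫⁻ ω, g ω * I2 u ω ∂Pr d else 0) +
        (if u ∈ bx R v then ∑' z : V d, T (z - w) * ∫⁻ ω, g ω * I3 z ω ∂Pr d else 0)) := by
    simp only [hEr]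
    have m1 : ∀ u, Measurable (fun ω => if u ∉ bx R v then g ω * I1 u ω else 0) := by
      intro u
      by_cases hu : u ∉ bx R v
      · simp only [if_pos hu]; exact mg.mul (mI1 u)
      · simp only [if_neg hu]; exact measurable_const
    have m2 : ∀ u, Measurable (fun ω => if u ∈ bx R v then g ω * I2 u ω else 0) := by
      intro u
      by_cases hu : u ∈ bx R v
      · simp only [if_pos hu]; exact mg.mul (mI2 u)
      · simp only [if_neg hu]; exact measurable_const
    have m3 : ∀ u w, Measurable (fun ω => if u ∈ bx R v then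
        ∑' z : V d, T (z - w) * (g ω * I3 z ω) else 0) := by
      intro u w
      by_cases hu : u ∈ bx R v
      · simp only [if_pos hu]
        exact Measurable.tsum fun z => (mg.mul (mI3 z)).const_mul _
      · simp only [if_neg hu]; exact measurable_const
    have m4 : ∀ u w, Measurable (fun ω => J (pc d) (w - u) *
      ((if u ∉ bx R v then g ω * I1 u ω else 0) + (if u ∈ bx R v then g ω * I2 u ω else 0) +
        (if u ∈ bx R v then ∑' z : V d, T (z - w) * (g ω * I3 z ω) else 0))) := fun u w =>
      (((m1 u).add (m2 u)).add (m3 u w)).const_mul _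
    rw [lintegral_tsum fun u => (Measurable.tsum fun w => m4 u w).aemeasurable]
    refine tsum_congr fun u => ?_
    rw [lintegral_tsum fun w => (m4 u w).aemeasurable]
    refine tsum_congr fun w => ?_
    refine (lintegral_const_mul _ (((m1 u).add (m2 u)).add (m3 u w))).trans ?_
    congr 1
    refine (lintegral_add_right _ (m3 u w)).trans ?_
    congr 1
    · refine (lintegral_add_right _ (m2 u)).trans ?_
      congr 1
      · by_cases hu : u ∉ bx R v
        · simp only [if_pos hu]
        · simp only [if_neg hu, lintegral_zero]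
      · by_cases hu : u ∈ bx R v
        · simp only [if_pos hu]
        · simp only [if_neg hu, lintegral_zero]
    · by_cases hu : u ∈ bx R v
      · simp only [if_pos hu]
        have m5 : ∀ z, Measurable (fun ω => T (z - w) * (g ω * I3 z ω)) := fun z =>
          (mg.mul (mI3 z)).const_mul _
        rw [lintegral_tsum fun z => (m5 z).aemeasurable]
        exact tsum_congr fun z => lintegral_const_mul _ (mg.mul (mI3 z))
      · simp only [if_neg hu, lintegral_zero]
  -- bound
  have hb : ∀ u w, J (pc d) (w - u) *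
      ((if u ∉ bx R v then ∫⁻ ω, g ω * I1 u ω ∂Pr d else 0) +
        (if u ∈ bx R v then ∫⁻ ω, g ω * I2 u ω ∂Pr d else 0) +
        (if u ∈ bx R v then ∑' z : V d, T (z - w) * ∫⁻ ω, g ω * I3 z ω ∂Pr d else 0)) ≤
      (J (pc d) (w - u) * (if u ∉ bx R v then T (u - v) * conv T T (u - v) else 0)) * M +
      (if u ∈ bx R v then J (pc d) (w - u) * (Rcal R' (u - v) +
        ∑' z : V d, T (z - w) * Rcal R' (z - v)) else 0) * M := by
    intro u w
    by_cases hu : u ∈ bx R v
    · have hu' : ¬ (u ∉ bx R v) := not_not.2 hu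
      rw [if_neg hu', if_neg hu', if_pos hu, if_pos hu, if_pos hu, mul_zero, zero_mul, zero_add,
        zero_add, mul_assoc]
      gcongr
      rw [add_mul, ← ENNReal.tsum_mul_right]
      refine add_le_add (e2 u) (ENNReal.tsum_le_tsum fun z => ?_)
      rw [mul_assoc]
      gcongr
      exact e3 z
    · rw [if_pos hu, if_pos hu, if_neg hu, if_neg hu, if_neg hu, add_zero, add_zero, zero_mul,
        add_zero, mul_assoc]
      gcongr
      exact e1 u
  calc ∫⁻ ω, (1 - ex h (Cl (OA A ω) v)) * Er R R' (OA A ω) v ∂Pr d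
      = ∑' u : V d, ∑' w : V d, J (pc d) (w - u) *
      ((if u ∉ bx R v then ∫⁻ ω, g ω * I1 u ω ∂Pr d else 0) +
        (if u ∈ bx R v then ∫⁻ ω, g ω * I2 u ω ∂Pr d else 0) +
        (if u ∈ bx R v then ∑' z : V d, T (z - w) * ∫⁻ ω, g ω * I3 z ω ∂Pr d else 0)) := hint
    _ ≤ ∑' u : V d, ∑' w : V d, ((J (pc d) (w - u) *
          (if u ∉ bx R v then T (u - v) * conv T T (u - v) else 0)) * M +
      (if u ∈ bx R v then J (pc d) (w - u) * (Rcal R' (u - v) +
        ∑' z : V d, T (z - w) * Rcal R' (z - v)) else 0) * M) :=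
        ENNReal.tsum_le_tsum fun u => ENNReal.tsum_le_tsum fun w => hb u w
    _ = (∑' u : V d, ∑' w : V d, (J (pc d) (w - u) *
          (if u ∉ bx R v then T (u - v) * conv T T (u - v) else 0))) * M +
        (∑' u : V d, ∑' w : V d, (if u ∈ bx R v then J (pc d) (w - u) * (Rcal R' (u - v) +
        ∑' z : V d, T (z - w) * Rcal R' (z - v)) else 0)) * M := by
        simp only [ENNReal.tsum_add, ENNReal.tsum_mul_right]
    _ = err d R R' * M := by
        rw [← add_mul]
        congr 1
        unfold err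
        have hbx : ∀ u : V d, u + v ∈ bx R v ↔ u ∈ bx R (0 : V d) := by
          intro u
          simp [bx]
        congr 1
        · -- first part
          have h1 : ∀ u : V d, ∑' w : V d, (J (pc d) (w - u) *
              (if u ∉ bx R v then T (u - v) * conv T T (u - v) else 0)) =
              nrm (J (pc d) : V d → ℝ≥0∞) *
                (if u ∉ bx R v then T (u - v) * conv T T (u - v) else 0) := by
            intro u
            rw [ENNReal.tsum_mul_right]
            congr 1
            exact (Equiv.subRight u).tsum_eq (J (pc d) : V d → ℝ≥0∞)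
          simp only [h1]
          rw [ENNReal.tsum_mul_left]
          congr 1
          rw [← (Equiv.addRight v).tsum_eq]
          refine tsum_congr fun u => ?_
          simp only [Equiv.coe_addRight, hbx, add_sub_cancel_right]
          rfl
        · rw [← (Equiv.addRight v).tsum_eq]
          refine tsum_congr fun u => ?_
          rw [← (Equiv.addRight v).tsum_eq]
          refine tsum_congr fun w => ?_
          simp only [Equiv.coe_addRight, hbx, add_sub_cancel_right, add_sub_add_right_eq_sub]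
          split_ifs with hu
          · congr 2
            unfold TR
            rw [← (Equiv.addRight v).tsum_eq]
            refine tsum_congr fun z => ?_
            simp only [Equiv.coe_addRight, add_sub_cancel_right, add_sub_add_right_eq_sub]
            rfl
          · rfl

end Pool.Agent.PB.S7
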