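import Pool.Agent.PB.S7.WqSum

/-!
PB / S7 / Tails: the tails tend to 0.

Plan. `Rcal R z ≤ 2 τ^{*3}(z) < ∞` (`cpow_three`, `conv` expanded, `cpow_ne_top`) and `Rcal R z → 0` for fixed `z`: the summand is `0` for `x ∈ bx R 0`,
every `x` lies in `bx R 0` for large `R`, dominated by the summable full sum (`TsumLim.tsum_lim`-type argument for sequences; Mathlib:
`tendsto_tsum_of_dominated_convergence` in `ℝ`, or `MeasureTheory.tendsto_lintegral_of_dominated_convergence` with the counting measure, or antitone limits: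
`ENNReal.tendsto_tsum_compl_atTop_zero`).
`TR_lim`: `TR R t = Σ t z Rcal R z`, dominated by `2 Σ t z τ^{*3}(z) < ∞`.
`t = τ(. - w)`: `Σ_z τ(z-w) τ^{*3}(z) = τ^{*4}(w) < ∞` (`tau_neg`, `cpow_succ`).
`err_small`: choose `R` with the first term `< ε/2` (`Σ_x τ (τ*τ) = τ^{*3}(0) < ∞`), then `R'`: a finite sum (over `u ∈ bx R 0`, `w` with `J(w-u) ≠ 0`, i.e.
`w = u + e`, `sum_over_nbrs`/`conv_J` of P/Conv) of terms tending to `0`.
-/

set_option autoImplicit false
open MeasureTheory Filter Topology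
open scoped ENNReal BigOperators

namespace Pool.Agent.PB.S7

open Pool.Agent.PB

variable {d : ℕ}

private theorem tsum0 {ι : Type*} [Countable ι] {f : ℕ → ι → ℝ≥0∞} {g : ι → ℝ≥0∞}
    (hg : ∑' i, g i ≠ ⊤) (hfg : ∀ n i, f n i ≤ g i)
    (hf : ∀ i, Tendsto (fun n => f n i) atTop (𝓝 0)) :
    Tendsto (fun n => ∑' i, f n i) atTop (𝓝 0) := by
  let _ : MeasurableSpace ι := ⊤
  have _ : MeasurableSingletonClass ι := ⟨fun _ => trivial⟩
  have h1 : ∀ u : ι → ℝ≥0∞, ∑' i, u i = ∫⁻ i, u i ∂(Measure.count : Measure ι) := fun u =>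
    (lintegral_count u).symm
  rw [h1] at hg
  simp only [h1]
  have h2 : (∫⁻ _ : ι, (0 : ℝ≥0∞) ∂(Measure.count : Measure ι)) = 0 := lintegral_zero
  rw [← h2]
  exact tendsto_lintegral_filter_of_dominated_convergence g
    (Eventually.of_forall fun n => measurable_from_top)
    (Eventually.of_forall fun n => Eventually.of_forall fun i => hfg n i) hg
    (Eventually.of_forall fun i => hf i)

private theorem mem_bx_large (x : V d) : ∀ᶠ R : ℕ in atTop, x ∈ bx R (0 : V d) := by
  refine eventually_atTop.2 ⟨∑ i, (x i).natAbs, fun R hR i => ?_⟩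
  have h1 : (x i).natAbs ≤ ∑ j, (x j).natAbs :=
    Finset.single_le_sum (f := fun j => (x j).natAbs) (fun _ _ => Nat.zero_le _)
      (Finset.mem_univ i)
  rw [Pi.zero_apply, sub_zero, Int.abs_eq_natAbs]
  exact_mod_cast h1.trans hR

private theorem bx_fin (R : ℕ) (x : V d) : (bx R x).Finite := by
  refine (Set.finite_Icc (fun i => x i - (R : ℤ)) (fun i => x i + (R : ℤ))).subset ?_
  intro y hy
  refine ⟨fun i => ?_, fun i => ?_⟩
  · have := abs_le.1 (hy i); simp only; omega
  · have := abs_le.1 (hy i); simp only; omega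

private theorem sum3 (z : V d) :
    ∑' x : V d, (conv (tau (pc d)) (tau (pc d)) x * tau (pc d) (z - x) +
      tau (pc d) x * conv (tau (pc d)) (tau (pc d)) (z - x)) =
      cpow (tau (pc d)) 3 z + cpow (tau (pc d)) 3 z := by
  rw [ENNReal.tsum_add]
  congr 1
  · rw [show (3 : ℕ) = 2 + 1 from rfl, cpow_succ', cpow_two]
    rfl
  · rw [cpow_three]
    rfl

private theorem Rcal_le (R : ℕ) (z : V d) :
    Rcal R z ≤ cpow (tau (pc d)) 3 z + cpow (tau (pc d)) 3 z := by
  classical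
  rw [← sum3]
  unfold Rcal
  refine ENNReal.tsum_le_tsum fun x => ?_
  split_ifs
  · exact zero_le
  · exact le_rfl

theorem Rcal_lim (hC : Crit d) (z : V d) :
    Tendsto (fun R : ℕ => Rcal (d := d) R z) atTop (𝓝 0) := by
  classical
  unfold Rcal
  refine tsum0 (g := fun x : V d => conv (tau (pc d)) (tau (pc d)) x * tau (pc d) (z - x) +
      tau (pc d) x * conv (tau (pc d)) (tau (pc d)) (z - x)) ?_ ?_ ?_
  · rw [sum3]
    exact ENNReal.add_ne_top.2 ⟨cpow_ne_top hC (by norm_num) z, cpow_ne_top hC (by norm_num) z⟩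
  · intro R x
    split_ifs
    · exact zero_le
    · exact le_rfl
  · intro x
    refine tendsto_const_nhds.congr' ?_
    filter_upwards [mem_bx_large x] with R hR
    rw [if_neg (not_not.2 hR)]

theorem TR_lim (hC : Crit d) {t : V d → ℝ≥0∞}
    (ht : ∑' z : V d, t z * cpow (tau (pc d)) 3 z ≠ ⊤) :
    Tendsto (fun R : ℕ => TR R t) atTop (𝓝 0) := by
  unfold TR
  refine tsum0 (g := fun z : V d => t z * cpow (tau (pc d)) 3 z +
    t z * cpow (tau (pc d)) 3 z) ?_ ?_ ?_
  · rw [ENNReal.tsum_add]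
    exact ENNReal.add_ne_top.2 ⟨ht, ht⟩
  · intro R z
    rw [← mul_add]
    exact mul_le_mul' le_rfl (Rcal_le R z)
  · intro z
    by_cases htz : t z = ⊤
    · have h0 : cpow (tau (pc d)) 3 z = 0 := by
        by_contra hne
        apply ENNReal.ne_top_of_tsum_ne_top ht z
        rw [htz, ENNReal.top_mul hne]
      have h1 : ∀ R : ℕ, t z * Rcal R z = 0 := by
        intro R
        have h2 := Rcal_le R z
        rw [h0, add_zero] at h2
        rw [nonpos_iff_eq_zero.1 h2, mul_zero]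
      simp only [h1]
      exact tendsto_const_nhds
    · have := ENNReal.Tendsto.const_mul (Rcal_lim hC z) (Or.inr htz)
      rwa [mul_zero] at this

theorem tau_fin (hC : Crit d) (w : V d) :
    ∑' z : V d, tau (pc d) (z - w) * cpow (tau (pc d)) 3 z ≠ ⊤ := by
  have h1 : ∑' z : V d, tau (pc d) (z - w) * cpow (tau (pc d)) 3 z = cpow (tau (pc d)) 4 w := by
    have h2 : cpow (tau (pc d)) 4 w = conv (cpow (tau (pc d)) 3) (tau (pc d)) w :=
      congrFun (cpow_succ' (tau (pc d)) 3) w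
    rw [h2, ← tsum_mul_sub (fun x => tau_neg (pc d) x) w]
    exact tsum_congr fun z => mul_comm _ _
  rw [h1]
  exact cpow_ne_top hC (by norm_num) w

theorem tU_fin (hC : Crit d) : ∑' z : V d, tU d z * cpow (tau (pc d)) 3 z ≠ ⊤ := by
  have h1 : ∑' z : V d, tU d z * cpow (tau (pc d)) 3 z
      = ∑ e ∈ U1 d, ∑' z : V d, tau (pc d) (z - e) * cpow (tau (pc d)) 3 z := by
    unfold tU
    simp only [Finset.sum_mul]
    exact Summable.tsum_finsetSum fun _ _ => ENNReal.summable
  rw [h1]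
  exact (ENNReal.sum_lt_top.2 fun e _ => (tau_fin hC e).lt_top).ne

/-- every value is finite -/
theorem TR_tU_ne_top (hC : Crit d) (R : ℕ) : TR R (tU d) ≠ ⊤ := by
  have h1 : TR R (tU d) ≤ ∑' z : V d, (tU d z * cpow (tau (pc d)) 3 z +
      tU d z * cpow (tau (pc d)) 3 z) := by
    unfold TR
    refine ENNReal.tsum_le_tsum fun z => ?_
    rw [← mul_add]
    exact mul_le_mul' le_rfl (Rcal_le R z)
  rw [ENNReal.tsum_add] at h1
  exact ne_top_of_le_ne_top (ENNReal.add_ne_top.2 ⟨tU_fin hC, tU_fin hC⟩) h1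

theorem err_small (hC : Crit d) {ε : ℝ≥0∞} (hε : 0 < ε) : ∃ R R' : ℕ, err d R R' ≤ ε := by
  classical
  have hJ : nrm (J (pc d) : V d → ℝ≥0∞) ≠ ⊤ := by
    rw [nrm_J]
    exact ENNReal.mul_ne_top ENNReal.ofReal_ne_top (ENNReal.natCast_ne_top _)
  have h3 : ∑' x : V d, tau (pc d) x * conv (tau (pc d)) (tau (pc d)) x ≠ ⊤ := by
    have h4 : ∑' x : V d, tau (pc d) x * conv (tau (pc d)) (tau (pc d)) x
        = cpow (tau (pc d)) 3 (0 : V d) := by
      rw [cpow_three]
      exact (conv_zero_eq (conv_even (fun x => tau_neg (pc d) x) (fun x => tau_neg (pc d) x))).symm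
    rw [h4]
    exact cpow_ne_top hC (by norm_num) 0
  have h5 : Tendsto (fun R : ℕ => ∑' x : V d, if x ∉ bx R (0 : V d) then
      tau (pc d) x * conv (tau (pc d)) (tau (pc d)) x else 0) atTop (𝓝 0) := by
    refine tsum0 h3 ?_ ?_
    · intro R x
      split_ifs
      · exact zero_le
      · exact le_rfl
    · intro x
      refine tendsto_const_nhds.congr' ?_
      filter_upwards [mem_bx_large x] with R hR
      rw [if_neg (not_not.2 hR)]
  have h6 := ENNReal.Tendsto.const_mul h5 (Or.inr hJ)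
  rw [mul_zero] at h6
  obtain ⟨R, hR⟩ := (h6.eventually_lt_const (ENNReal.half_pos hε.ne')).exists
  have h7 : ∀ R' : ℕ, (∑' u : V d, ∑' w : V d, (if u ∈ bx R (0 : V d) then
      J (pc d) (w - u) * (Rcal R' u + TR R' (fun z => tau (pc d) (z - w))) else 0))
      = ∑ u ∈ (bx_fin R (0 : V d)).toFinset, ENNReal.ofReal (pc d) * ∑ e ∈ U1 d,
        (Rcal R' u + TR R' (fun z => tau (pc d) (z - (u + e)))) := by
    intro R'
    rw [tsum_eq_sum (s := (bx_fin R (0 : V d)).toFinset)]
    · refine Finset.sum_congr rfl fun u hu => ?_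
      rw [Set.Finite.mem_toFinset] at hu
      simp only [if_pos hu]
      exact sum_over_nbrs (pc d) u (fun w => Rcal R' u + TR R' (fun z => tau (pc d) (z - w)))
    · intro u hu
      rw [Set.Finite.mem_toFinset] at hu
      simp only [if_neg hu, tsum_zero]
  have h8 : Tendsto (fun R' : ℕ => ∑ u ∈ (bx_fin R (0 : V d)).toFinset,
      ENNReal.ofReal (pc d) * ∑ e ∈ U1 d,
        (Rcal R' u + TR R' (fun z => tau (pc d) (z - (u + e))))) atTop (𝓝 0) := by
    have h9 : (0 : ℝ≥0∞) = ∑ u ∈ (bx_fin R (0 : V d)).toFinset, 0 := by simp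
    rw [h9]
    refine tendsto_finsetSum _ fun u _ => ?_
    have h10 : (0 : ℝ≥0∞) = ENNReal.ofReal (pc d) * ∑ e ∈ U1 d, (0 + 0) := by simp
    rw [h10]
    refine ENNReal.Tendsto.const_mul ?_ (Or.inr ENNReal.ofReal_ne_top)
    refine tendsto_finsetSum _ fun e _ => ?_
    exact (Rcal_lim hC u).add (TR_lim hC (tau_fin hC (u + e)))
  obtain ⟨R', hR'⟩ := (h8.eventually_lt_const (ENNReal.half_pos hε.ne')).exists
  refine ⟨R, R', ?_⟩
  unfold err
  rw [h7 R', ← ENNReal.add_halves ε]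
  exact add_le_add hR.le hR'.le

end Pool.Agent.PB.S7
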