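import Pool.Agent.PB.S7.Q72
import Pool.Agent.PB.S7.SqErr
import Pool.Agent.PB.S7.Tails
import Pool.Agent.PB.S7.LocH
import Pool.Agent.PB.Mix.FunW

/-!
PB / S7 / Q73 (assembly): `q_h(A,v)/M(h)` converges.
-/

set_option autoImplicit false
open MeasureTheory Filter Topology
open scoped ENNReal BigOperators

namespace Pool.Agent.PB.S7

open Pool.Agent.PB

variable {d : ℕ}

theorem lim_of_approx {l : Filter ℝ} [l.NeBot] {x : ℝ → ℝ}
    (H : ∀ ε : ℝ, 0 < ε → ∃ (y : ℝ → ℝ) (κ : ℝ), Tendsto y l (𝓝 κ) ∧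
      ∀ᶠ h in l, |x h - y h| ≤ ε) : ∃ q, Tendsto x l (𝓝 q) := by
  have hc : Cauchy (map x l) := by
    rw [Metric.cauchy_iff]
    refine ⟨inferInstance, fun ε hε => ?_⟩
    obtain ⟨y, κ, hy, hxy⟩ := H (ε / 8) (by positivity)
    refine ⟨{z | |z - κ| < ε / 2}, ?_, ?_⟩
    · rw [mem_map]
      have h1 : ∀ᶠ h in l, |y h - κ| < ε / 8 := by
        have := (Metric.tendsto_nhds.1 hy) (ε / 8) (by positivity)
        simpa [Real.dist_eq] using this
      filter_upwards [h1, hxy] with h h2 h3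
      change |x h - κ| < ε / 2
      have : |x h - κ| ≤ |x h - y h| + |y h - κ| := by
        have := abs_add_le (x h - y h) (y h - κ)
        rwa [show x h - y h + (y h - κ) = x h - κ by ring] at this
      linarith
    · intro a ha b hb
      have ha' : |a - κ| < ε / 2 := ha
      have hb' : |b - κ| < ε / 2 := hb
      rw [Real.dist_eq]
      have : |a - b| ≤ |a - κ| + |b - κ| := by
        have := abs_sub (a - κ) (b - κ)
        rwa [show a - κ - (b - κ) = a - b by ring] at this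
      linarith
  exact cauchy_map_iff_exists_tendsto.1 hc

theorem measurable_Er (A : Finset (V d)) (v : V d) (R R' : ℕ) :
    Measurable (fun ω : Om d => Er R R' (OA A ω) v) := by
  classical
  unfold Er
  refine Measurable.ennreal_tsum fun u => Measurable.ennreal_tsum fun w => ?_
  refine Measurable.const_mul (((?_ : Measurable _).add ?_).add ?_) _
  · refine Measurable.ite ?_ measurable_const measurable_const
    exact (MeasurableSet.const _).inter ((OA_MES A).dconn v u)
  · refine Measurable.ite ?_ measurable_const measurable_const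
    exact (MeasurableSet.const _).inter (((OA_MES A).dconn v u).inter
      (((OA_MES A).inter (MES.const _)).dconn v u).compl)
  · refine Measurable.ite (MeasurableSet.const _) ?_ measurable_const
    refine Measurable.ennreal_tsum fun z => Measurable.ite ?_ measurable_const measurable_const
    exact ((OA_MES A).cl v z).inter ((((OA_MES A).inter (MES.const _)).cl v z)).compl

theorem measurable_exC (A : Finset (V d)) (v : V d) (h : ℝ) :
    Measurable (fun ω : Om d => 1 - ex h (Cl (OA A ω) v)) :=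
  measurable_const.sub (measurable_ex ((OA_MES A).cl v))

/-- comparison of the integral with its local version -/
theorem qh_loc (hC : Crit d) (h5 : Out5 d) (h6 : Out6 d) {h : ℝ} (hh : 0 < h)
    (A : Finset (V d)) {v : V d} (hv : v ∉ A) (R R' : ℕ) :
    qh h A v ≤ ENNReal.ofReal (EWH (HL A v R R') W1 h (Del.ofSet (A : Set (V d))) v) +
        ENNReal.ofReal (1 / (1 - pc d)) * err d R R' * Mg d (pc d) h ∧
      ENNReal.ofReal (EWH (HL A v R R') W1 h (Del.ofSet (A : Set (V d))) v) ≤ qh h A v +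
        ENNReal.ofReal (1 / (1 - pc d)) * err d R R' * Mg d (pc d) h := by
  have hae : ∀ᵐ ω ∂(Pr d), (Cl (OA A ω) v).Finite := by
    rw [ae_iff]
    exact OA_fin h5 A v
  have hmE : Measurable (fun ω : Om d => (1 - ex h (Cl (OA A ω) v)) * Er R R' (OA A ω) v) :=
    (measurable_exC A v h).mul (measurable_Er A v R R')
  have hE := Er_int_le A v hh R R'
  rw [EWH_HL hC h5 h6 A hv R R' hh, qh_int h5 A v h]
  constructor
  · rw [mul_assoc, ← mul_add]
    refine mul_le_mul' le_rfl ?_
    calc ∫⁻ ω, (1 - ex h (Cl (OA A ω) v)) * Sq (A : Set (V d)) (OA A ω) v ∂Pr d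
        ≤ ∫⁻ ω, ((1 - ex h (Cl (OA A ω) v)) * SqL (A : Set (V d)) R R' (OA A ω) v +
          (1 - ex h (Cl (OA A ω) v)) * Er R R' (OA A ω) v) ∂Pr d := by
          refine lintegral_mono_ae ?_
          filter_upwards [hae] with ω hω
          rw [← mul_add]
          exact mul_le_mul' le_rfl (Sq_le_add h6 A hω R R')
      _ = ∫⁻ ω, (1 - ex h (Cl (OA A ω) v)) * SqL (A : Set (V d)) R R' (OA A ω) v ∂Pr d +
          ∫⁻ ω, (1 - ex h (Cl (OA A ω) v)) * Er R R' (OA A ω) v ∂Pr d :=
          lintegral_add_right _ hmE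
      _ ≤ _ := add_le_add le_rfl hE
  · rw [mul_assoc, ← mul_add]
    refine mul_le_mul' le_rfl ?_
    calc ∫⁻ ω, (1 - ex h (Cl (OA A ω) v)) * SqL (A : Set (V d)) R R' (OA A ω) v ∂Pr d
        ≤ ∫⁻ ω, ((1 - ex h (Cl (OA A ω) v)) * Sq (A : Set (V d)) (OA A ω) v +
          (1 - ex h (Cl (OA A ω) v)) * Er R R' (OA A ω) v) ∂Pr d := by
          refine lintegral_mono_ae ?_
          filter_upwards [hae] with ω hω
          rw [← mul_add]
          exact mul_le_mul' le_rfl (SqL_le_add h6 A hω R R')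
      _ = ∫⁻ ω, (1 - ex h (Cl (OA A ω) v)) * Sq (A : Set (V d)) (OA A ω) v ∂Pr d +
          ∫⁻ ω, (1 - ex h (Cl (OA A ω) v)) * Er R R' (OA A ω) v ∂Pr d :=
          lintegral_add_right _ hmE
      _ ≤ _ := add_le_add le_rfl hE

theorem Mr_pos {h : ℝ} (hh : 0 < h) : 0 < Mr d (pc d) h :=
  ENNReal.toReal_pos (Mg_ne_zero hh) (Mg_ne_top h)

theorem EWH_lim (h5 : Out5 d) (h6 : Out6 d) (A : Finset (V d)) {v : V d}
    (hv : v ∉ A) (R R' : ℕ) :
    Tendsto (fun h : ℝ => EWH (HL A v R R') W1 h (Del.ofSet (A : Set (V d))) v /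
      Mr d (pc d) h) (𝓝[>] 0) (𝓝 (cloc (HL A v R R') (Del.ofSet (A : Set (V d))) v)) := by
  obtain ⟨B, hB⟩ := HL_local A v R R'
  obtain ⟨c, hc⟩ := isLSF_W1 (d := d)
  obtain ⟨C, hC1, hC⟩ := bds h5
  have hfin : (Del.ofSet (A : Set (V d))).Finite := ⟨A.finite_toSet, Set.finite_empty⟩
  have hvA : v ∉ (Del.ofSet (A : Set (V d))).S := by
    intro hx
    exact hv (by simpa [Del.ofSet] using hx)
  have h1 := h6.loc B _ hB W1 c hc (Del.ofSet (A : Set (V d))) v hfin hvA
  have h2 : Tendsto (fun h : ℝ => C * |(EWH (HL A v R R') W1 h (Del.ofSet (A : Set (V d))) v -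
      cloc (HL A v R R') (Del.ofSet (A : Set (V d))) v * EW W1 h (D0 : Del (V d)) 0) /
        Real.sqrt h|) (𝓝[>] 0) (𝓝 0) := by
    have := (h1.abs).const_mul C
    simpa using this
  rw [tendsto_iff_norm_sub_tendsto_zero]
  refine squeeze_zero' (Eventually.of_forall fun h => norm_nonneg _) ?_ h2
  filter_upwards [Ioc_mem_nhdsGT (show (0 : ℝ) < 1 by norm_num)] with h hh
  have hM : 0 < Mr d (pc d) h := Mr_pos hh.1
  have hs : 0 < Real.sqrt h := Real.sqrt_pos.2 hh.1
  have h3 := (hC h hh.1 hh.2).1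
  rw [EW_D0 h5 hh.1, Real.norm_eq_abs, abs_div, abs_of_pos hs]
  have e1 : EWH (HL A v R R') W1 h (Del.ofSet (A : Set (V d))) v / Mr d (pc d) h -
      cloc (HL A v R R') (Del.ofSet (A : Set (V d))) v =
      (EWH (HL A v R R') W1 h (Del.ofSet (A : Set (V d))) v -
      cloc (HL A v R R') (Del.ofSet (A : Set (V d))) v * Mr d (pc d) h) / Mr d (pc d) h := by
    field_simp
  rw [e1, abs_div, abs_of_pos hM, ← mul_div_assoc, div_le_div_iff₀ hM hs]
  have h4 : 0 ≤ |EWH (HL A v R R') W1 h (Del.ofSet (A : Set (V d))) v -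
      cloc (HL A v R R') (Del.ofSet (A : Set (V d))) v * Mr d (pc d) h| := abs_nonneg _
  calc _ ≤ |EWH (HL A v R R') W1 h (Del.ofSet (A : Set (V d))) v -
      cloc (HL A v R R') (Del.ofSet (A : Set (V d))) v * Mr d (pc d) h| *
        (C * Mr d (pc d) h) := mul_le_mul_of_nonneg_left h3 h4
    _ = _ := by ring

theorem q_exists (hC : Crit d) (h5 : Out5 d) (h6 : Out6 d) (A : Finset (V d)) {v : V d}
    (hv : v ∉ A) : ∃ q : ℝ, 0 ≤ q ∧ q ≤ 1 ∧
      Tendsto (fun h : ℝ => (qh h A v).toReal / Mr d (pc d) h) (𝓝[>] 0) (𝓝 q) := by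
  have hp : 0 < 1 - pc d := by linarith [hC.pc_lt]
  obtain ⟨q, hq⟩ : ∃ q : ℝ, Tendsto (fun h : ℝ => (qh h A v).toReal / Mr d (pc d) h)
      (𝓝[>] 0) (𝓝 q) := by
    refine lim_of_approx fun ε hε => ?_
    obtain ⟨R, R', hR⟩ := err_small hC (ε := ENNReal.ofReal (ε * (1 - pc d)))
      (ENNReal.ofReal_pos.2 (mul_pos hε hp))
    refine ⟨_, _, EWH_lim h5 h6 A hv R R', ?_⟩
    filter_upwards [self_mem_nhdsWithin] with h hh
    have hh' : (0 : ℝ) < h := hh
    have hM : 0 < Mr d (pc d) h := Mr_pos hh'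
    obtain ⟨h1, h2⟩ := qh_loc hC h5 h6 hh' A hv R R'
    have h3 : ENNReal.ofReal (1 / (1 - pc d)) * err d R R' * Mg d (pc d) h ≤
        ENNReal.ofReal (ε * Mr d (pc d) h) := by
      rw [ENNReal.ofReal_mul hε.le, ofReal_Mr]
      refine mul_le_mul' ?_ le_rfl
      calc ENNReal.ofReal (1 / (1 - pc d)) * err d R R' ≤
          ENNReal.ofReal (1 / (1 - pc d)) * ENNReal.ofReal (ε * (1 - pc d)) :=
            mul_le_mul' le_rfl hR
        _ = ENNReal.ofReal ε := by
            rw [← ENNReal.ofReal_mul (by positivity)]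
            congr 1
            field_simp
    have hX : qh h A v ≠ ⊤ := ne_top_of_le_ne_top (Mg_ne_top h) (qh_le hC h5 h6 hh' A hv)
    have hE := EWH_HL_nonneg hC h6 A v R R' hh'
    have h1' : (qh h A v).toReal ≤
        EWH (HL A v R R') W1 h (Del.ofSet (A : Set (V d))) v + ε * Mr d (pc d) h := by
      have h4 := h1.trans (add_le_add le_rfl h3)
      rw [← ENNReal.ofReal_add hE (by positivity)] at h4
      exact ENNReal.toReal_le_of_le_ofReal (by positivity) h4
    have h2' : EWH (HL A v R R') W1 h (Del.ofSet (A : Set (V d))) v ≤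
        (qh h A v).toReal + ε * Mr d (pc d) h := by
      have h4 := h2.trans (add_le_add le_rfl h3)
      rw [← ENNReal.ofReal_toReal hX, ← ENNReal.ofReal_add ENNReal.toReal_nonneg
        (by positivity)] at h4
      exact (ENNReal.ofReal_le_ofReal_iff (by positivity)).1 h4
    rw [← sub_div, abs_div, abs_of_pos hM, div_le_iff₀ hM, abs_le]
    constructor <;> linarith
  refine ⟨q, ?_, ?_, hq⟩
  · refine ge_of_tendsto hq ?_
    filter_upwards [self_mem_nhdsWithin] with h hh
    have hM : 0 < Mr d (pc d) h := Mr_pos hh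
    positivity
  · refine le_of_tendsto hq ?_
    filter_upwards [self_mem_nhdsWithin] with h hh
    have hM : 0 < Mr d (pc d) h := Mr_pos hh
    rw [div_le_one hM]
    exact ENNReal.toReal_mono (Mg_ne_top h) (qh_le hC h5 h6 hh A hv)

end Pool.Agent.PB.S7
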