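import Pool.Agent.PB.S7.Mix4
import Pool.Agent.PB.S7.Q73

/-!
PB / S7 / Fin4: `E[N e^{-hN} g_h(L_R(0))] / (M M')` converges.

Plan. `Lb R (Oc ω) 0` is always one of the finitely many finsets `L ⊆ (bx R 0).toFinset` (`bx_finite`).  So
`E4 h (gqS h (Lb R ..)) = ∑_{L ∈ powerset} gq h L * E4 h (1{Lb R = L})` (`lintegral_finset_sum`, measurability of `{Lb R (Oc ω) 0 = L}`: `MES.inter` with a constant set,
`MES.cl`, `MVS.eq_set`).  `(gq h L).toReal / Mr h → p Σ_{e ∈ U1, e ∉ L} q(L,e)` (`q_exists`, finite sum, `qh ≠ ⊤` by `qh_le`), and `(E4 h 1{..}).toReal / Mp h → ν_L` (`mix4`).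
`toReal` of a finite sum of finite terms; limit of a finite sum of products.
-/

set_option autoImplicit false
open MeasureTheory Filter Topology
open scoped ENNReal BigOperators

namespace Pool.Agent.PB.S7

open Pool.Agent.PB

variable {d : ℕ}

private theorem fin4_Lb_sub (R : ℕ) (O : Set (Sym2 (V d))) (x : V d) : Lb R O x ⊆ bx R x := by
  intro w hw
  refine Rch.mem_of_closed (bx R x) (fun i => by simp) ?_ hw
  intro a _ b hab
  exact hab.2 b (Sym2.mem_mk_right a b)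

private theorem fin4_meas_Nc : Measurable (fun ω : Om d => (Nc (Oc ω) (0 : V d) : ℝ≥0∞)) := by
  have h1 : (fun ω : Om d => (Nc (Oc ω) (0 : V d) : ℝ≥0∞)) =
      (fun n : ℕ∞ => ((n.toNat : ℕ) : ℝ≥0∞)) ∘ fun ω => (Cl (Oc ω) (0 : V d)).encard := rfl
  rw [h1]
  exact (measurable_of_countable _).comp (((opn_MES (pc d)).cl 0).encard)

private noncomputable def ind4 (R : ℕ) (L : Finset (V d)) (ω : Om d) : ℝ≥0∞ :=
  Set.indicator {ω : Om d | Lb R (Oc ω) (0 : V d) = (L : Set (V d))} (fun _ => 1) ω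

private theorem fin4_meas_ind (R : ℕ) (L : Finset (V d)) : Measurable (ind4 (d := d) R L) := by
  have h1 : MVS (fun ω : Om d => Lb R (Oc ω) (0 : V d)) :=
    ((opn_MES (pc d)).inter (MES.const (ins (bx R (0 : V d))))).cl 0
  exact Measurable.indicator measurable_const (h1.eq_set (L : Set (V d)))

private theorem fin4_gqS (h : ℝ) (R : ℕ) (ω : Om d) :
    gqS h (Lb R (Oc ω) (0 : V d)) =
      ∑ L ∈ (bx_finite R (0 : V d)).toFinset.powerset, gq h L * ind4 R L ω := by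
  classical
  have hf : (Lb R (Oc ω) (0 : V d)).Finite := (bx_finite R 0).subset (fin4_Lb_sub R _ _)
  have hm : hf.toFinset ∈ (bx_finite R (0 : V d)).toFinset.powerset := by
    rw [Finset.mem_powerset]
    intro x hx
    rw [Set.Finite.mem_toFinset] at hx ⊢
    exact fin4_Lb_sub _ _ _ hx
  rw [Finset.sum_eq_single hf.toFinset]
  · unfold gqS ind4
    rw [dif_pos hf, Set.indicator_of_mem, mul_one]
    show Lb R (Oc ω) (0 : V d) = (hf.toFinset : Set (V d))
    rw [Set.Finite.coe_toFinset]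
  · intro L _ hne
    unfold ind4
    rw [Set.indicator_of_notMem, mul_zero]
    intro (h : Lb R (Oc ω) (0 : V d) = (L : Set (V d)))
    apply hne
    ext x
    rw [Set.Finite.mem_toFinset, h, Finset.mem_coe]
  · intro h
    exact absurd hm h

private theorem fin4_meas_term (h : ℝ) (R : ℕ) (L : Finset (V d)) :
    Measurable (fun ω : Om d => (Nc (Oc ω) (0 : V d) : ℝ≥0∞) * ex h (Cl (Oc ω) (0 : V d)) *
      ind4 R L ω) :=
  (fin4_meas_Nc.mul (measurable_ex ((opn_MES (pc d)).cl 0))).mul (fin4_meas_ind R L)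

private theorem fin4_E4 (h : ℝ) (R : ℕ) :
    E4 h (fun ω : Om d => gqS h (Lb R (Oc ω) (0 : V d))) =
      ∑ L ∈ (bx_finite R (0 : V d)).toFinset.powerset, gq h L * E4 h (ind4 R L) := by
  unfold E4
  have h1 : ∀ ω : Om d, (Nc (Oc ω) (0 : V d) : ℝ≥0∞) * ex h (Cl (Oc ω) (0 : V d)) *
      gqS h (Lb R (Oc ω) (0 : V d)) =
      ∑ L ∈ (bx_finite R (0 : V d)).toFinset.powerset, gq h L *
        ((Nc (Oc ω) (0 : V d) : ℝ≥0∞) * ex h (Cl (Oc ω) (0 : V d)) * ind4 R L ω) := by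
    intro ω
    rw [fin4_gqS, Finset.mul_sum]
    refine Finset.sum_congr rfl fun L _ => ?_
    ring
  simp only [h1]
  rw [lintegral_finsetSum _ (fun L _ => (fin4_meas_term h R L).const_mul _)]
  refine Finset.sum_congr rfl fun L _ => ?_
  rw [lintegral_const_mul _ (fin4_meas_term h R L)]

private theorem fin4_E4_ne (h5 : Out5 d) {h : ℝ} (hh : 0 < h) (R : ℕ) (L : Finset (V d)) :
    E4 h (ind4 R L) ≠ ⊤ := by
  have h1 : E4 h (ind4 (d := d) R L) ≤ E4 h (fun _ : Om d => 1) := by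
    unfold E4
    refine lintegral_mono fun ω => ?_
    refine mul_le_mul_right ?_ _
    unfold ind4
    exact Set.indicator_le_self' (fun _ _ => zero_le) ω
  rw [E4_one h5 hh] at h1
  exact ne_top_of_le_ne_top ENNReal.ofReal_ne_top h1

private theorem fin4_qh_ne (hC : Crit d) (h5 : Out5 d) (h6 : Out6 d) {h : ℝ} (hh : 0 < h)
    (L : Finset (V d)) {e : V d} (he : e ∉ L) : qh h L e ≠ ⊤ :=
  ne_top_of_le_ne_top (Mg_ne_top h) (qh_le hC h5 h6 hh L he)

private theorem fin4_gq_term_ne (hC : Crit d) (h5 : Out5 d) (h6 : Out6 d) {h : ℝ} (hh : 0 < h)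
    (L : Finset (V d)) (e : V d) : (if e ∈ L then 0 else qh h L e) ≠ ⊤ := by
  split_ifs with he
  · exact ENNReal.zero_ne_top
  · exact fin4_qh_ne hC h5 h6 hh L he

private theorem fin4_gq_ne (hC : Crit d) (h5 : Out5 d) (h6 : Out6 d) {h : ℝ} (hh : 0 < h)
    (L : Finset (V d)) : gq h L ≠ ⊤ := by
  classical
  unfold gq
  refine ENNReal.mul_ne_top ENNReal.ofReal_ne_top ?_
  rw [ENNReal.sum_ne_top]
  intro e _
  have := fin4_gq_term_ne hC h5 h6 hh L e
  convert this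

private theorem fin4_gq_lim (hC : Crit d) (h5 : Out5 d) (h6 : Out6 d) (L : Finset (V d)) :
    ∃ G : ℝ, 0 ≤ G ∧ Tendsto (fun h : ℝ => (gq h L).toReal / Mr d (pc d) h) (𝓝[>] 0) (𝓝 G) := by
  classical
  have hex : ∀ e : V d, ∃ q : ℝ, 0 ≤ q ∧
      Tendsto (fun h : ℝ => (if e ∈ L then (0 : ℝ≥0∞) else qh h L e).toReal / Mr d (pc d) h)
        (𝓝[>] 0) (𝓝 q) := by
    intro e
    by_cases he : e ∈ L
    · refine ⟨0, le_refl _, ?_⟩
      simp only [if_pos he, ENNReal.toReal_zero, zero_div]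
      exact tendsto_const_nhds
    · obtain ⟨q, hq0, _, hq⟩ := q_exists hC h5 h6 L he
      refine ⟨q, hq0, ?_⟩
      simp only [if_neg he]
      exact hq
  choose q hq0 hq using hex
  refine ⟨pc d * ∑ e ∈ U1 d, q e, mul_nonneg hC.pc_pos.le (Finset.sum_nonneg fun e _ => hq0 e), ?_⟩
  have h1 : Tendsto (fun h : ℝ => pc d * ∑ e ∈ U1 d,
      (if e ∈ L then (0 : ℝ≥0∞) else qh h L e).toReal / Mr d (pc d) h) (𝓝[>] 0)
      (𝓝 (pc d * ∑ e ∈ U1 d, q e)) :=
    (tendsto_finsetSum _ fun e _ => hq e).const_mul _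
  refine h1.congr' ?_
  filter_upwards [self_mem_nhdsWithin] with h hh
  have hh' : (0 : ℝ) < h := hh
  unfold gq
  rw [ENNReal.toReal_mul, ENNReal.toReal_ofReal hC.pc_pos.le, ENNReal.toReal_sum, mul_div_assoc,
    Finset.sum_div]
  intro e _
  have := fin4_gq_term_ne hC h5 h6 hh' L e
  convert this

theorem fin4 (hC : Crit d) (h5 : Out5 d) (h6 : Out6 d) (R : ℕ) :
    ∃ G : ℝ, 0 ≤ G ∧ Tendsto (fun h : ℝ =>
      (E4 h (fun ω : Om d => gqS h (Lb R (Oc ω) (0 : V d)))).toReal /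
        (Mr d (pc d) h * Mp d (pc d) h)) (𝓝[>] 0) (𝓝 G) := by
  classical
  choose G hG0 hG using fin4_gq_lim (d := d) hC h5 h6
  choose ν hν0 hν using mix4 (d := d) hC h5 h6 R
  refine ⟨∑ L ∈ (bx_finite R (0 : V d)).toFinset.powerset, G L * ν L,
    Finset.sum_nonneg fun L _ => mul_nonneg (hG0 L) (hν0 L), ?_⟩
  have h1 : Tendsto (fun h : ℝ => ∑ L ∈ (bx_finite R (0 : V d)).toFinset.powerset,
      ((gq h L).toReal / Mr d (pc d) h) * ((E4 h (ind4 R L)).toReal / Mp d (pc d) h)) (𝓝[>] 0)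
      (𝓝 (∑ L ∈ (bx_finite R (0 : V d)).toFinset.powerset, G L * ν L)) :=
    tendsto_finsetSum _ fun L _ => (hG L).mul (hν L)
  refine h1.congr' ?_
  filter_upwards [self_mem_nhdsWithin] with h hh
  have hh' : (0 : ℝ) < h := hh
  rw [fin4_E4, ENNReal.toReal_sum, Finset.sum_div]
  · refine Finset.sum_congr rfl fun L _ => ?_
    rw [ENNReal.toReal_mul, div_mul_div_comm]
  · intro L _
    exact ENNReal.mul_ne_top (fin4_gq_ne hC h5 h6 hh' L) (fin4_E4_ne h5 hh' R L)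

end Pool.Agent.PB.S7
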