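import Mathlib

/-!
PB / S7 / Int4: integration of `M M' → F*` (7.4).

Plan. `M²` has derivative `2 M M'` on `(0,∞)`, is continuous there and tends to `0` at `0+`.  Given `η`, let `|M M' - F*| ≤ η` on `(0,h0)`; for `0 < ε < h < h0` the mean value theorem
gives `|M(h)² - M(ε)² - 2 F* (h - ε)| ≤ 2 η (h - ε)` (e.g. apply monotonicity to `M² - 2(F* ± η) h`); let `ε → 0`: `|M(h)²/h - 2F*| ≤ 2η`.
So `M²/h → 2F*` and `M/√h = √(M²/h) → √(2F*)` (`M ≥ 0`).
-/

set_option autoImplicit false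
open Filter Topology

namespace Pool.Agent.PB.S7

private theorem int4_aux {M M' : ℝ → ℝ} (hd : ∀ h : ℝ, 0 < h → HasDerivAt M (M' h) h)
    (h0 : Tendsto M (𝓝[>] 0) (𝓝 0)) {c h1 : ℝ}
    (hle : ∀ h : ℝ, 0 < h → h < h1 → M h * M' h ≤ c) :
    ∀ h : ℝ, 0 < h → h < h1 → M h ^ 2 ≤ 2 * c * h := by
  intro h hh hh1
  have hder : ∀ x : ℝ, 0 < x → HasDerivAt (fun x => M x ^ 2 - 2 * c * x)
      (2 * (M x * M' x) - 2 * c) x := by
    intro x hx
    have h2 := ((hd x hx).pow 2).sub ((hasDerivAt_id x).const_mul (2 * c))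
    refine HasDerivAt.congr_deriv (f := fun x => M x ^ 2 - 2 * c * x) h2 ?_
    simp only [Nat.cast_ofNat, Nat.add_one_sub_one, pow_one, mul_one]
    ring
  have hanti : AntitoneOn (fun x => M x ^ 2 - 2 * c * x) (Set.Ioo 0 h1) := by
    refine antitoneOn_of_deriv_nonpos (convex_Ioo _ _) ?_ ?_ ?_
    · exact fun x hx => (hder x hx.1).continuousAt.continuousWithinAt
    · intro x hx
      rw [interior_Ioo] at hx
      exact (hder x hx.1).differentiableAt.differentiableWithinAt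
    · intro x hx
      rw [interior_Ioo] at hx
      rw [(hder x hx.1).deriv]
      linarith [hle x hx.1 hx.2]
  have hlim : Tendsto (fun x => M x ^ 2 - 2 * c * x) (𝓝[>] 0) (𝓝 0) := by
    have h3 : Tendsto (fun x : ℝ => 2 * c * x) (𝓝[>] 0) (𝓝 0) := by
      have : Tendsto (fun x : ℝ => 2 * c * x) (𝓝 0) (𝓝 (2 * c * 0)) :=
        (continuous_const.mul continuous_id).tendsto 0
      rw [mul_zero] at this
      exact this.mono_left nhdsWithin_le_nhds
    have h4 := (h0.pow 2).sub h3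
    simpa using h4
  have hev : ∀ᶠ x in 𝓝[>] (0 : ℝ), M h ^ 2 - 2 * c * h ≤ M x ^ 2 - 2 * c * x := by
    filter_upwards [Ioo_mem_nhdsGT hh] with x hx
    exact hanti ⟨hx.1, hx.2.trans hh1⟩ ⟨hh, hh1⟩ hx.2.le
  have := ge_of_tendsto hlim hev
  linarith

private theorem int4_aux' {M M' : ℝ → ℝ} (hd : ∀ h : ℝ, 0 < h → HasDerivAt M (M' h) h)
    (h0 : Tendsto M (𝓝[>] 0) (𝓝 0)) {c h1 : ℝ}
    (hle : ∀ h : ℝ, 0 < h → h < h1 → c ≤ M h * M' h) :
    ∀ h : ℝ, 0 < h → h < h1 → 2 * c * h ≤ M h ^ 2 := by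
  intro h hh hh1
  have hder : ∀ x : ℝ, 0 < x → HasDerivAt (fun x => M x ^ 2 - 2 * c * x)
      (2 * (M x * M' x) - 2 * c) x := by
    intro x hx
    have h2 := ((hd x hx).pow 2).sub ((hasDerivAt_id x).const_mul (2 * c))
    refine HasDerivAt.congr_deriv (f := fun x => M x ^ 2 - 2 * c * x) h2 ?_
    simp only [Nat.cast_ofNat, Nat.add_one_sub_one, pow_one, mul_one]
    ring
  have hmono : MonotoneOn (fun x => M x ^ 2 - 2 * c * x) (Set.Ioo 0 h1) := by
    refine monotoneOn_of_deriv_nonneg (convex_Ioo _ _) ?_ ?_ ?_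
    · exact fun x hx => (hder x hx.1).continuousAt.continuousWithinAt
    · intro x hx
      rw [interior_Ioo] at hx
      exact (hder x hx.1).differentiableAt.differentiableWithinAt
    · intro x hx
      rw [interior_Ioo] at hx
      rw [(hder x hx.1).deriv]
      linarith [hle x hx.1 hx.2]
  have hlim : Tendsto (fun x => M x ^ 2 - 2 * c * x) (𝓝[>] 0) (𝓝 0) := by
    have h3 : Tendsto (fun x : ℝ => 2 * c * x) (𝓝[>] 0) (𝓝 0) := by
      have : Tendsto (fun x : ℝ => 2 * c * x) (𝓝 0) (𝓝 (2 * c * 0)) :=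
        (continuous_const.mul continuous_id).tendsto 0
      rw [mul_zero] at this
      exact this.mono_left nhdsWithin_le_nhds
    have h4 := (h0.pow 2).sub h3
    simpa using h4
  have hev : ∀ᶠ x in 𝓝[>] (0 : ℝ), M x ^ 2 - 2 * c * x ≤ M h ^ 2 - 2 * c * h := by
    filter_upwards [Ioo_mem_nhdsGT hh] with x hx
    exact hmono ⟨hx.1, hx.2.trans hh1⟩ ⟨hh, hh1⟩ hx.2.le
  have := le_of_tendsto hlim hev
  linarith

theorem int4 {M M' : ℝ → ℝ} (hd : ∀ h : ℝ, 0 < h → HasDerivAt M (M' h) h)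
    (h0 : Tendsto M (𝓝[>] 0) (𝓝 0)) {Fs : ℝ}
    (hF : Tendsto (fun h => M h * M' h) (𝓝[>] 0) (𝓝 Fs)) (hM : ∀ h : ℝ, 0 < h → 0 ≤ M h) :
    Tendsto (fun h => M h / Real.sqrt h) (𝓝[>] 0) (𝓝 (Real.sqrt (2 * Fs))) := by
  have key : Tendsto (fun h => M h ^ 2 / h) (𝓝[>] 0) (𝓝 (2 * Fs)) := by
    rw [Metric.tendsto_nhds]
    intro ε hε
    have h2 := (Metric.tendsto_nhds.1 hF) (ε / 4) (by linarith)
    obtain ⟨h1, h1pos, hsub⟩ := (mem_nhdsGT_iff_exists_Ioo_subset (a := (0 : ℝ))).1 h2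
    have h1pos' : (0 : ℝ) < h1 := h1pos
    have hb : ∀ h : ℝ, 0 < h → h < h1 → |M h * M' h - Fs| < ε / 4 := by
      intro h hh hh1
      have := hsub ⟨hh, hh1⟩
      simpa [Real.dist_eq] using this
    have hup := int4_aux hd h0 (c := Fs + ε / 4) (h1 := h1) (fun h hh hh1 => by
      have := (abs_lt.1 (hb h hh hh1)).2; linarith)
    have hlo := int4_aux' hd h0 (c := Fs - ε / 4) (h1 := h1) (fun h hh hh1 => by
      have := (abs_lt.1 (hb h hh hh1)).1; linarith)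
    filter_upwards [Ioo_mem_nhdsGT h1pos'] with h hh
    have hpos := hh.1
    have e1 := hup h hh.1 hh.2
    have e2 := hlo h hh.1 hh.2
    rw [Real.dist_eq]
    have e3 : M h ^ 2 / h ≤ 2 * (Fs + ε / 4) := by rw [div_le_iff₀ hpos]; exact e1
    have e4 : 2 * (Fs - ε / 4) ≤ M h ^ 2 / h := by rw [le_div_iff₀ hpos]; exact e2
    rw [abs_lt]
    constructor <;> linarith
  have h3 := (Real.continuous_sqrt.tendsto (2 * Fs)).comp key
  refine h3.congr' ?_
  filter_upwards [self_mem_nhdsWithin] with h hh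
  have hpos : (0 : ℝ) < h := hh
  simp only [Function.comp]
  rw [Real.sqrt_div' _ hpos.le, Real.sqrt_sq (hM h hpos)]

end Pool.Agent.PB.S7
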