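import Pool.Agent.PB.S7.Q72
import Pool.Agent.PB.S5.ReRoot
import Pool.Agent.PB.S5.Units

/-!
PB / S7 / Re4: re-rooting in 7.4.

Plan. `S5.bdw_eq`: `bdw p K F = ofReal p * ∑ u ∈ K, ∑ e ∈ U1, if u + e ∈ K then 0 else F (u+e)`.  With `F v = qh h K v`, `K_u = K.image (x - u)`:
`qh h K (u+e) = qh h K_u e` for `u + e ∉ K` (`qh_shift`: `K = K_u.image (x + u)`), and `u + e ∈ K ↔ e ∈ K_u`; so `bdw p K (qh h K .) = ∑ u ∈ K, gq h K_u`.
`S5.reRoot p (w := fun n => S5.ex h n) (F := gq h)`: `EK (w |K| ∑_{u ∈ K} F (K_u)) = EK (w |K| (|K| F K))`.  (`ex h (K : Set) = S5.ex h K.card`: `ex_finset`.)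
Finally `EK p (fun K => ex h K * (|K| * gq h K)) = E4 h (fun ω => gqS h (Cl (Oc ω) 0))`: `lintegral_split_fin` (`h5.theta_pc`), on `{Cl (Oc ω) 0 = K}`:
`Nc = K.card`, `gqS h K = gq h K`.
-/

set_option autoImplicit false
open MeasureTheory Filter Topology
open scoped ENNReal BigOperators

namespace Pool.Agent.PB.S7

open Pool.Agent.PB

variable {d : ℕ}

private theorem re4_bdw (hC : Crit d) (h5 : Out5 d) (h6 : Out6 d) {h : ℝ} (hh : 0 < h) (K : Finset (V d)) :
    bdw (pc d) K (fun v => qh h K v) = ∑ u ∈ K, gq h (K.image (fun x => x - u)) := by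
  rw [S5.bdw_eq]
  unfold gq
  rw [Finset.mul_sum]
  refine Finset.sum_congr rfl fun u hu => ?_
  congr 1
  refine Finset.sum_congr rfl fun e _ => ?_
  have hmem : u + e ∈ K ↔ e ∈ K.image (fun x => x - u) := by
    rw [Finset.mem_image]
    constructor
    · intro h1
      exact ⟨u + e, h1, add_sub_cancel_left u e⟩
    · rintro ⟨x, hx, rfl⟩
      rwa [add_sub_cancel]
  by_cases h1 : u + e ∈ K
  · rw [if_pos h1, if_pos (hmem.1 h1)]
  · rw [if_neg h1, if_neg (fun h2 => h1 (hmem.2 h2))]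
    have h2 := qh_shift hC h5 h6 hh (K.image (fun x => x - u)) (v := e) (fun h2 => h1 (hmem.2 h2)) u
    have h3 : (K.image (fun x => x - u)).image (fun x => x + u) = K := by
      rw [Finset.image_image]
      have : ((fun x : V d => x + u) ∘ fun x => x - u) = id := by
        funext x
        simp
      rw [this, Finset.image_id]
    rw [h3, add_comm e u] at h2
    exact h2

private theorem re4_gqS (h : ℝ) (K : Finset (V d)) : gqS h (K : Set (V d)) = gq h K := by
  unfold gqS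
  rw [dif_pos K.finite_toSet, Finset.finite_toSet_toFinset]

theorem re4 (hC : Crit d) (h5 : Out5 d) (h6 : Out6 d) {h : ℝ} (hh : 0 < h) :
    (∑' K : Finset (V d), Pr d {ω : Om d | Cl (Oc ω) (0 : V d) = (K : Set (V d))} *
        (ex h (K : Set (V d)) * bdw (pc d) K (fun v => qh h K v))) =
      E4 h (fun ω : Om d => gqS h (Cl (Oc ω) (0 : V d))) := by
  have e1 : (∑' K : Finset (V d), Pr d {ω : Om d | Cl (Oc ω) (0 : V d) = (K : Set (V d))} *
        (ex h (K : Set (V d)) * bdw (pc d) K (fun v => qh h K v))) =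
      S5.EK (d := d) (pc d) (fun K => S5.ex h K.card * ∑ u ∈ K, gq h (K.image (fun x => x - u))) := by
    unfold S5.EK
    refine tsum_congr fun K => ?_
    rw [re4_bdw hC h5 h6 hh K, ex_finset]
    rfl
  have hCm := (opn_MES (d := d) (pc d)).cl (0 : V d)
  have h0 : Pr d {ω : Om d | (Cl (opn (pc d) ω) (0 : V d)).Infinite} = 0 := h5.theta_pc
  have hr := S5.reRoot (pc d) (fun n => S5.ex h n) (gq (d := d) h)
  rw [e1]
  refine Eq.trans ?_ (hr.trans ?_)
  · rfl
  · unfold E4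
    have e2 := lintegral_split_fin hCm h0 (fun ω : Om d => (Nc (Oc ω) (0 : V d) : ℝ≥0∞) *
      ex h (Cl (Oc ω) (0 : V d)) * gqS h (Cl (Oc ω) (0 : V d)))
    rw [e2]
    unfold S5.EK
    refine tsum_congr fun K => ?_
    have h1 : ∫⁻ ω in {ω : Om d | Cl (opn (pc d) ω) (0 : V d) = (K : Set (V d))},
        (Nc (Oc ω) (0 : V d) : ℝ≥0∞) * ex h (Cl (Oc ω) (0 : V d)) * gqS h (Cl (Oc ω) (0 : V d)) ∂Pr d =
        ((K.card : ℝ≥0∞) * ex h (K : Set (V d)) * gq h K) *
        Pr d {ω : Om d | Cl (opn (pc d) ω) (0 : V d) = (K : Set (V d))} := by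
      rw [← setLIntegral_const]
      refine setLIntegral_congr_fun (hCm.eq_set _) fun ω hω => ?_
      have hω' : Cl (Oc ω) (0 : V d) = (K : Set (V d)) := hω
      show (Nc (Oc ω) (0 : V d) : ℝ≥0∞) * ex h (Cl (Oc ω) (0 : V d)) * gqS h (Cl (Oc ω) (0 : V d)) = _
      unfold Nc
      rw [hω', Set.ncard_coe_finset, re4_gqS]
    rw [h1, ex_finset]
    unfold S5.cK S5.ex
    ring

end Pool.Agent.PB.S7
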