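import Mathlib

/-!
PB / S7 / Real4: a real analysis lemma (7.4).

Plan. `F` is bounded between `c` and `C`.  Let `a1 = liminf F`, `b1 = limsup F` along `𝓝[>] 0` (or argue with two cluster points; or show that `map F (𝓝[>] 0)` is
Cauchy).  For each `R`: along `h → 0`, `|a - F h x_R h| ≤ E R + m h`, so for cluster points `F1` of `F`: `|a - F1 G R| ≤ E R`.  Hence for two cluster points
`|F1 - F2| G R ≤ 2 E R`, and `G R ≥ (a - E R)/C ≥ a/(2C)` for large `R`; so `F1 = F2`.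
Cauchy version: given `η > 0` choose `R` with `E R` small (`< a/4`, and `16 C E R / a < η`), then for `h, h'` small `|F h x_R h - F h' x_R h'| ≤ 2 E R + m h + m h'`, `x_R h, x_R h'` close to
`G R ≥ a/(2C)`, `F ≤ C`.
-/

set_option autoImplicit false
open Filter Topology

namespace Pool.Agent.PB.S7

private theorem real4_cluster {F m : ℝ → ℝ} {a : ℝ}
    (hm : Tendsto m (𝓝[>] 0) (𝓝 0)) {x : ℕ → ℝ → ℝ} {G E : ℕ → ℝ}
    (hx : ∀ R, Tendsto (x R) (𝓝[>] 0) (𝓝 (G R))) (hE : Tendsto E atTop (𝓝 0))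
    (hmain : ∀ R, ∀ᶠ h in 𝓝[>] (0 : ℝ), |a - F h * x R h| ≤ E R + m h) {F1 : ℝ}
    (h1 : MapClusterPt F1 (𝓝[>] (0 : ℝ)) F) : Tendsto (fun R => F1 * G R) atTop (𝓝 a) := by
  rw [mapClusterPt_iff_ultrafilter] at h1
  obtain ⟨U, hU, hF⟩ := h1
  have key : ∀ R, |a - F1 * G R| ≤ E R := by
    intro R
    have t1 : Tendsto (fun h => |a - F h * x R h|) U (𝓝 |a - F1 * G R|) :=
      (tendsto_const_nhds.sub (hF.mul ((hx R).mono_left hU))).abs
    have t2 : Tendsto (fun h => E R + m h) U (𝓝 (E R + 0)) :=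
      tendsto_const_nhds.add (hm.mono_left hU)
    rw [add_zero] at t2
    exact le_of_tendsto_of_tendsto t1 t2 (hU (hmain R))
  have t3 : Tendsto (fun R => a - F1 * G R) atTop (𝓝 0) :=
    squeeze_zero_norm (fun R => by rw [Real.norm_eq_abs]; exact key R) hE
  have t4 : Tendsto (fun R => a - (a - F1 * G R)) atTop (𝓝 (a - 0)) := tendsto_const_nhds.sub t3
  simpa using t4

theorem real4 {F m : ℝ → ℝ} {c C a : ℝ} (hc : 0 < c) (ha : 0 < a)
    (hF : ∀ᶠ h in 𝓝[>] (0 : ℝ), c ≤ F h ∧ F h ≤ C)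
    (hm : Tendsto m (𝓝[>] 0) (𝓝 0)) {x : ℕ → ℝ → ℝ} {G E : ℕ → ℝ}
    (hx : ∀ R, Tendsto (x R) (𝓝[>] 0) (𝓝 (G R))) (hE : Tendsto E atTop (𝓝 0))
    (hmain : ∀ R, ∀ᶠ h in 𝓝[>] (0 : ℝ), |a - F h * x R h| ≤ E R + m h) :
    ∃ Fs : ℝ, 0 < Fs ∧ Tendsto F (𝓝[>] 0) (𝓝 Fs) := by
  have hmem : map F (𝓝[>] (0 : ℝ)) ≤ 𝓟 (Set.Icc c C) := by
    rw [le_principal_iff]
    exact hF
  obtain ⟨F1, hF1, hcl⟩ := isCompact_Icc.exists_mapClusterPt hmem
  refine ⟨F1, lt_of_lt_of_le hc hF1.1, ?_⟩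
  refine isCompact_Icc.tendsto_nhds_of_unique_mapClusterPt (s := Set.Icc c C) hF ?_
  intro F2 hF2 hcl2
  have t1 := (real4_cluster hm hx hE hmain hcl).const_mul F2
  have t2 := (real4_cluster hm hx hE hmain hcl2).const_mul F1
  have e : (fun R => F2 * (F1 * G R)) = (fun R => F1 * (F2 * G R)) := by
    funext R; ring
  rw [e] at t1
  exact mul_right_cancel₀ ha.ne' (tendsto_nhds_unique t1 t2)

end Pool.Agent.PB.S7
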