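import Pool.Agent.PB.S7.MBd
import Pool.Agent.PB.G.Diag
import Pool.Agent.PB.G.Split
import Pool.Agent.PB.BK
import Pool.Agent.PB.P.BKw

/-!
PB / S7 / NLx: two BK bounds with a ghost attached (6.6 and 7.3).

Plan. `NLx`: on the event there are `x ∉ bx R v`, edge-disjoint connections `v..x`, `x..u`, and `c ∈ G_h` with `Rch O v c`.  `attach` (G/Split) with `q = ![(v,x),(x,u)]`
and `c`: either `z` on the first: `DisjConn O ![(z,x),(z,c),(v,z),(x,u)]`, or on the second: `DisjConn O ![(z,u),(z,c),(v,x),(x,z)]`.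
BK (four up-events; `{z → G_h}` for the pair `(z,c)`: the witness contains the ghost label of `c`): probability at most
`∑_{x ∉ bx R v} ∑_z [τ(x-z) M τ(z-v) τ(u-x) + τ(u-z) M τ(x-v) τ(z-x)] = Rcal R (u-v) M(h)` after the translation `x → x + v` (`tau_shift`, `tau_neg`, `Mg_shift`).
The box: `x ∉ bx R v ↔ x - v ∉ bx R 0`.
`DG`: `DConn.diag` (G/Diag): `∃ z, DisjConn O ![(z,u),(z,c),(v,z),(v,u)]`, BK: `∑_z τ(u-z) M τ(z-v) τ(u-v) = τ(u-v) (τ*τ)(u-v) M`.
`NLx_tau`: drop the ghost.
Check whether helper93's P/Tree or P/NL already contains wrappers for BK with connections and ghosts (use them).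
-/

set_option autoImplicit false
open MeasureTheory Filter Topology
open scoped ENNReal BigOperators

namespace Pool.Agent.PB.S7

open Pool.Agent.PB

variable {d : ℕ}

private theorem rem_empty7 (O : Set (Sym2 (V d))) : (Del.ofSet (∅ : Set (V d))).rem O = O := by
  ext e; simp [Del.rem, Del.ofSet]

/-- BK for one connection to a ghost and three connections to points -/
private theorem bk_ghost3 (h : ℝ) (w a a' b b' c c' : V d) :
    Pr d {ω : Om d | ∃ g ∈ ghost false h ω, DisjConn (Oc ω) ![(w, g), (a, a'), (b, b'), (c, c')]} ≤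
      Mg d (pc d) h * (tau (pc d) (a' - a) * tau (pc d) (b' - b) * tau (pc d) (c' - c)) := by
  have h1 := Pr_conn_ghost_le (d := d) (pc d) h false (Del.ofSet ∅) w ![(a, a'), (b, b'), (c, c')]
  simp only [rem_empty7] at h1
  refine le_trans h1 (le_of_eq ?_)
  rw [Fin.prod_univ_three]
  rfl

private theorem not_mem_bx {R : ℕ} {x v : V d} : x + v ∉ bx R v ↔ x ∉ bx R (0 : V d) := by
  unfold bx
  simp

theorem NLx (R : ℕ) (v u : V d) {h : ℝ} (hh : 0 < h) :
    Pr d ({ω : Om d | ∃ x, x ∉ bx R v ∧ DisjConn (Oc ω) ![(v, x), (x, u)]} ∩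
      {ω : Om d | RchT (Oc ω) v (ghost false h ω)}) ≤ Rcal R (u - v) * Mg d (pc d) h := by
  classical
  have hsub : ({ω : Om d | ∃ x, x ∉ bx R v ∧ DisjConn (Oc ω) ![(v, x), (x, u)]} ∩
      {ω : Om d | RchT (Oc ω) v (ghost false h ω)}) ⊆
      ⋃ x : V d, ⋃ z : V d, ({ω : Om d | x ∉ bx R v ∧ ∃ g ∈ ghost false h ω,
          DisjConn (Oc ω) ![(z, g), (z, x), (v, z), (x, u)]} ∪
        {ω : Om d | x ∉ bx R v ∧ ∃ g ∈ ghost false h ω,
          DisjConn (Oc ω) ![(z, g), (z, u), (v, x), (x, z)]}) := by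
    rintro ω ⟨⟨x, hx, hd⟩, c, hc, hvc⟩
    obtain ⟨j, z, hj⟩ := attach hd (j0 := 0) hvc
    refine Set.mem_iUnion.2 ⟨x, Set.mem_iUnion.2 ⟨z, ?_⟩⟩
    fin_cases j
    · left
      refine ⟨hx, c, hc, ?_⟩
      have h1 := hj.comp (f := ![1, 0, 2, 3]) (by decide)
      convert h1 using 1
      funext i
      fin_cases i <;> rfl
    · right
      refine ⟨hx, c, hc, ?_⟩
      have h1 := hj.comp (f := ![1, 0, 2, 3]) (by decide)
      convert h1 using 1
      funext i
      fin_cases i <;> rfl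
  refine (measure_mono hsub).trans ?_
  refine ((measure_iUnion_le _).trans (ENNReal.tsum_le_tsum fun x => (measure_iUnion_le _).trans
    (ENNReal.tsum_le_tsum fun z => measure_union_le _ _))).trans ?_
  have hb : ∀ x z : V d, Pr d {ω : Om d | x ∉ bx R v ∧ ∃ g ∈ ghost false h ω,
          DisjConn (Oc ω) ![(z, g), (z, x), (v, z), (x, u)]} +
        Pr d {ω : Om d | x ∉ bx R v ∧ ∃ g ∈ ghost false h ω,
          DisjConn (Oc ω) ![(z, g), (z, u), (v, x), (x, z)]} ≤
        if x ∉ bx R v then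
          Mg d (pc d) h * (tau (pc d) (x - z) * tau (pc d) (z - v) * tau (pc d) (u - x)) +
          Mg d (pc d) h * (tau (pc d) (u - z) * tau (pc d) (x - v) * tau (pc d) (z - x)) else 0 := by
    intro x z
    by_cases hx : x ∉ bx R v
    · rw [if_pos hx]
      simp only [hx, not_false_eq_true, true_and]
      exact add_le_add (bk_ghost3 h z z x v z x u) (bk_ghost3 h z z u v x x z)
    · rw [if_neg hx]
      simp [hx]
  refine (ENNReal.tsum_le_tsum fun x => ENNReal.tsum_le_tsum fun z => hb x z).trans (le_of_eq ?_)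
  unfold Rcal
  rw [← ENNReal.tsum_mul_right, ← (Equiv.addRight v).tsum_eq]
  refine tsum_congr fun x => ?_
  show ∑' z, (if x + v ∉ bx R v then _ else _) = _
  by_cases hx : x ∉ bx R (0 : V d)
  · rw [if_pos hx]
    have hx' : x + v ∉ bx R v := not_mem_bx.2 hx
    simp only [if_pos hx']
    rw [ENNReal.tsum_add, ENNReal.tsum_mul_left, ENNReal.tsum_mul_left, add_mul, mul_comm (Mg d (pc d) h),
      mul_comm (Mg d (pc d) h)]
    congr 2
    · unfold conv
      rw [← ENNReal.tsum_mul_right, ← (Equiv.addRight v).tsum_eq]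
      refine tsum_congr fun z => ?_
      show tau (pc d) (x + v - (z + v)) * tau (pc d) (z + v - v) * tau (pc d) (u - (x + v)) = _
      rw [add_sub_add_right_eq_sub, add_sub_cancel_right, show u - (x + v) = u - v - x by abel]
      ring
    · unfold conv
      rw [← ENNReal.tsum_mul_left, ← (Equiv.addRight (x + v)).tsum_eq]
      refine tsum_congr fun z => ?_
      show tau (pc d) (u - (z + (x + v))) * tau (pc d) (x + v - v) *
        tau (pc d) (z + (x + v) - (x + v)) = _
      rw [add_sub_cancel_right, add_sub_cancel_right, show u - (z + (x + v)) = u - v - x - z by abel]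
      ring
  · rw [if_neg hx]
    have hx' : ¬ (x + v ∉ bx R v) := fun h => hx (not_mem_bx.1 h)
    simp only [if_neg hx']
    simp

theorem DG (v u : V d) {h : ℝ} (hh : 0 < h) :
    Pr d ({ω : Om d | DConn (Oc ω) v u} ∩ {ω : Om d | RchT (Oc ω) v (ghost false h ω)}) ≤
      tau (pc d) (u - v) * conv (tau (pc d)) (tau (pc d)) (u - v) * Mg d (pc d) h := by
  have hsub : ({ω : Om d | DConn (Oc ω) v u} ∩ {ω : Om d | RchT (Oc ω) v (ghost false h ω)}) ⊆
      ⋃ z : V d, {ω : Om d | ∃ g ∈ ghost false h ω,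
          DisjConn (Oc ω) ![(z, g), (z, u), (v, z), (v, u)]} := by
    rintro ω ⟨hd, c, hc, hvc⟩
    obtain ⟨z, hz⟩ := DConn.diag hd hvc
    refine Set.mem_iUnion.2 ⟨z, c, hc, ?_⟩
    have h1 := hz.comp (f := ![1, 0, 2, 3]) (by decide)
    convert h1 using 1
    funext i
    fin_cases i <;> rfl
  refine (measure_mono hsub).trans ((measure_iUnion_le _).trans ?_)
  refine (ENNReal.tsum_le_tsum fun z => bk_ghost3 h z z u v z v u).trans (le_of_eq ?_)
  rw [ENNReal.tsum_mul_left, mul_comm]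
  congr 1
  unfold conv
  rw [← ENNReal.tsum_mul_left, ← (Equiv.addRight v).tsum_eq]
  refine tsum_congr fun z => ?_
  show tau (pc d) (u - (z + v)) * tau (pc d) (z + v - v) * tau (pc d) (u - v) = _
  rw [add_sub_cancel_right, show u - (z + v) = u - v - z by abel]
  ring

end Pool.Agent.PB.S7
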