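import Pool.Agent.PB.S7.Q72
import Pool.Agent.PB.S7.NLx
import Pool.Agent.PB.S7.ExitDet

/-!
PB / S7 / Rep4: replacing the cluster by its local part (7.4).

Plan. For a finite cluster `S = Cl (Oc ω) 0 ⊇ L = Lb R (Oc ω) 0`, both contain `0` (so all finsets are finite sets containing `0`).
`gq_anti`: `L ⊆ K → gq h K ≤ gq h L`: termwise, `qh_anti` (for `e ∉ K`).
`gq_lip`: `gq h L ≤ gq h K + ofReal p * ∑_{e ∈ U1} (∑ z ∈ K \ L, τ(z-e)) (2 M(h))`: for `e ∉ K`: `qh_lip`; for `e ∈ K \ L`: `qh h L e ≤ M(h) ≤ τ(e-e) 2 M(h)`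
(`qh_le`, `tau_zero`); and `∑_e ∑_{z ∈ K\L} τ(z-e) = ∑_{z ∈ K \ L} tU d z`.
`rep4a`: monotonicity of the integral (for an infinite cluster the factor `ex` is `0`).
`rep4b`: the error is `2 p M(h) ∫ N e^{-hN} ∑_{z ∈ S \ L} tU z ≤ (2p/h) M(h) ∫ (1 - ex h S) ∑_{z ∈ S\L} tU z` (`h n e^{-hn} ≤ 1 - e^{-hn}`), and
`∫ (1 - ex h S) 1{z ∈ S \ L} = Pr({z ∈ S \ L} ∩ {RchT (Oc ω) 0 G_h}) ≤ Rcal R z M(h)` (`lintegral_ghost_hit`, `exit_box`, `NLx` with `v = 0`); sum over `z`: `TR R (tU d) M(h)`.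
-/

set_option autoImplicit false
open MeasureTheory Filter Topology
open scoped ENNReal BigOperators

namespace Pool.Agent.PB.S7

open Pool.Agent.PB

variable {d : ℕ}

theorem gq_anti (hC : Crit d) (h5 : Out5 d) (h6 : Out6 d) {h : ℝ} (hh : 0 < h)
    {L K : Finset (V d)} (hL : L ⊆ K) : gq h K ≤ gq h L := by
  unfold gq
  refine mul_le_mul' le_rfl (Finset.sum_le_sum fun e _ => ?_)
  by_cases he : e ∈ K
  · rw [if_pos he]; exact zero_le
  · have he' : e ∉ L := fun h => he (hL h)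
    rw [if_neg he, if_neg he']
    exact qh_anti hC h5 h6 hh hL he

theorem gq_lip (hC : Crit d) (h5 : Out5 d) (h6 : Out6 d) {h : ℝ} (hh : 0 < h)
    {L K : Finset (V d)} (hL : L ⊆ K) :
    gq h L ≤ gq h K + ENNReal.ofReal (2 * pc d) * ((∑ z ∈ K \ L, tU d z) * Mg d (pc d) h) := by
  have h1 : ∀ e ∈ U1 d, (if e ∈ L then 0 else qh h L e) ≤ (if e ∈ K then 0 else qh h K e) +
      (∑ z ∈ K \ L, tau (pc d) (z - e)) * (2 * Mg d (pc d) h) := by
    intro e _
    by_cases heL : e ∈ L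
    · rw [if_pos heL]; exact zero_le
    by_cases heK : e ∈ K
    · rw [if_neg heL, if_pos heK, zero_add]
      refine (qh_le hC h5 h6 hh L heL).trans ?_
      have h2 : (1 : ℝ≥0∞) ≤ ∑ z ∈ K \ L, tau (pc d) (z - e) := by
        have h3 : tau (pc d) (e - e) ≤ ∑ z ∈ K \ L, tau (pc d) (z - e) :=
          Finset.single_le_sum (f := fun z => tau (pc d) (z - e)) (fun _ _ => zero_le)
            (Finset.mem_sdiff.2 ⟨heK, heL⟩)
        rwa [sub_self, tau_zero] at h3
      calc Mg d (pc d) h ≤ 1 * (2 * Mg d (pc d) h) := by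
            rw [one_mul, two_mul]; exact le_self_add
        _ ≤ _ := mul_le_mul' h2 le_rfl
    · rw [if_neg heL, if_neg heK]
      exact qh_lip hC h5 h6 hh hL heK
  have hsum : ∑ e ∈ U1 d, ((∑ z ∈ K \ L, tau (pc d) (z - e)) * (2 * Mg d (pc d) h)) =
      (∑ z ∈ K \ L, tU d z) * (2 * Mg d (pc d) h) := by
    rw [← Finset.sum_mul, Finset.sum_comm]
    rfl
  have hp : (0 : ℝ) ≤ pc d := hC.pc_pos.le
  unfold gq
  calc ENNReal.ofReal (pc d) * ∑ e ∈ U1 d, (if e ∈ L then 0 else qh h L e)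
      ≤ ENNReal.ofReal (pc d) * ∑ e ∈ U1 d, ((if e ∈ K then 0 else qh h K e) +
          (∑ z ∈ K \ L, tau (pc d) (z - e)) * (2 * Mg d (pc d) h)) :=
        mul_le_mul' le_rfl (Finset.sum_le_sum h1)
    _ = ENNReal.ofReal (pc d) * ∑ e ∈ U1 d, (if e ∈ K then 0 else qh h K e) +
          ENNReal.ofReal (2 * pc d) * ((∑ z ∈ K \ L, tU d z) * Mg d (pc d) h) := by
        rw [Finset.sum_add_distrib, hsum, mul_add, ENNReal.ofReal_mul (by norm_num : (0 : ℝ) ≤ 2)]
        have : ENNReal.ofReal 2 = 2 := by norm_num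
        rw [this]
        ring

private theorem Lb_subset_Cl (R : ℕ) (O : Set (Sym2 (V d))) (x : V d) : Lb R O x ⊆ Cl O x :=
  Cl_mono Set.inter_subset_left x

private theorem gqS_of_finite (h : ℝ) {S : Set (V d)} (hS : S.Finite) :
    gqS h S = gq h hS.toFinset := by
  unfold gqS
  rw [dif_pos hS]

theorem rep4a (hC : Crit d) (h5 : Out5 d) (h6 : Out6 d) {h : ℝ} (hh : 0 < h) (R : ℕ) :
    E4 h (fun ω : Om d => gqS h (Cl (Oc ω) (0 : V d))) ≤
      E4 h (fun ω : Om d => gqS h (Lb R (Oc ω) (0 : V d))) := by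
  unfold E4
  refine lintegral_mono fun ω => ?_
  by_cases hf : (Cl (Oc ω) (0 : V d)).Finite
  · refine mul_le_mul' le_rfl ?_
    have hf' : (Lb R (Oc ω) (0 : V d)).Finite := hf.subset (Lb_subset_Cl R _ _)
    show gqS h (Cl (Oc ω) (0 : V d)) ≤ gqS h (Lb R (Oc ω) (0 : V d))
    rw [gqS_of_finite h hf, gqS_of_finite h hf']
    exact gq_anti hC h5 h6 hh (Set.Finite.toFinset_subset_toFinset.2 (Lb_subset_Cl R _ _))
  · have : ex h (Cl (Oc ω) (0 : V d)) = 0 := ex_inf h hf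
    simp only [this, mul_zero, zero_mul, le_refl]

private theorem nex_le {h : ℝ} (hh : 0 < h) (O : Set (Sym2 (V d))) (x : V d) :
    (Nc O x : ℝ≥0∞) * ex h (Cl O x) ≤ ENNReal.ofReal (1 / h) * (1 - ex h (Cl O x)) := by
  by_cases hf : (Cl O x).Finite
  · rw [ex_fin h hf]
    unfold Nc
    set n := (Cl O x).ncard
    have h1 : (0 : ℝ) ≤ Real.exp (-(h * (n : ℝ))) := (Real.exp_pos _).le
    have h2 : ((n : ℕ) : ℝ≥0∞) = ENNReal.ofReal (n : ℝ) := (ENNReal.ofReal_natCast n).symm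
    rw [h2, ← ENNReal.ofReal_mul (by positivity), ← ENNReal.ofReal_one,
      ← ENNReal.ofReal_sub _ h1, ← ENNReal.ofReal_mul (by positivity)]
    refine ENNReal.ofReal_le_ofReal ?_
    have h3 : (h * (n : ℝ) + 1) * Real.exp (-(h * (n : ℝ))) ≤ 1 := by
      have h4 := Real.add_one_le_exp (h * (n : ℝ))
      calc (h * (n : ℝ) + 1) * Real.exp (-(h * (n : ℝ)))
          ≤ Real.exp (h * (n : ℝ)) * Real.exp (-(h * (n : ℝ))) :=
            mul_le_mul_of_nonneg_right h4 h1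
        _ = 1 := by rw [← Real.exp_add]; simp
    rw [one_div, inv_mul_eq_div, le_div_iff₀ hh]
    nlinarith
  · rw [ex_inf h hf, mul_zero]; exact zero_le

private theorem Lb_MVS (R : ℕ) : MVS (fun ω : Om d => Lb R (Oc ω) (0 : V d)) :=
  ((opn_MES (pc d)).inter (MES.const _)).cl 0

private theorem Cl_MVS : MVS (fun ω : Om d => Cl (Oc ω) (0 : V d)) := (opn_MES (pc d)).cl 0

/-- `z` in the cluster but not in its local part -/
private def Dz (R : ℕ) (z : V d) : Set (Om d) :=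
  {ω | z ∈ Cl (Oc ω) (0 : V d) ∧ z ∉ Lb R (Oc ω) (0 : V d)}

private theorem Dz_meas (R : ℕ) (z : V d) : MeasurableSet (Dz (d := d) R z) :=
  (Cl_MVS z).inter (Lb_MVS R z).compl

private theorem dep_Oc : DependsOn (fun ω : Om d => Oc ω) (gI d false)ᶜ := by
  have h1 := dep_opn (d := d) (pc d) Set.univ (S := (gI d false)ᶜ) (fun e _ => by simp [gI])
  intro ω ω' h
  have h2 := h1 h
  simp only [Set.inter_univ] at h2
  exact h2

private theorem Dz_prob (R : ℕ) (z : V d) {h : ℝ} (hh : 0 < h) :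
    ∫⁻ ω, (Dz (d := d) R z).indicator 1 ω * (1 - ex h (Cl (Oc ω) (0 : V d))) ∂Pr d ≤
      Rcal R z * Mg d (pc d) h := by
  have hdep : DependsOn ((Dz (d := d) R z).indicator (1 : Om d → ℝ≥0∞)) (gI d false)ᶜ := by
    intro ω ω' hω
    have h1 : Oc ω = Oc ω' := dep_Oc hω
    by_cases hm : ω ∈ Dz R z
    · have hm' : ω' ∈ Dz R z := by
        unfold Dz at hm ⊢
        simp only [Set.mem_ofPred_eq] at hm ⊢
        rwa [h1] at hm
      rw [Set.indicator_of_mem hm, Set.indicator_of_mem hm']; rfl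
    · have hm' : ω' ∉ Dz R z := by
        unfold Dz at hm ⊢
        simp only [Set.mem_ofPred_eq] at hm ⊢
        rwa [h1] at hm
      rw [Set.indicator_of_notMem hm, Set.indicator_of_notMem hm']
  have hg := lintegral_ghost_hit (d := d) false hh Cl_MVS (dep_Cl_opn_gI (pc d) 0 false)
    (measurable_one.indicator (Dz_meas R z)) hdep
  rw [← hg, lintegral_indicator_one (Dz_meas R z), Measure.restrict_apply (Dz_meas R z)]
  have hsub : Dz R z ∩ {ω : Om d | ∃ t ∈ ghost false h ω, t ∈ Cl (Oc ω) (0 : V d)} ⊆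
      {ω : Om d | ∃ x, x ∉ bx R (0 : V d) ∧ DisjConn (Oc ω) ![(0, x), (x, z)]} ∩
        {ω : Om d | RchT (Oc ω) (0 : V d) (ghost false h ω)} := by
    rintro ω ⟨⟨h1, h2⟩, t, ht, ht'⟩
    exact ⟨exit_box h1 h2, t, ht, ht'⟩
  refine (measure_mono hsub).trans ?_
  have := NLx (d := d) R 0 z hh
  rwa [sub_zero] at this

theorem rep4b (hC : Crit d) (h5 : Out5 d) (h6 : Out6 d) {h : ℝ} (hh : 0 < h) (R : ℕ) :
    E4 h (fun ω : Om d => gqS h (Lb R (Oc ω) (0 : V d))) ≤
      E4 h (fun ω : Om d => gqS h (Cl (Oc ω) (0 : V d))) +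
        ENNReal.ofReal (2 * pc d / h) * (TR R (tU d) * (Mg d (pc d) h * Mg d (pc d) h)) := by
  classical
  have hp : (0 : ℝ) ≤ pc d := hC.pc_pos.le
  set c : ℝ≥0∞ := ENNReal.ofReal (2 * pc d) * (Mg d (pc d) h * ENNReal.ofReal (1 / h)) with hc
  set Er : Om d → ℝ≥0∞ := fun ω => ∑' z : V d, tU d z *
    ((Dz (d := d) R z).indicator 1 ω * (1 - ex h (Cl (Oc ω) (0 : V d)))) with hEr
  have hmz : ∀ z : V d, Measurable (fun ω : Om d =>
      tU d z * ((Dz (d := d) R z).indicator 1 ω * (1 - ex h (Cl (Oc ω) (0 : V d))))) := fun z =>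
    ((measurable_one.indicator (Dz_meas R z)).mul
      (measurable_const.sub (measurable_ex Cl_MVS))).const_mul _
  have hmEr : Measurable Er := Measurable.tsum (fun z => hmz z)
  have hpt : ∀ ω : Om d, (Nc (Oc ω) (0 : V d) : ℝ≥0∞) * ex h (Cl (Oc ω) (0 : V d)) *
      gqS h (Lb R (Oc ω) (0 : V d)) ≤
      (Nc (Oc ω) (0 : V d) : ℝ≥0∞) * ex h (Cl (Oc ω) (0 : V d)) *
      gqS h (Cl (Oc ω) (0 : V d)) + c * Er ω := by
    intro ω
    by_cases hf : (Cl (Oc ω) (0 : V d)).Finite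
    · have hf' : (Lb R (Oc ω) (0 : V d)).Finite := hf.subset (Lb_subset_Cl R _ _)
      rw [gqS_of_finite h hf, gqS_of_finite h hf']
      have h1 := gq_lip hC h5 h6 hh
        (Set.Finite.toFinset_subset_toFinset (hs := hf') (ht := hf)|>.2 (Lb_subset_Cl R (Oc ω) 0))
      have h2 : ∑ z ∈ hf.toFinset \ hf'.toFinset, tU d z ≤
          ∑' z : V d, tU d z * (Dz (d := d) R z).indicator 1 ω := by
        refine le_trans (le_of_eq ?_) (ENNReal.sum_le_tsum (hf.toFinset \ hf'.toFinset))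
        refine Finset.sum_congr rfl fun z hz => ?_
        rw [Finset.mem_sdiff, Set.Finite.mem_toFinset, Set.Finite.mem_toFinset] at hz
        have : ω ∈ Dz R z := hz
        rw [Set.indicator_of_mem this]
        simp
      have h3 := nex_le hh (Oc ω) (0 : V d)
      calc (Nc (Oc ω) (0 : V d) : ℝ≥0∞) * ex h (Cl (Oc ω) (0 : V d)) * gq h hf'.toFinset
          ≤ (Nc (Oc ω) (0 : V d) : ℝ≥0∞) * ex h (Cl (Oc ω) (0 : V d)) *
            (gq h hf.toFinset + ENNReal.ofReal (2 * pc d) *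
              ((∑ z ∈ hf.toFinset \ hf'.toFinset, tU d z) * Mg d (pc d) h)) :=
            mul_le_mul' le_rfl h1
        _ = (Nc (Oc ω) (0 : V d) : ℝ≥0∞) * ex h (Cl (Oc ω) (0 : V d)) * gq h hf.toFinset +
            ((Nc (Oc ω) (0 : V d) : ℝ≥0∞) * ex h (Cl (Oc ω) (0 : V d))) *
              (ENNReal.ofReal (2 * pc d) *
              ((∑ z ∈ hf.toFinset \ hf'.toFinset, tU d z) * Mg d (pc d) h)) := by rw [mul_add]
        _ ≤ (Nc (Oc ω) (0 : V d) : ℝ≥0∞) * ex h (Cl (Oc ω) (0 : V d)) * gq h hf.toFinset +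
            (ENNReal.ofReal (1 / h) * (1 - ex h (Cl (Oc ω) (0 : V d)))) *
              (ENNReal.ofReal (2 * pc d) *
              ((∑' z : V d, tU d z * (Dz (d := d) R z).indicator 1 ω) * Mg d (pc d) h)) := by
            gcongr
        _ = (Nc (Oc ω) (0 : V d) : ℝ≥0∞) * ex h (Cl (Oc ω) (0 : V d)) * gq h hf.toFinset +
            c * Er ω := by
            congr 1
            have h4 : Er ω = (∑' z : V d, tU d z * (Dz (d := d) R z).indicator 1 ω) *
                (1 - ex h (Cl (Oc ω) (0 : V d))) := by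
              rw [hEr]
              simp only
              rw [← ENNReal.tsum_mul_right]
              exact tsum_congr fun z => by ring
            rw [h4, hc]
            ring
    · have : ex h (Cl (Oc ω) (0 : V d)) = 0 := ex_inf h hf
      simp only [this, mul_zero, zero_mul, zero_add]
      exact zero_le
  have hint : ∫⁻ ω, Er ω ∂Pr d ≤ TR R (tU d) * Mg d (pc d) h := by
    rw [hEr]
    simp only
    rw [lintegral_tsum (fun z => (hmz z).aemeasurable)]
    unfold TR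
    rw [← ENNReal.tsum_mul_right]
    refine ENNReal.tsum_le_tsum fun z => ?_
    rw [lintegral_const_mul]
    · rw [mul_assoc]
      exact mul_le_mul' le_rfl (Dz_prob R z hh)
    · exact (measurable_one.indicator (Dz_meas R z)).mul
        (measurable_const.sub (measurable_ex Cl_MVS))
  unfold E4
  calc ∫⁻ ω, (Nc (Oc ω) (0 : V d) : ℝ≥0∞) * ex h (Cl (Oc ω) (0 : V d)) *
        gqS h (Lb R (Oc ω) (0 : V d)) ∂Pr d
      ≤ ∫⁻ ω, ((Nc (Oc ω) (0 : V d) : ℝ≥0∞) * ex h (Cl (Oc ω) (0 : V d)) *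
        gqS h (Cl (Oc ω) (0 : V d)) + c * Er ω) ∂Pr d := lintegral_mono hpt
    _ = ∫⁻ ω, (Nc (Oc ω) (0 : V d) : ℝ≥0∞) * ex h (Cl (Oc ω) (0 : V d)) *
        gqS h (Cl (Oc ω) (0 : V d)) ∂Pr d + ∫⁻ ω, c * Er ω ∂Pr d :=
        lintegral_add_right _ (hmEr.const_mul c)
    _ ≤ ∫⁻ ω, (Nc (Oc ω) (0 : V d) : ℝ≥0∞) * ex h (Cl (Oc ω) (0 : V d)) *
        gqS h (Cl (Oc ω) (0 : V d)) ∂Pr d +
        ENNReal.ofReal (2 * pc d / h) * (TR R (tU d) * (Mg d (pc d) h * Mg d (pc d) h)) := by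
        gcongr
        rw [lintegral_const_mul _ hmEr]
        calc c * ∫⁻ ω, Er ω ∂Pr d ≤ c * (TR R (tU d) * Mg d (pc d) h) :=
              mul_le_mul' le_rfl hint
          _ = ENNReal.ofReal (2 * pc d / h) * (TR R (tU d) * (Mg d (pc d) h * Mg d (pc d) h)) := by
              have hx : ENNReal.ofReal (2 * pc d / h) =
                  ENNReal.ofReal (2 * pc d) * ENNReal.ofReal (1 / h) := by
                rw [← ENNReal.ofReal_mul (by positivity)]
                congr 1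
                ring
              rw [hc, hx]
              ring

end Pool.Agent.PB.S7
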