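import Pool.Agent.PB.S7.Id4
import Pool.Agent.PB.S7.Re4
import Pool.Agent.PB.S7.Rep4
import Pool.Agent.PB.S7.Fin4
import Pool.Agent.PB.S7.Real4
import Pool.Agent.PB.S7.Int4

/-!
PB / S7 / Main: `M(h)/√h → 1/√b`.
-/

set_option autoImplicit false
open MeasureTheory Filter Topology
open scoped ENNReal BigOperators

namespace Pool.Agent.PB.S7

open Pool.Agent.PB

variable {d : ℕ}

/-- the estimate of 7.4 -/
theorem main4 (hC : Crit d) (h5 : Out5 d) (h6 : Out6 d) {C : ℝ} (hC1 : 1 ≤ C) {h : ℝ}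
    (hh : 0 < h) (hM : Mr d (pc d) h ≤ C * Real.sqrt h) (R : ℕ) :
    |(1 - pc d) - (E4 h (fun ω : Om d => gqS h (Lb R (Oc ω) (0 : V d)))).toReal| ≤
      2 * pc d * C ^ 2 * (TR R (tU d)).toReal + Mr d (pc d) h := by
  have hp : 0 < 1 - pc d := by linarith [hC.pc_lt]
  have hp0 := hC.pc_pos
  have hv : (0 : V d) ∉ (∅ : Finset (V d)) := by simp
  have h1 := id4 hC h5 h6 hh
  rw [re4 hC h5 h6 hh] at h1
  have h2 := qh_le hC h5 h6 hh (∅ : Finset (V d)) hv
  have h3 := rep4a hC h5 h6 hh R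
  have h4 := rep4b hC h5 h6 hh R
  set q := qh h (∅ : Finset (V d)) 0 with hq
  set Y := E4 h (fun ω : Om d => gqS h (Cl (Oc ω) (0 : V d))) with hY
  set Z := E4 h (fun ω : Om d => gqS h (Lb R (Oc ω) (0 : V d))) with hZ
  have hqt : q ≠ ⊤ := ne_top_of_le_ne_top (Mg_ne_top h) h2
  have hc1 : ENNReal.ofReal (1 / (1 - pc d)) ≠ 0 := by
    rw [Ne, ENNReal.ofReal_eq_zero, not_le]; positivity
  have hYt : Y ≠ ⊤ := by
    intro hY'
    rw [hY', ENNReal.mul_top hc1, add_top] at h1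
    exact ENNReal.top_ne_one h1
  have hTt : TR R (tU d) ≠ ⊤ := TR_tU_ne_top hC R
  have hMt : Mg d (pc d) h ≠ ⊤ := Mg_ne_top h
  have hEt : ENNReal.ofReal (2 * pc d / h) * (TR R (tU d) * (Mg d (pc d) h * Mg d (pc d) h)) ≠ ⊤ :=
    ENNReal.mul_ne_top ENNReal.ofReal_ne_top (ENNReal.mul_ne_top hTt (ENNReal.mul_ne_top hMt hMt))
  have hZt : Z ≠ ⊤ := ne_top_of_le_ne_top (ENNReal.add_ne_top.2 ⟨hYt, hEt⟩) h4
  -- real versions
  have r1 : q.toReal + 1 / (1 - pc d) * Y.toReal = 1 := by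
    have := congrArg ENNReal.toReal h1
    rwa [ENNReal.toReal_add hqt (ENNReal.mul_ne_top ENNReal.ofReal_ne_top hYt),
      ENNReal.toReal_mul, ENNReal.toReal_ofReal (by positivity), ENNReal.toReal_one] at this
  have r2 : q.toReal ≤ Mr d (pc d) h := ENNReal.toReal_mono hMt h2
  have r3 : Y.toReal ≤ Z.toReal := ENNReal.toReal_mono hZt h3
  have r4 : Z.toReal ≤ Y.toReal + 2 * pc d / h * ((TR R (tU d)).toReal *
      (Mr d (pc d) h * Mr d (pc d) h)) := by
    have := ENNReal.toReal_mono (ENNReal.add_ne_top.2 ⟨hYt, hEt⟩) h4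
    rwa [ENNReal.toReal_add hYt hEt, ENNReal.toReal_mul, ENNReal.toReal_ofReal (by positivity),
      ENNReal.toReal_mul, ENNReal.toReal_mul] at this
  have hq0 : 0 ≤ q.toReal := ENNReal.toReal_nonneg
  have hM0 : 0 ≤ Mr d (pc d) h := ENNReal.toReal_nonneg
  have hT0 : 0 ≤ (TR R (tU d)).toReal := ENNReal.toReal_nonneg
  have r5 : Y.toReal = (1 - pc d) * (1 - q.toReal) := by
    field_simp at r1
    linarith
  have r6 : 2 * pc d / h * ((TR R (tU d)).toReal * (Mr d (pc d) h * Mr d (pc d) h)) ≤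
      2 * pc d * C ^ 2 * (TR R (tU d)).toReal := by
    have hMM : Mr d (pc d) h * Mr d (pc d) h ≤ C ^ 2 * h := by
      calc Mr d (pc d) h * Mr d (pc d) h ≤ (C * Real.sqrt h) * (C * Real.sqrt h) :=
            mul_le_mul hM hM hM0 (by positivity)
        _ = C ^ 2 * (Real.sqrt h * Real.sqrt h) := by ring
        _ = C ^ 2 * h := by rw [Real.mul_self_sqrt hh.le]
    calc 2 * pc d / h * ((TR R (tU d)).toReal * (Mr d (pc d) h * Mr d (pc d) h))
        ≤ 2 * pc d / h * ((TR R (tU d)).toReal * (C ^ 2 * h)) :=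
          mul_le_mul_of_nonneg_left (mul_le_mul_of_nonneg_left hMM hT0) (by positivity)
      _ = 2 * pc d * C ^ 2 * (TR R (tU d)).toReal := by field_simp
  have r7 : (1 - pc d) * q.toReal ≤ Mr d (pc d) h := by nlinarith
  have r8 : 0 ≤ (1 - pc d) * q.toReal := mul_nonneg hp.le hq0
  have r9 : 0 ≤ 2 * pc d * C ^ 2 * (TR R (tU d)).toReal := by positivity
  have r10 : Y.toReal = (1 - pc d) - (1 - pc d) * q.toReal := by rw [r5]; ring
  rw [abs_le]
  constructor <;> linarith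

/-- OUTPUT of section 7 -/
theorem out7 (hC : Crit d) (h5 : Out5 d) (h6 : Out6 d) : ∃ b : ℝ, Out7 d b := by
  obtain ⟨C, hC1, hb⟩ := bds h5
  have hp : 0 < 1 - pc d := by linarith [hC.pc_lt]
  have hCp : 0 < C := by linarith
  choose G hG0 hG using fin4 hC h5 h6
  have hFb : ∀ᶠ h in 𝓝[>] (0 : ℝ), 1 / C ^ 2 ≤ Mr d (pc d) h * Mp d (pc d) h ∧
      Mr d (pc d) h * Mp d (pc d) h ≤ C ^ 2 := by
    filter_upwards [Ioc_mem_nhdsGT (show (0 : ℝ) < 1 by norm_num)] with h hh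
    obtain ⟨a1, a2, a3, a4⟩ := hb h hh.1 hh.2
    have hs : Real.sqrt h * Real.sqrt h = h := Real.mul_self_sqrt hh.1.le
    have hs0 := Real.sqrt_nonneg h
    have hMr : 0 ≤ Mr d (pc d) h := ENNReal.toReal_nonneg
    have hMp : 0 ≤ h * Mp d (pc d) h := by
      by_contra hcon
      push Not at hcon
      have : C * (h * Mp d (pc d) h) < 0 := mul_neg_of_pos_of_neg hCp hcon
      linarith
    constructor
    · rw [div_le_iff₀ (by positivity)]
      have h1 : h ≤ (C * Mr d (pc d) h) * (C * (h * Mp d (pc d) h)) := by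
        calc h = Real.sqrt h * Real.sqrt h := hs.symm
          _ ≤ _ := mul_le_mul a1 a3 hs0 (by positivity)
      have h2 : h * 1 ≤ h * (Mr d (pc d) h * Mp d (pc d) h * C ^ 2) := by
        rw [mul_one]
        calc h ≤ _ := h1
          _ = _ := by ring
      exact le_of_mul_le_mul_left h2 hh.1
    · have h1 : Mr d (pc d) h * (h * Mp d (pc d) h) ≤ C ^ 2 * h := by
        calc Mr d (pc d) h * (h * Mp d (pc d) h) ≤ (C * Real.sqrt h) * (C * Real.sqrt h) :=
              mul_le_mul a2 a4 hMp (by positivity)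
          _ = C ^ 2 * (Real.sqrt h * Real.sqrt h) := by ring
          _ = C ^ 2 * h := by rw [hs]
      have h2 : h * (Mr d (pc d) h * Mp d (pc d) h) ≤ h * C ^ 2 := by
        calc h * (Mr d (pc d) h * Mp d (pc d) h) = Mr d (pc d) h * (h * Mp d (pc d) h) := by ring
          _ ≤ C ^ 2 * h := h1
          _ = h * C ^ 2 := by ring
      exact le_of_mul_le_mul_left h2 hh.1
  have hElim : Tendsto (fun R : ℕ => 2 * pc d * C ^ 2 * (TR R (tU d)).toReal) atTop (𝓝 0) := by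
    have h1 := TR_lim hC (tU_fin hC)
    have h2 : Tendsto (fun R : ℕ => (TR R (tU d)).toReal) atTop (𝓝 0) := by
      have := (ENNReal.tendsto_toReal ENNReal.zero_ne_top).comp h1
      simpa [Function.comp_def] using this
    have := h2.const_mul (2 * pc d * C ^ 2)
    simpa using this
  obtain ⟨Fs, hFs, hF⟩ := real4 (F := fun h => Mr d (pc d) h * Mp d (pc d) h)
    (m := fun h => Mr d (pc d) h) (c := 1 / C ^ 2) (C := C ^ 2) (a := 1 - pc d)
    (by positivity) hp hFb (Mr_tendsto h5) hG hElim (by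
      intro R
      filter_upwards [hFb, Ioc_mem_nhdsGT (show (0 : ℝ) < 1 by norm_num)] with h h1 hh
      have hpos : 0 < Mr d (pc d) h * Mp d (pc d) h := lt_of_lt_of_le (by positivity) h1.1
      rw [mul_div_cancel₀ _ hpos.ne']
      exact main4 hC h5 h6 hC1 hh.1 (hb h hh.1 hh.2).2.1 R)
  have h7 := int4 (M := fun h => Mr d (pc d) h) (M' := fun h => Mp d (pc d) h)
    (fun h hh => Mr_deriv h5 hh) (Mr_tendsto h5) hF (fun h _ => ENNReal.toReal_nonneg)
  refine ⟨1 / (2 * Fs), by positivity, ?_⟩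
  rw [Real.sqrt_div zero_le_one, Real.sqrt_one, one_div_one_div]
  exact h7

end Pool.Agent.PB.S7
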