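import Pool.Agent.PB.S7.MBd

/-!
PB / S7 / CA: `P(w → G'_δ off B) / M(δ) → ψ(B, w)`.

Plan. `cA_int`: `RchA (ofSet B) (Oc ω) w T ↔ ∃ t ∈ T, t ∈ ClA (ofSet B) (Oc ω) w`; `lintegral_ghost_hit` (P/Expl) with `b = true`, `F = 1`,
`C ω = ClA (ofSet B) (Oc ω) w` (MVS: `(opn_MES _).clA`, dependence: `dep_opn` with the set of all edges, as in `dep_Cl_opn_gI`).
`cA_eq`: `EW W1 δ (ofSet B) w = ∫ (1 - exp(-δ Nc(..)))`, for `w ∉ B`; `ofReal_integral_eq_lintegral_ofReal`; the cluster off `B` is a subset of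
`Cl (Oc ω) w`, finite a.s. (`h5.theta_pc` and translation `theta_shift`/`Pr_act`), where `1 - ex δ S = ofReal (1 - exp(-δ |S|))`.
`Mg_eq_EW`: the case `B = ∅`, `w = 0`, together with `P.Mg_eq` (`Mg d p h = ∫ (1 - ex h (Cl (opn p ω) 0))`); `(D0).rem O = O`.
`cA_le`: monotone in `B` (`ClA_subset_Cl`), translation to `0` (`Mg_shift`, or Act), `ghost true` and `ghost false` have the same law
(both sides are `∫ (1 - ex δ ..)`).  `cA_lim`: `h6.W1_psi (Del.ofSet B) w`, quotient of `ofReal`s (`ENNReal.ofReal_div_of_pos`),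
`ENNReal.tendsto_ofReal`.
-/

set_option autoImplicit false
open MeasureTheory Filter Topology
open scoped ENNReal BigOperators

namespace Pool.Agent.PB.S7

open Pool.Agent.PB

variable {d : ℕ}

private theorem ca_meas {δ : ℝ} {C : Om d → Set (V d)} (hC : MVS C) :
    Measurable (fun ω => 1 - Real.exp (-(δ * ((C ω).ncard : ℝ)))) := by
  have h : (fun ω => 1 - Real.exp (-(δ * ((C ω).ncard : ℝ)))) =
      (fun n : ℕ∞ => 1 - Real.exp (-(δ * (n.toNat : ℝ)))) ∘ fun ω => (C ω).encard := rfl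
  rw [h]
  exact (measurable_of_countable _).comp hC.encard

private theorem ca_nonneg {δ : ℝ} (hδ : 0 < δ) (n : ℕ) : 0 ≤ 1 - Real.exp (-(δ * (n : ℝ))) := by
  have h : Real.exp (-(δ * (n : ℝ))) ≤ 1 := by
    rw [Real.exp_le_one_iff]
    have : 0 ≤ δ * (n : ℝ) := by positivity
    linarith
  linarith

private theorem ca_key {δ : ℝ} (hδ : 0 < δ) {C : Om d → Set (V d)} (hC : MVS C)
    (h0 : Pr d {ω | (C ω).Infinite} = 0) :
    ∫⁻ ω, (1 - ex δ (C ω)) ∂Pr d =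
      ENNReal.ofReal (∫ ω, (1 - Real.exp (-(δ * ((C ω).ncard : ℝ)))) ∂Pr d) := by
  rw [ofReal_integral_eq_lintegral_ofReal]
  · refine lintegral_congr_ae ?_
    have hae : ∀ᵐ ω ∂Pr d, ¬ (C ω).Infinite := by
      rw [ae_iff]
      simpa using h0
    filter_upwards [hae] with ω hω
    rw [Set.not_infinite] at hω
    rw [ex_fin δ hω, ENNReal.ofReal_sub _ (Real.exp_pos _).le, ENNReal.ofReal_one]
  · refine Integrable.of_bound (ca_meas hC).aestronglyMeasurable 1 (ae_of_all _ fun ω => ?_)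
    rw [Real.norm_eq_abs, abs_le]
    have h1 := ca_nonneg hδ (C ω).ncard
    have h2 := Real.exp_pos (-(δ * ((C ω).ncard : ℝ)))
    constructor <;> linarith
  · exact ae_of_all _ fun ω => ca_nonneg hδ _

private theorem ca_D0_rem (O : Set (Sym2 (V d))) : (D0 : Del (V d)).rem O = O := by
  ext e
  simp [D0, Del.rem, Del.ofSet]

private theorem ca_EW_D0 (δ : ℝ) : EW W1 δ (D0 : Del (V d)) 0 =
    ∫ ω, (1 - Real.exp (-(δ * ((Cl (Oc ω) (0 : V d)).ncard : ℝ)))) ∂Pr d := by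
  unfold EW
  refine integral_congr_ae (ae_of_all _ fun ω => ?_)
  have h1 : (0 : V d) ∉ (D0 : Del (V d)).S := fun h => h
  simp only [WA, if_neg h1, ca_D0_rem]
  rfl

private theorem ca_EW_of (δ : ℝ) (B : Finset (V d)) {w : V d} (hw : w ∉ B) :
    EW W1 δ (Del.ofSet (B : Set (V d))) w =
    ∫ ω, (1 - Real.exp (-(δ * ((ClA (Del.ofSet (B : Set (V d))) (Oc ω) w).ncard : ℝ)))) ∂Pr d := by
  unfold EW
  refine integral_congr_ae (ae_of_all _ fun ω => ?_)
  have h1 : w ∉ (Del.ofSet (B : Set (V d))).S := fun h => hw (by exact_mod_cast h)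
  have h2 : ClA (Del.ofSet (B : Set (V d))) (Oc ω) w =
      Cl ((Del.ofSet (B : Set (V d))).rem (Oc ω)) w := by
    ext x
    exact ⟨fun h => h.2, fun h => ⟨h1, h⟩⟩
  simp only [WA, if_neg h1]
  rw [h2]
  rfl

theorem cA_int {δ : ℝ} (hδ : 0 < δ) (B : Finset (V d)) (w : V d) :
    cA δ B w = ∫⁻ ω, (1 - ex δ (ClA (Del.ofSet (B : Set (V d))) (Oc ω) w)) ∂Pr d := by
  have hdep : DependsOn (fun ω : Om d => ClA (Del.ofSet (B : Set (V d))) (Oc ω) w)
      (gI d true)ᶜ := by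
    have h1 := dep_opn (d := d) (pc d) Set.univ (S := (gI d true)ᶜ) (fun e _ => by simp [gI])
    intro ω ω' h
    have h2 := h1 h
    simp only [Set.inter_univ] at h2
    simp only [Oc, h2]
  have h1 := lintegral_ghost_hit (d := d) true hδ
    (C := fun ω => ClA (Del.ofSet (B : Set (V d))) (Oc ω) w)
    ((opn_MES (pc d)).clA _ w) hdep (F := fun _ => 1) measurable_const (fun _ _ _ => rfl)
  simp only [one_mul, setLIntegral_const] at h1
  rw [← h1]
  rfl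

theorem cA_eq (h5 : Out5 d) {δ : ℝ} (hδ : 0 < δ) (B : Finset (V d)) {w : V d} (hw : w ∉ B) :
    cA δ B w = ENNReal.ofReal (EW W1 δ (Del.ofSet (B : Set (V d))) w) := by
  rw [cA_int hδ, ca_EW_of δ B hw]
  refine ca_key hδ ((opn_MES (pc d)).clA _ w) ?_
  refine measure_mono_null (t := {ω : Om d | (Cl (opn (pc d) ω) w).Infinite}) ?_ ?_
  · intro ω hω
    exact Set.Infinite.mono (ClA_subset_Cl _ _ _) hω
  · rw [theta_shift]
    exact h5.theta_pc

theorem Mg_eq_EW (h5 : Out5 d) {δ : ℝ} (hδ : 0 < δ) :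
    Mg d (pc d) δ = ENNReal.ofReal (EW W1 δ (D0 : Del (V d)) 0) := by
  rw [Mg_eq (pc d) hδ, ca_EW_D0]
  exact ca_key hδ ((opn_MES (pc d)).cl 0) h5.theta_pc

private theorem ca_EW_nonneg {δ : ℝ} (hδ : 0 < δ) : 0 ≤ EW W1 δ (D0 : Del (V d)) 0 := by
  rw [ca_EW_D0]
  exact integral_nonneg fun ω => ca_nonneg hδ _

theorem EW_D0 (h5 : Out5 d) {δ : ℝ} (hδ : 0 < δ) :
    EW W1 δ (D0 : Del (V d)) 0 = Mr d (pc d) δ := by
  unfold Mr
  rw [Mg_eq_EW h5 hδ, ENNReal.toReal_ofReal (ca_EW_nonneg hδ)]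

theorem cA_le {δ : ℝ} (hδ : 0 < δ) (B : Finset (V d)) (w : V d) :
    cA δ B w ≤ Mg d (pc d) δ := by
  have h1 := lintegral_ghost_hit (d := d) false hδ (C := fun ω => Cl (opn (pc d) ω) w)
    ((opn_MES (pc d)).cl w) (dep_Cl_opn_gI (pc d) w false) (F := fun _ => 1) measurable_const
    (fun _ _ _ => rfl)
  simp only [one_mul, setLIntegral_const] at h1
  have h2 : Mg d (pc d) δ = ∫⁻ ω, (1 - ex δ (Cl (opn (pc d) ω) w)) ∂Pr d := by
    rw [← h1, ← Mg_shift (pc d) δ w]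
    rfl
  rw [cA_int hδ, h2]
  refine lintegral_mono fun ω => ?_
  exact tsub_le_tsub_left (ex_anti hδ.le (ClA_subset_Cl _ _ _)) _

theorem cA_lim (h5 : Out5 d) (h6 : Out6 d) (B : Finset (V d)) {w : V d} (hw : w ∉ B) :
    Tendsto (fun δ : ℝ => cA δ B w / Mg d (pc d) δ) (𝓝[>] 0)
      (𝓝 (ENNReal.ofReal (psiK B w))) := by
  have h1 := h6.W1_psi (Del.ofSet (B : Set (V d))) w (Del.ofSet_finite B.finite_toSet)
    (fun h => hw (by exact_mod_cast h))
  have h2 := ENNReal.tendsto_ofReal h1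
  refine Tendsto.congr' ?_ h2
  filter_upwards [self_mem_nhdsWithin] with δ hδ
  have hδ' : (0 : ℝ) < δ := hδ
  have hpos : 0 < EW W1 δ (D0 : Del (V d)) 0 := by
    have h3 := S5.Mg_pos (d := d) (p := pc d) hδ'
    rw [Mg_eq_EW h5 hδ'] at h3
    exact ENNReal.ofReal_pos.1 h3
  rw [cA_eq h5 hδ' B hw, Mg_eq_EW h5 hδ', ENNReal.ofReal_div_of_pos hpos]

end Pool.Agent.PB.S7
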