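import Pool.Agent.PB.Outs
import Pool.Agent.PB.Basic
import Pool.Agent.PB.Meas
import Pool.Agent.PB.Link
import Pool.Agent.PB.P.Expl
import Pool.Agent.PB.P.Conv
import Pool.Agent.PB.P.Act
import Pool.Agent.PB.G.Base

/-!
# PROJECT PB, section 7: definitions.  Everything at `p_c`; `A`, `K` finite vertex sets.
* `OA A ω = O^A` (open edges off `A`).
* `wq A v u w K = J(w-u) P(C(O^A,v) = K, v ⇔ u in O^A)` if `w ∉ A ∪ K`, else `0`.
* `qh h A v = (1/(1-p)) Σ wq (1 - e^{-h|K|}) ψ(A ∪ K, w) = lim_{δ→0} Q_{δ,h}(A,v)/M(δ)` (7.1).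
* `cA δ B w = P(w → G'_δ off B)`.
* `FE`: `(u,w)` is the first edge separating `v` from `G'_δ` off `A`, near cluster `K`, `K` meets `G_h`.
* `Sq`, `SqL`, `Er`: the integrand of 7.1, its local version, the error (7.3).
* `gq h K = p Σ_{e ~ 0, e ∉ K} q_h(K,e)` (7.4).
No sorry in this file.
-/

set_option autoImplicit false
open MeasureTheory Filter Topology
open scoped ENNReal BigOperators

namespace Pool.Agent.PB.S7

open Pool.Agent.PB

variable {d : ℕ}

/-- `O^A` at `p_c` -/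
noncomputable def OA (A : Finset (V d)) (ω : Om d) : Set (Sym2 (V d)) :=
  (Del.ofSet (A : Set (V d))).rem (Oc ω)

/-- the weight of `(u,w,K)` in 7.1 -/
noncomputable def wq (A : Finset (V d)) (v u w : V d) (K : Finset (V d)) : ℝ≥0∞ :=
  if w ∉ A ∧ w ∉ K then
    J (pc d) (w - u) * Pr d {ω | Cl (OA A ω) v = (K : Set (V d)) ∧ DConn (OA A ω) v u} else 0

/-- `q_h(A,v)` -/
noncomputable def qh (h : ℝ) (A : Finset (V d)) (v : V d) : ℝ≥0∞ :=
  ENNReal.ofReal (1 / (1 - pc d)) * ∑' q : Tr d, wq A v q.1 q.2.1 q.2.2 *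
    ((1 - ex h (q.2.2 : Set (V d))) * ENNReal.ofReal (psiK (A ∪ q.2.2) q.2.1))

/-- `P(w → G'_δ off B)` -/
noncomputable def cA (δ : ℝ) (B : Finset (V d)) (w : V d) : ℝ≥0∞ :=
  Pr d {ω | RchA (Del.ofSet (B : Set (V d))) (Oc ω) w (ghost true δ ω)}

/-- `P` (two edge-disjoint connections from `v` to `G'_δ`) -/
noncomputable def P2 (d : ℕ) (δ : ℝ) (v : V d) : ℝ≥0∞ :=
  Pr d {ω : Om d | TwoT (Oc ω) v (ghost true δ ω) (ghost true δ ω)}

/-- the event of 7.1 for `(u,w,K)` -/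
def FE (δ h : ℝ) (A : Finset (V d)) (v u w : V d) (K : Finset (V d)) : Set (Om d) :=
  {ω | FirstSep (OA A ω) v (ghost true δ ω) u w ∧
    Cl (del1 (OA A ω) s(u, w)) v = (K : Set (V d)) ∧ ∃ g ∈ ghost false h ω, g ∈ K}

/-- `ψ(A ∪ S, w)` if `w ∉ A ∪ S`, else `0` (sets) -/
noncomputable def aps (A S : Set (V d)) (w : V d) : ℝ≥0∞ := by
  classical exact if w ∉ A ∧ w ∉ S then ENNReal.ofReal (psi (Del.ofSet (A ∪ S)) w) else 0

/-- the integrand of 7.1 -/
noncomputable def Sq (A : Set (V d)) (O : Set (Sym2 (V d))) (v : V d) : ℝ≥0∞ := by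
  classical exact ∑' u : V d, ∑' w : V d,
    (if DConn O v u then J (pc d) (w - u) * aps A (Cl O v) w else 0)

/-- its local version: `u ∈ Λ_R(v)`, everything else inside `Λ_{R'}(v)` -/
noncomputable def SqL (A : Set (V d)) (R R' : ℕ) (O : Set (Sym2 (V d))) (v : V d) : ℝ≥0∞ := by
  classical exact ∑' u : V d, ∑' w : V d,
    (if u ∈ bx R v ∧ DConn (O ∩ ins (bx R' v)) v u then
      J (pc d) (w - u) * aps A (Lb R' O v) w else 0)

/-- the error terms of 7.3 -/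
noncomputable def Er (R R' : ℕ) (O : Set (Sym2 (V d))) (v : V d) : ℝ≥0∞ := by
  classical exact ∑' u : V d, ∑' w : V d, J (pc d) (w - u) *
    ((if u ∉ bx R v ∧ DConn O v u then 1 else 0) +
      (if u ∈ bx R v ∧ DConn O v u ∧ ¬ DConn (O ∩ ins (bx R' v)) v u then 1 else 0) +
      (if u ∈ bx R v then
        ∑' z : V d, (if z ∈ Cl O v ∧ z ∉ Lb R' O v then tau (pc d) (z - w) else 0) else 0))

open Classical in
/-- the constant of the error bound of 7.3 -/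
noncomputable def err (d : ℕ) (R R' : ℕ) : ℝ≥0∞ :=
  nrm (J (pc d) : V d → ℝ≥0∞) * (∑' x : V d, if x ∉ bx R (0 : V d) then
      tau (pc d) x * conv (tau (pc d)) (tau (pc d)) x else 0) +
    ∑' u : V d, ∑' w : V d, (if u ∈ bx R (0 : V d) then
      J (pc d) (w - u) * (Rcal R' u + TR R' (fun z => tau (pc d) (z - w))) else 0)

/-- the local function of 7.3 (a function of the full edge set) -/
noncomputable def HL (A : Finset (V d)) (v : V d) (R R' : ℕ) (O : Set (Sym2 (V d))) : ℝ :=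
  1 / (1 - pc d) * (SqL (A : Set (V d)) R R' ((Del.ofSet (A : Set (V d))).rem O) v).toReal

/-- `p Σ_{e ~ 0, e ∉ K} q_h(K,e)` -/
noncomputable def gq (h : ℝ) (K : Finset (V d)) : ℝ≥0∞ :=
  ENNReal.ofReal (pc d) * ∑ e ∈ U1 d, if e ∈ K then 0 else qh h K e

/-- the same for sets (0 for infinite sets) -/
noncomputable def gqS (h : ℝ) (S : Set (V d)) : ℝ≥0∞ := by
  classical exact if hS : S.Finite then gq h hS.toFinset else 0

/-- `E[N e^{-hN} F]` at `p_c` -/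
noncomputable def E4 (h : ℝ) (F : Om d → ℝ≥0∞) : ℝ≥0∞ :=
  ∫⁻ ω, (Nc (Oc ω) (0 : V d) : ℝ≥0∞) * ex h (Cl (Oc ω) (0 : V d)) * F ω ∂Pr d

/-- `t(z) = Σ_{|e|=1} τ(z-e)` -/
noncomputable def tU (d : ℕ) (z : V d) : ℝ≥0∞ := ∑ e ∈ U1 d, tau (pc d) (z - e)

theorem mem_OA {A : Finset (V d)} {ω : Om d} {a b : V d} :
    s(a, b) ∈ OA A ω ↔ s(a, b) ∈ Oc ω ∧ a ∉ A ∧ b ∉ A := by
  have := mk_mem_off (O := Oc ω) (K := (A : Set (V d))) (a := a) (b := b)
  simp only [Finset.mem_coe] at this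
  exact this

theorem OA_subset (A : Finset (V d)) (ω : Om d) : OA A ω ⊆ Oc ω := Del.rem_subset _ _

theorem OA_MES (A : Finset (V d)) : MES (fun ω : Om d => OA A ω) :=
  (opn_MES (pc d)).rem (Del.ofSet (A : Set (V d)))

end Pool.Agent.PB.S7
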