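import Pool.Agent.PB.S7.Defs

/-!
PB / S7 / ExplFE: exploration for the first separating edge (7.1).

Plan. Let `O = OA A ω`, `e = s(u,w)`.  If `w ∈ A`, `w ∈ K`, `u ∉ K`, or `u, w` not adjacent, both sides are `0` (`mem_OA`: `e ∈ O` implies `u, w ∉ A`
and `e ∈ edgeSet`; `FirstSep` contains `w ∉ Cl (del1 O e) v`; `DConn` contains `Rch`, so `u ∈ Cl = K`; `J = 0`).  Also if `u ∈ A`: then `u` is not
reachable in `OA` unless `u = v`, but `v ∉ A`.
Otherwise `FE = {e ∈ Oc ω} ∩ X ∩ {K ∩ G'_δ = ∅} ∩ {K ∩ G_h ≠ ∅} ∩ Z` with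
`X = {Cl (del1 O e) v = K ∧ DConn (del1 O e) v u}` (depends on the edge labels touching `K` except `e`: `del1 (OA A ω) e`; use
`dep_Cl_del1_eq`-type arguments: on `{Cl (del1 O e) v = K}` connections from `v` in subsets of `del1 O e` only use edges touching `K`, `Rch_sub_touch`),
`Z = {RchA (ofSet (A ∪ K)) (Oc ω) w G'_δ}` (`RchA (ofSet K) (OA A ω) w T ↔ RchA (ofSet (A ∪ K)) (Oc ω) w T` as `w ∉ A`; `dep_RchA_ghost`).
Independence: `expl_edge` (edge `e`, `tI (A ∪ K)` or `tI K`, its complement), `Pr_inter_dep` for the ghost labels of `K` (`Pr_ghost_fin`/`Pr_ghost_disj`: `ex δ K`,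
`1 - ex h K`; the label families `b = true`, `b = false` and the edges are disjoint index sets).
So `Pr FE = p · Pr X · ex δ K · (1 - ex h K) · cA δ (A ∪ K) w`.  Finally `{Cl O v = K ∧ DConn O v u} = {e ∉ Oc ω} ∩ X` (`Cl_eq_iff_del1`, `del1_of_notMem`), hence
`Pr{Cl O v = K ∧ DConn O v u} = (1 - p) Pr X` (`Pr_edge_not`, `Pr_inter_dep`), i.e. `Pr X = (1/(1-p)) Pr{..}`; `J (w-u) = ofReal p`.
-/

set_option autoImplicit false
open MeasureTheory Filter Topology
open scoped ENNReal BigOperators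

namespace Pool.Agent.PB.S7

open Pool.Agent.PB

variable {d : ℕ}

/-- `FE` with the cluster replaced by `K` -/
private theorem fe_eq (δ h : ℝ) (A : Finset (V d)) (v u w : V d) (K : Finset (V d)) :
    FE δ h A v u w K = {ω | s(u, w) ∈ OA A ω ∧ DConn (del1 (OA A ω) s(u, w)) v u ∧ w ∉ K ∧
      Disjoint (K : Set (V d)) (ghost true δ ω) ∧
      RchA (Del.ofSet (K : Set (V d))) (OA A ω) w (ghost true δ ω) ∧
      Cl (del1 (OA A ω) s(u, w)) v = (K : Set (V d)) ∧ ∃ g ∈ ghost false h ω, g ∈ K} := by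
  ext ω
  simp only [FE, FirstSep, Set.mem_ofPred_eq]
  constructor
  · rintro ⟨⟨h1, h2, h3, h4, h5⟩, h6, h7⟩
    rw [h6] at h3 h4 h5
    exact ⟨h1, h2, h3, h4, h5, h6, h7⟩
  · rintro ⟨h1, h2, h3, h4, h5, h6, h7⟩
    refine ⟨⟨h1, h2, ?_, ?_, ?_⟩, h6, h7⟩
    · rw [h6]; exact h3
    · rw [h6]; exact h4
    · rw [h6]; exact h5

private theorem fe_hit_meas (b : Bool) (h : ℝ) (K : Finset (V d)) :
    MeasurableSet {ω : Om d | ∃ t ∈ ghost b h ω, t ∈ K} :=
  MVS.inter_nonempty (MVS.const (K : Set (V d))) (ghost_MVS b h)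

theorem measurable_FE (δ h : ℝ) (A : Finset (V d)) (v u w : V d) (K : Finset (V d)) :
    MeasurableSet (FE δ h A v u w K) := by
  rw [fe_eq]
  refine ((OA_MES A) _).inter (MeasurableSet.inter (((OA_MES A).del1 _).dconn v u)
    ((MeasurableSet.const _).inter (MeasurableSet.inter
      (measurable_disj (MVS.const (K : Set (V d))) true δ) (MeasurableSet.inter
        ((OA_MES A).rchA (ghost_MVS true δ) _ w) (MeasurableSet.inter
          (MVS.eq_set (((OA_MES A).del1 _).cl v) (K : Set (V d))) (fe_hit_meas false h K))))))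

/-- the event `X` only uses edges touching `K` -/
private theorem fe_touch {W : Type*} {O : Set (Sym2 W)} {K : Set W} {v u : W} :
    (Cl O v = K ∧ DConn O v u) ↔ (Cl (O ∩ touch K) v = K ∧ DConn (O ∩ touch K) v u) := by
  rw [← Cl_eq_iff_touch (O := O) (K := K) (y := v)]
  refine and_congr_right fun hK => ?_
  have hv : v ∈ K := by rw [← hK]; exact Rch.refl _ _
  have hr : Rch O v u ↔ Rch (O ∩ touch K) v u := Rch_sub_touch hK subset_rfl hv
  have hd : ∀ f, Rch (del1 O f) v u ↔ Rch (del1 (O ∩ touch K) f) v u := by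
    intro f
    rw [del1_inter]
    exact Rch_sub_touch hK (del1_subset _ _) hv
  unfold DConn Sep
  simp only [rchT_singleton, not_and, not_not]
  constructor
  · rintro ⟨h1, h2⟩
    exact ⟨hr.1 h1, fun f hf => (hd f).1 (h2 f hf.1)⟩
  · rintro ⟨h1, h2⟩
    refine ⟨hr.2 h1, fun f hf => (hd f).2 ?_⟩
    by_cases hf2 : f ∈ touch K
    · exact h2 f ⟨hf, hf2⟩
    · rw [del1_of_notMem (fun h => hf2 h.2)]
      exact h1

/-- labels of the edges touching `K`, without `e` -/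
private def fe_I (K : Set (V d)) (e : Sym2 (V d)) : Set (Ix d) :=
  {i | ∃ f ∈ touch K \ {e}, i = Sum.inl f}

/-- the event `X` -/
private def fe_X (A : Finset (V d)) (v u : V d) (e : Sym2 (V d)) (K : Finset (V d)) :
    Set (Om d) :=
  {ω | Cl (del1 (OA A ω) e) v = (K : Set (V d)) ∧ DConn (del1 (OA A ω) e) v u}

private theorem fe_X_meas (A : Finset (V d)) (v u : V d) (e : Sym2 (V d)) (K : Finset (V d)) :
    MeasurableSet (fe_X A v u e K) :=
  (MVS.eq_set (((OA_MES A).del1 _).cl v) (K : Set (V d))).inter (((OA_MES A).del1 _).dconn v u)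

private theorem fe_X_dep (A : Finset (V d)) (v u : V d) (e : Sym2 (V d)) (K : Finset (V d)) :
    DependsOn (fun ω : Om d => ω ∈ fe_X A v u e K) (fe_I (K : Set (V d)) e) := by
  have h0 := dep_opn (d := d) (pc d) (touch (K : Set (V d)) \ {e})
    (S := fe_I (K : Set (V d)) e) (fun f hf => ⟨f, hf, rfl⟩)
  have h1 : ∀ Q Q' : Set (Sym2 (V d)), Q ∩ (touch (K : Set (V d)) \ {e}) =
      Q' ∩ (touch (K : Set (V d)) \ {e}) →
      del1 ((Del.ofSet (A : Set (V d))).rem Q) e ∩ touch (K : Set (V d)) =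
        del1 ((Del.ofSet (A : Set (V d))).rem Q') e ∩ touch (K : Set (V d)) := by
    intro Q Q' hQ
    ext f
    have hf : f ∈ Q ∩ (touch (K : Set (V d)) \ {e}) ↔ f ∈ Q' ∩ (touch (K : Set (V d)) \ {e}) := by
      rw [hQ]
    simp only [Set.mem_inter_iff, Set.mem_sdiff, Set.mem_singleton_iff, del1, Del.rem,
      Set.mem_ofPred_eq] at hf ⊢
    tauto
  intro ω ω' hω
  have h2 := h1 _ _ (h0 hω)
  simp only [eq_iff_iff, fe_X, Set.mem_ofPred_eq]
  rw [fe_touch, fe_touch (O := del1 (OA A ω') e)]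
  unfold OA Oc
  rw [h2]

private theorem fe_hit (b : Bool) {h : ℝ} (hh : 0 < h) (K : Finset (V d)) :
    Pr d {ω : Om d | ∃ t ∈ ghost b h ω, t ∈ K} = 1 - ex h (K : Set (V d)) := by
  rw [← Pr_ghost_disj b hh (K : Set (V d)),
    ← prob_compl_eq_one_sub (measurable_disj (MVS.const (K : Set (V d))) b h)]
  congr 1
  ext ω
  simp only [Set.mem_ofPred_eq, Set.mem_compl_iff, Set.disjoint_left, not_forall, not_not,
    Finset.mem_coe]
  constructor
  · rintro ⟨t, h1, h2⟩; exact ⟨t, h2, h1⟩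
  · rintro ⟨t, h1, h2⟩; exact ⟨t, h2, h1⟩

private theorem fe_gh_dep (b : Bool) (h : ℝ) (K : Finset (V d)) {S : Set (Ix d)}
    (hS : ∀ v ∈ K, (Sum.inr (v, b) : Ix d) ∈ S) :
    DependsOn (fun ω : Om d => ghost b h ω ∩ (K : Set (V d))) S :=
  dep_ghost (d := d) b h (K : Set (V d)) hS

private theorem fe_hit_dep (b : Bool) (h : ℝ) (K : Finset (V d)) {S : Set (Ix d)}
    (hS : ∀ v ∈ K, (Sum.inr (v, b) : Ix d) ∈ S) :
    DependsOn (fun ω : Om d => ω ∈ {ω : Om d | ∃ t ∈ ghost b h ω, t ∈ K}) S := by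
  have h1 : ∀ G : Set (V d), (∃ t ∈ G, t ∈ K) ↔ (G ∩ (K : Set (V d))).Nonempty := fun G => Iff.rfl
  intro ω ω' hω
  have h2 : ghost b h ω ∩ (K : Set (V d)) = ghost b h ω' ∩ (K : Set (V d)) :=
    fe_gh_dep b h K hS hω
  simp only [eq_iff_iff, Set.mem_ofPred_eq]
  rw [h1, h1, h2]

private theorem fe_disj_dep (b : Bool) (h : ℝ) (K : Finset (V d)) {S : Set (Ix d)}
    (hS : ∀ v ∈ K, (Sum.inr (v, b) : Ix d) ∈ S) :
    DependsOn (fun ω : Om d => ω ∈ {ω : Om d | Disjoint (K : Set (V d)) (ghost b h ω)}) S := by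
  have h1 : ∀ G : Set (V d), Disjoint (K : Set (V d)) G ↔ G ∩ (K : Set (V d)) = ∅ := by
    intro G
    rw [disjoint_comm, Set.disjoint_iff_inter_eq_empty]
  intro ω ω' hω
  have h2 : ghost b h ω ∩ (K : Set (V d)) = ghost b h ω' ∩ (K : Set (V d)) :=
    fe_gh_dep b h K hS hω
  simp only [eq_iff_iff, Set.mem_ofPred_eq]
  rw [h1, h1, h2]

private theorem fe_rchA {A K : Finset (V d)} {ω : Om d} {w : V d} {T : Set (V d)} (hw : w ∉ A) :
    RchA (Del.ofSet (K : Set (V d))) (OA A ω) w T ↔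
      RchA (Del.ofSet ((A : Set (V d)) ∪ (K : Set (V d)))) (Oc ω) w T := by
  have h1 : (Del.ofSet (K : Set (V d))).rem (OA A ω) =
      (Del.ofSet ((A : Set (V d)) ∪ (K : Set (V d)))).rem (Oc ω) := by
    unfold OA
    ext f
    simp only [Del.rem, Del.ofSet, Set.mem_ofPred_eq, Set.mem_union, Set.mem_empty_iff_false,
      not_false_eq_true, true_and, not_or]
    constructor
    · rintro ⟨⟨h1, h2⟩, h3⟩
      exact ⟨h1, fun x hx => ⟨h2 x hx, h3 x hx⟩⟩
    · rintro ⟨h1, h2⟩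
      exact ⟨⟨h1, fun x hx => (h2 x hx).1⟩, fun x hx => (h2 x hx).2⟩
  unfold RchA ClA
  rw [h1]
  simp only [Del.ofSet, Set.mem_ofPred_eq, Set.mem_union, Finset.mem_coe, hw, false_or]

/-- the main case -/
private theorem fe_main (hC : Crit d) {δ h : ℝ} (hδ : 0 < δ) (hh : 0 < h) (A : Finset (V d))
    {v : V d} (u w : V d) (K : Finset (V d)) (huA : u ∉ A) (hwA : w ∉ A)
    (huK : u ∈ K) (hwK : w ∉ K) (hadj : l1 (w - u) = 1) :
    Pr d (FE δ h A v u w K) = ENNReal.ofReal (1 / (1 - pc d)) *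
      (wq A v u w K * (ex δ (K : Set (V d)) * ((1 - ex h (K : Set (V d))) * cA δ (A ∪ K) w))) := by
  have he : s(u, w) ∈ (lat d).edgeSet := hadj
  have heK : s(u, w) ∈ touch (K : Set (V d)) := mem_touch_left huK
  set X := fe_X A v u s(u, w) K with hX
  set Gd : Set (Om d) := {ω | Disjoint (K : Set (V d)) (ghost true δ ω)} with hGd
  set Gh : Set (Om d) := {ω | ∃ g ∈ ghost false h ω, g ∈ K} with hGh
  set Z : Set (Om d) := {ω | RchA (Del.ofSet ((A ∪ K : Finset (V d)) : Set (V d))) (Oc ω) w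
    (ghost true δ ω)} with hZ
  have hXm : MeasurableSet X := fe_X_meas A v u _ K
  have hGdm : MeasurableSet Gd := measurable_disj (MVS.const (K : Set (V d))) true δ
  have hGhm : MeasurableSet Gh := fe_hit_meas false h K
  have hZm : MeasurableSet Z := (opn_MES (pc d)).rchA (ghost_MVS true δ) _ w
  have hFE : FE δ h A v u w K = {ω | s(u, w) ∈ opn (pc d) ω ∧ ω ∈ (X ∩ Gh) ∩ Gd ∧ ω ∈ Z} := by
    rw [fe_eq]
    ext ω
    simp only [hX, hGd, hGh, hZ, fe_X, Set.mem_ofPred_eq, Set.mem_inter_iff]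
    rw [fe_rchA hwA, mem_OA, Finset.coe_union]
    have hOc : Oc ω = opn (pc d) ω := rfl
    rw [hOc]
    tauto
  have hXdep := fe_X_dep A v u s(u, w) K
  have hXI : fe_I (K : Set (V d)) s(u, w) ⊆ tI (K : Set (V d)) \ {Sum.inl s(u, w)} := by
    rintro i ⟨f, hf, rfl⟩
    refine ⟨inl_mem_tI.2 hf.1, ?_⟩
    intro h
    exact hf.2 (Sum.inl_injective h)
  have hXg : ∀ b : Bool, fe_I (K : Set (V d)) s(u, w) ⊆ (gI d b)ᶜ := by
    rintro b i ⟨f, hf, rfl⟩ ⟨x, hx⟩
    cases hx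
  have hinr : ∀ b : Bool, ∀ x ∈ K, (Sum.inr (x, b) : Ix d) ∈
      tI (K : Set (V d)) \ {Sum.inl s(u, w)} := by
    intro b x hx
    refine ⟨inr_mem_tI.2 hx, ?_⟩
    intro h
    cases h
  have h1 : Pr d (FE δ h A v u w K) = ENNReal.ofReal (min (pc d) 1) *
      (Pr d ((X ∩ Gh) ∩ Gd) * Pr d Z) := by
    rw [hFE]
    refine expl_edge (pc d) he heK ((hXm.inter hGhm).inter hGdm) hZm ?_ ?_
    · exact dep_inter (dep_inter (hXdep.mono hXI) (fe_hit_dep false h K (hinr false)))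
        (fe_disj_dep true δ K (hinr true))
    · have h2 := dep_RchA_ghost (d := d) (pc d) δ true w ((A ∪ K : Finset (V d)) : Set (V d))
      refine DependsOn.mono ?_ h2
      intro i hi hiK
      apply hi
      rcases hiK with ⟨f, ⟨x, hx, hxK⟩, rfl⟩ | ⟨x, hx, b, rfl⟩
      · refine Or.inl ⟨f, ⟨x, hx, ?_⟩, rfl⟩
        rw [Finset.coe_union]
        exact Or.inr hxK
      · refine Or.inr ⟨x, ?_, b, rfl⟩
        rw [Finset.coe_union]
        exact Or.inr hx
  have h2 : Pr d ((X ∩ Gh) ∩ Gd) = Pr d X * (1 - ex h (K : Set (V d))) * ex δ (K : Set (V d)) := by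
    rw [Pr_inter_dep (S := (gI d true)ᶜ) (T := gI d true) disjoint_compl_left
      (hXm.inter hGhm) hGdm, Pr_inter_dep (S := (gI d false)ᶜ) (T := gI d false)
      disjoint_compl_left hXm hGhm (hXdep.mono (hXg false))
      (fe_hit_dep false h K (fun x _ => ⟨x, rfl⟩)), fe_hit false hh K,
      Pr_ghost_disj true hδ (K : Set (V d))]
    · refine dep_inter (hXdep.mono (hXg true)) (fe_hit_dep false h K ?_)
      rintro x _ ⟨y, hy⟩
      simp at hy
    · exact fe_disj_dep true δ K (fun x _ => ⟨x, rfl⟩)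
  have h3 : Pr d {ω | Cl (OA A ω) v = (K : Set (V d)) ∧ DConn (OA A ω) v u} =
      ENNReal.ofReal (1 - pc d) * Pr d X := by
    have h4 : {ω : Om d | Cl (OA A ω) v = (K : Set (V d)) ∧ DConn (OA A ω) v u} =
        {ω | s(u, w) ∉ opn (pc d) ω} ∩ X := by
      ext ω
      simp only [hX, fe_X, Set.mem_inter_iff, Set.mem_ofPred_eq]
      have h5 : s(u, w) ∈ OA A ω ↔ s(u, w) ∈ opn (pc d) ω := by
        rw [mem_OA]
        exact ⟨fun h => h.1, fun h => ⟨h, huA, hwA⟩⟩
      rw [Cl_eq_iff_del1 (u := u) (v := w) huK hwK, h5]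
      constructor
      · rintro ⟨⟨h6, h7⟩, h8⟩
        refine ⟨h6, h7, ?_⟩
        rw [del1_of_notMem (fun h => h6 (h5.1 h))]
        exact h8
      · rintro ⟨h6, h7, h8⟩
        rw [del1_of_notMem (fun h => h6 (h5.1 h))] at h8
        exact ⟨⟨h6, h7⟩, h8⟩
    rw [h4]
    refine (Pr_inter_dep (A := {ω : Om d | s(u, w) ∉ opn (pc d) ω})
      (S := {Sum.inl s(u, w)}) (T := {Sum.inl s(u, w)}ᶜ) disjoint_compl_right
      (opn_MES (pc d) _).compl hXm
      (dep_compl (A := {ω : Om d | s(u, w) ∈ opn (pc d) ω}) (dep_mem_opn (pc d) _))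
      (hXdep.mono fun i hi => (hXI hi).2)).trans ?_
    congr 1
    refine (Pr_edge_not (pc d) he).trans ?_
    rw [min_eq_left hC.pc_lt.le, ← ENNReal.ofReal_one, ← ENNReal.ofReal_sub _ hC.pc_pos.le]
  have h5 : wq A v u w K = ENNReal.ofReal (pc d) * (ENNReal.ofReal (1 - pc d) * Pr d X) := by
    unfold wq
    rw [if_pos ⟨hwA, hwK⟩, h3]
    congr 1
    simp only [J, if_pos hadj]
  have h6 : ENNReal.ofReal (1 / (1 - pc d)) * ENNReal.ofReal (1 - pc d) = 1 := by
    have : 0 < 1 - pc d := by linarith [hC.pc_lt]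
    rw [← ENNReal.ofReal_mul (by positivity), one_div, inv_mul_cancel₀ this.ne',
      ENNReal.ofReal_one]
  have h7 : Pr d Z = cA δ (A ∪ K) w := rfl
  rw [h1, h2, h5, h7, min_eq_left hC.pc_lt.le]
  calc ENNReal.ofReal (pc d) * (Pr d X * (1 - ex h (K : Set (V d))) * ex δ (K : Set (V d)) *
        cA δ (A ∪ K) w)
      = 1 * (ENNReal.ofReal (pc d) * (Pr d X * (1 - ex h (K : Set (V d))) *
        ex δ (K : Set (V d)) * cA δ (A ∪ K) w)) := (one_mul _).symm
    _ = (ENNReal.ofReal (1 / (1 - pc d)) * ENNReal.ofReal (1 - pc d)) *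
        (ENNReal.ofReal (pc d) * (Pr d X * (1 - ex h (K : Set (V d))) *
        ex δ (K : Set (V d)) * cA δ (A ∪ K) w)) := by rw [h6]
    _ = _ := by ring

theorem Pr_FE (hC : Crit d) {δ h : ℝ} (hδ : 0 < δ) (hh : 0 < h) (A : Finset (V d)) {v : V d}
    (hv : v ∉ A) (u w : V d) (K : Finset (V d)) :
    Pr d (FE δ h A v u w K) = ENNReal.ofReal (1 / (1 - pc d)) *
      (wq A v u w K * (ex δ (K : Set (V d)) * ((1 - ex h (K : Set (V d))) * cA δ (A ∪ K) w))) := by
  have key : ∀ (h1 : ∀ ω, ω ∉ FE δ h A v u w K) (h2 : wq A v u w K = 0),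
      Pr d (FE δ h A v u w K) = ENNReal.ofReal (1 / (1 - pc d)) *
      (wq A v u w K * (ex δ (K : Set (V d)) * ((1 - ex h (K : Set (V d))) *
        cA δ (A ∪ K) w))) := by
    intro h1 h2
    rw [h2, zero_mul, mul_zero, Set.eq_empty_iff_forall_notMem.2 h1, measure_empty]
  by_cases hwA : w ∈ A
  · refine key (fun ω hω => ?_) ?_
    · rw [fe_eq] at hω
      exact (mem_OA.1 hω.1).2.2 hwA
    · unfold wq; rw [if_neg (fun h => h.1 hwA)]
  by_cases hwK : w ∈ K
  · refine key (fun ω hω => ?_) ?_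
    · rw [fe_eq] at hω
      exact hω.2.2.1 hwK
    · unfold wq; rw [if_neg (fun h => h.2 hwK)]
  by_cases huK : u ∈ K
  · by_cases hadj : l1 (w - u) = 1
    · by_cases huA : u ∈ A
      · refine key (fun ω hω => ?_) ?_
        · rw [fe_eq] at hω
          exact (mem_OA.1 hω.1).2.1 huA
        · have h3 : {ω : Om d | Cl (OA A ω) v = (K : Set (V d)) ∧ DConn (OA A ω) v u} = ∅ := by
            ext ω
            simp only [Set.mem_ofPred_eq, Set.mem_empty_iff_false, iff_false, not_and]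
            rintro - ⟨hr, -⟩
            have h4 : u ∈ (A : Set (V d))ᶜ := by
              refine Rch.mem_of_closed (A : Set (V d))ᶜ hv ?_ hr
              intro a _ b hab
              exact (mem_OA.1 hab).2.2
            exact h4 huA
          unfold wq
          rw [if_pos ⟨hwA, hwK⟩, h3, measure_empty, mul_zero]
      · exact fe_main hC hδ hh A u w K huA hwA huK hwK hadj
    · refine key (fun ω hω => ?_) ?_
      · rw [fe_eq] at hω
        exact hadj (mem_OA.1 hω.1).1.1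
      · unfold wq
        rw [if_pos ⟨hwA, hwK⟩]
        simp only [J, if_neg hadj, zero_mul]
  · refine key (fun ω hω => ?_) ?_
    · rw [fe_eq] at hω
      have h3 : u ∈ Cl (del1 (OA A ω) s(u, w)) v := hω.2.1.1
      rw [hω.2.2.2.2.2.1] at h3
      exact huK h3
    · have h3 : {ω : Om d | Cl (OA A ω) v = (K : Set (V d)) ∧ DConn (OA A ω) v u} = ∅ := by
        ext ω
        simp only [Set.mem_ofPred_eq, Set.mem_empty_iff_false, iff_false, not_and]
        rintro hK ⟨hr, -⟩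
        have h4 : u ∈ Cl (OA A ω) v := hr
        rw [hK] at h4
        exact huK h4
      unfold wq
      rw [if_pos ⟨hwA, hwK⟩, h3, measure_empty, mul_zero]

end Pool.Agent.PB.S7
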