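import Pool.Agent.PB.S7.MBd
import Pool.Agent.PB.G.Split
import Pool.Agent.PB.BK
import Pool.Agent.PB.P.Tree

/-!
PB / S7 / QBK: bounds for `Q_{δ,h}` (7.2), by BK.
-/

set_option autoImplicit false
open MeasureTheory Filter Topology
open scoped ENNReal BigOperators

namespace Pool.Agent.PB.S7

open Pool.Agent.PB

variable {d : ℕ}

theorem Qg_le (h5 : Out5 d) {δ h : ℝ} (hδ : 0 < δ) (hh : 0 < h) (A : Del (V d)) (v : V d) :
    Qg (pc d) δ h A v ≤ Mg d (pc d) δ * Mg d (pc d) h := by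
  have h1 := Pr_conn_ghost2_le (pc d) δ h A v v (![] : Fin 0 → V d × V d)
  simp only [Finset.univ_eq_empty, Finset.prod_empty, mul_one] at h1
  refine le_trans (measure_mono ?_) h1
  rintro ω ⟨-, g, hg, g', hg', hc⟩
  exact ⟨g, hg, g', hg', hc⟩

theorem Qg_anti (p δ h : ℝ) {A' A : Finset (V d)} (hA : A' ⊆ A) (v : V d) :
    Qg p δ h (Del.ofSet (A : Set (V d))) v ≤ Qg p δ h (Del.ofSet (A' : Set (V d))) v := by
  refine measure_mono ?_
  rintro ω ⟨hv, g, hg, g', hg', hc⟩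
  refine ⟨fun h => hv (hA h), g, hg, g', hg', hc.mono ?_⟩
  exact off_anti (opn p ω) (Finset.coe_subset.2 hA)

private theorem split_in {O S : Set (Sym2 (V d))} {A' A : Finset (V d)} {v g : V d}
    (hv : v ∉ A') (hS : S ⊆ (Del.ofSet (A' : Set (V d))).rem O) (hr : Rch S v g)
    (hn : ¬ Rch ((Del.ofSet (A : Set (V d))).rem S) v g) (hvA : v ∉ A) :
    ∃ z ∈ A \ A', ∃ S1 S2 : Set (Sym2 (V d)), S1 ⊆ S ∧ S2 ⊆ S ∧ Disjoint S1 S2 ∧ Rch S1 z g ∧
      Rch S2 v z := by
  classical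
  have h1 : g ∈ ClA (Del.ofSet (∅ : Set (V d))) S v := by
    refine ⟨by simp [Del.ofSet], hr.mono ?_⟩
    intro e he
    exact ⟨he, by simp [Del.ofSet], by simp [Del.ofSet]⟩
  have h2 : g ∉ ClA ⟨(Del.ofSet (∅ : Set (V d))).S ∪ (A : Set (V d)),
      (Del.ofSet (∅ : Set (V d))).F⟩ S v := by
    rintro ⟨-, h⟩
    apply hn
    refine h.mono ?_
    intro e he
    refine ⟨he.1, by simp [Del.ofSet], fun x hx hxA => he.2.2 x hx (Or.inr hxA)⟩
  obtain ⟨z, hz, hc⟩ := split_at (Del.ofSet (∅ : Set (V d))) (A : Set (V d)) h1 h2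
  obtain ⟨S1, S2, hS1, hS2, hd, hr1, hr2⟩ := disjConn_two.1 hc
  have hS1' : S1 ⊆ S := fun e he => (hS1 he).1
  have hS2' : S2 ⊆ S := fun e he => (hS2 he).1
  refine ⟨z, Finset.mem_sdiff.2 ⟨by exact_mod_cast hz, ?_⟩, S1, S2, hS1', hS2', hd, hr1, hr2⟩
  have h3 : z ∈ ClA (Del.ofSet (A' : Set (V d))) O v :=
    ⟨by simpa [Del.ofSet] using hv, hr2.mono (hS2'.trans hS)⟩
  have h4 := ClA_disjoint h3
  simpa [Del.ofSet] using h4

private theorem dc3 {O : Set (Sym2 (V d))} {q : Fin 3 → V d × V d}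
    {S1 S2 S3 : Set (Sym2 (V d))} (h1 : S1 ⊆ O) (h2 : S2 ⊆ O) (h3 : S3 ⊆ O)
    (h12 : Disjoint S1 S2) (h13 : Disjoint S1 S3) (h23 : Disjoint S2 S3)
    (r1 : Rch S1 (q 0).1 (q 0).2) (r2 : Rch S2 (q 1).1 (q 1).2) (r3 : Rch S3 (q 2).1 (q 2).2) :
    DisjConn O q := by
  refine ⟨![S1, S2, S3], ?_, ?_, ?_⟩
  · intro j
    fin_cases j
    · exact h1
    · exact h2
    · exact h3
  · intro i j hij
    fin_cases i <;> fin_cases j
    · exact absurd rfl hij
    · exact h12
    · exact h13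
    · exact h12.symm
    · exact absurd rfl hij
    · exact h23
    · exact h13.symm
    · exact h23.symm
    · exact absurd rfl hij
  · intro j
    fin_cases j
    · exact r1
    · exact r2
    · exact r3

theorem Qg_diff (h5 : Out5 d) {δ h : ℝ} (hδ : 0 < δ) (hh : 0 < h) {A' A : Finset (V d)}
    (hA : A' ⊆ A) {v : V d} (hv : v ∉ A) :
    Qg (pc d) δ h (Del.ofSet (A' : Set (V d))) v ≤ Qg (pc d) δ h (Del.ofSet (A : Set (V d))) v +
      (∑ z ∈ A \ A', tau (pc d) (z - v)) * (2 * (Mg d (pc d) δ * Mg d (pc d) h)) := by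
  classical
  have hv' : v ∉ A' := fun h => hv (hA h)
  let E1 : V d → Set (Om d) := fun z => {ω | ∃ g ∈ ghost true δ ω, ∃ g' ∈ ghost false h ω,
    DisjConn ((Del.ofSet (A' : Set (V d))).rem (opn (pc d) ω))
      (Matrix.vecCons (z, g) (Matrix.vecCons (v, g') ![(v, z)]))}
  let E2 : V d → Set (Om d) := fun z => {ω | ∃ g ∈ ghost true δ ω, ∃ g' ∈ ghost false h ω,
    DisjConn ((Del.ofSet (A' : Set (V d))).rem (opn (pc d) ω))
      (Matrix.vecCons (v, g) (Matrix.vecCons (z, g') ![(v, z)]))}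
  have hsub : QEv (pc d) δ h (Del.ofSet (A' : Set (V d))) v ⊆
      QEv (pc d) δ h (Del.ofSet (A : Set (V d))) v ∪ ⋃ z ∈ A \ A', (E1 z ∪ E2 z) := by
    rintro ω ⟨-, g, hg, g', hg', hc⟩
    obtain ⟨S1, S2, hS1, hS2, hd, hr1, hr2⟩ := disjConn_two.1 hc
    by_cases c1 : Rch ((Del.ofSet (A : Set (V d))).rem S1) v g
    · by_cases c2 : Rch ((Del.ofSet (A : Set (V d))).rem S2) v g'
      · left
        refine ⟨by simpa [Del.ofSet] using hv, g, hg, g', hg', disjConn_two.2
          ⟨_, _, ?_, ?_, ?_, c1, c2⟩⟩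
        · exact Del.rem_mono _ (hS1.trans (Del.rem_subset _ _))
        · exact Del.rem_mono _ (hS2.trans (Del.rem_subset _ _))
        · exact hd.mono (Del.rem_subset _ _) (Del.rem_subset _ _)
      · right
        obtain ⟨z, hz, T1, T2, hT1, hT2, hdT, rT1, rT2⟩ := split_in hv' hS2 hr2 c2 hv
        refine Set.mem_biUnion (x := z) hz (Or.inr ⟨g, hg, g', hg', ?_⟩)
        exact dc3 (q := ![(v, g), (z, g'), (v, z)]) hS1 (hT1.trans hS2) (hT2.trans hS2)
          (hd.mono_right hT1) (hd.mono_right hT2) hdT hr1 rT1 rT2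
    · right
      obtain ⟨z, hz, T1, T2, hT1, hT2, hdT, rT1, rT2⟩ := split_in hv' hS1 hr1 c1 hv
      refine Set.mem_biUnion (x := z) hz (Or.inl ⟨g, hg, g', hg', ?_⟩)
      exact dc3 (q := ![(z, g), (v, g'), (v, z)]) (hT1.trans hS1) hS2 (hT2.trans hS1)
        (hd.mono_left hT1) hdT (hd.mono_left hT2).symm rT1 hr2 rT2
  have hE1 : ∀ z, Pr d (E1 z) ≤ Mg d (pc d) δ * (Mg d (pc d) h * tau (pc d) (z - v)) := by
    intro z
    have := Pr_conn_ghost2_le (pc d) δ h (Del.ofSet (A' : Set (V d))) z v ![(v, z)]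
    simpa using this
  have hE2 : ∀ z, Pr d (E2 z) ≤ Mg d (pc d) δ * (Mg d (pc d) h * tau (pc d) (z - v)) := by
    intro z
    have := Pr_conn_ghost2_le (pc d) δ h (Del.ofSet (A' : Set (V d))) v z ![(v, z)]
    simpa using this
  calc Qg (pc d) δ h (Del.ofSet (A' : Set (V d))) v
      ≤ Pr d (QEv (pc d) δ h (Del.ofSet (A : Set (V d))) v ∪ ⋃ z ∈ A \ A', (E1 z ∪ E2 z)) :=
        measure_mono hsub
    _ ≤ Qg (pc d) δ h (Del.ofSet (A : Set (V d))) v + Pr d (⋃ z ∈ A \ A', (E1 z ∪ E2 z)) :=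
        measure_union_le _ _
    _ ≤ Qg (pc d) δ h (Del.ofSet (A : Set (V d))) v + ∑ z ∈ A \ A', Pr d (E1 z ∪ E2 z) := by
        gcongr
        exact measure_biUnion_finset_le _ _
    _ ≤ Qg (pc d) δ h (Del.ofSet (A : Set (V d))) v +
        ∑ z ∈ A \ A', tau (pc d) (z - v) * (2 * (Mg d (pc d) δ * Mg d (pc d) h)) := by
        gcongr with z hz
        refine (measure_union_le _ _).trans ((add_le_add (hE1 z) (hE2 z)).trans (le_of_eq ?_))
        ring
    _ = _ := by rw [Finset.sum_mul]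

private theorem DisjConn_map {W W' : Type*} {O : Set (Sym2 W)} {O' : Set (Sym2 W')} (f : W ≃ W')
    (h : ∀ a b, s(a, b) ∈ O → s(f a, f b) ∈ O') {k : ℕ} {q : Fin k → W × W}
    (hq : DisjConn O q) : DisjConn O' (fun j => (f (q j).1, f (q j).2)) := by
  obtain ⟨S, h1, h2, h3⟩ := hq
  refine ⟨fun j => Sym2.map f '' S j, ?_, ?_, ?_⟩
  · rintro j _ ⟨e, he, rfl⟩
    induction e using Sym2.ind with
    | _ a b => exact h a b (h1 j he)
  · intro i j hij
    have := h2 hij
    simp only [Function.onFun] at this ⊢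
    rw [Set.disjoint_image_iff (Sym2.map.injective f.injective)]
    exact this
  · intro j
    exact Rch.map (O' := Sym2.map f '' S j) f (fun a b hab => ⟨s(a, b), hab, rfl⟩) (h3 j)

theorem Qg_shift (p δ h : ℝ) (A : Finset (V d)) (v z : V d) :
    Qg p δ h (Del.ofSet ((A.image (fun x => x + z) : Finset (V d)) : Set (V d))) (v + z) =
      Qg p δ h (Del.ofSet (A : Set (V d))) v := by
  unfold Qg
  rw [← Pr_act (trI z) (QEv p δ h (Del.ofSet (A : Set (V d))) v)]
  congr 1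
  ext ω
  have hE : ∀ a b, s(a, b) ∈ (Del.ofSet (A : Set (V d))).rem (opn p (act (trI z) ω)) ↔
      s(trI z a, trI z b) ∈ (Del.ofSet ((A.image (fun x => x + z) : Finset (V d)) :
        Set (V d))).rem (opn p ω) := by
    intro a b
    have h1 := mk_mem_off (O := opn p (act (trI z) ω)) (K := (A : Set (V d))) (a := a) (b := b)
    have h2 := mk_mem_off (O := opn p ω)
      (K := ((A.image (fun x => x + z) : Finset (V d)) : Set (V d))) (a := trI z a) (b := trI z b)
    have h3 : ∀ a : V d, trI z a ∈ ((A.image (fun x => x + z) : Finset (V d)) : Set (V d)) ↔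
        a ∈ (A : Set (V d)) := by
      intro a
      simp only [trI_apply, Finset.coe_image, Set.mem_image, Finset.mem_coe, add_left_inj,
        exists_eq_right]
    rw [h3, h3, ← mem_opn_act (trI_aut z), ← h1] at h2
    exact h2.symm
  have hv : v + z ∉ (Del.ofSet ((A.image (fun x => x + z) : Finset (V d)) : Set (V d))).S ↔
      v ∉ (Del.ofSet (A : Set (V d))).S := by
    simp [Del.ofSet]
  simp only [QEv, Set.mem_ofPred_eq]
  constructor
  · rintro ⟨h1, g, hg, g', hg', hc⟩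
    refine ⟨hv.1 h1, (trI z).symm g, ?_, (trI z).symm g', ?_, ?_⟩
    · rw [mem_ghost_act, Equiv.apply_symm_apply]; exact hg
    · rw [mem_ghost_act, Equiv.apply_symm_apply]; exact hg'
    · have h2 := DisjConn_map (O' := (Del.ofSet (A : Set (V d))).rem (opn p (act (trI z) ω)))
        (trI z).symm (fun a b hab => by rw [hE]; simpa using hab) hc
      refine cast ?_ h2
      congr 1
      funext j
      have h0 : (trI z).symm (v + z) = v := by
        rw [Equiv.symm_apply_eq]; rfl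
      fin_cases j
      · exact Prod.ext h0 rfl
      · exact Prod.ext h0 rfl
  · rintro ⟨h1, g, hg, g', hg', hc⟩
    refine ⟨hv.2 h1, trI z g, hg, trI z g', hg', ?_⟩
    have h2 := DisjConn_map (trI z) (fun a b hab => (hE a b).1 hab) hc
    refine cast ?_ h2
    congr 1
    funext j
    fin_cases j
    · rfl
    · rfl

end Pool.Agent.PB.S7
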