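import Pool.Agent.PB.S7.Lim71
import Pool.Agent.PB.S7.QBK
import Pool.Agent.PB.S5.Ghost
import Pool.Agent.PB.S5.Units

/-!
PB / S7 / Id4: the two-ghost identity divided by `M(δ)` (7.4).

Plan. `h5.ghost2 δ h`: `Pr{0 → G'_δ, 0 → G_h} = Qg δ h (ofSet ∅) 0 + ofReal (1/(1-p)) ∑' K, Pr{Cl = K} ofReal(exp(-((h+δ)|K|))) bdw p K (Qg δ h (ofSet K) .)`.
Divide by `Mg δ` and let `δ → 0+`.
Left side → 1: `Mg δ = Pr{0 → G'_δ}` (`S5.Mg_true`), the difference is `Pr{0 → G'_δ, 0 ↛ G_h} ≤ δ E[N e^{-hN}] = ofReal (δ Mp h)`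
(`S5.pr_two_reach` and `EK`, or `1 - e^{-δN} ≤ δ N`), `Mg δ ≥ ofReal (√δ/C)` (`bds`), so the quotient tends to `0`.
Right side: first term → `qh h ∅ 0` (`q_lim`).  Second: write it as a sum over `q = (u,v,K) : Tr d` with weights
`Pr{Cl = K} · ex h K · (if u ∈ K ∧ v ∉ K then J(v-u) else 0)` (sum `≤ nrm J · E[N e^{-hN}] < ∞`, `E4_one`) and
`f δ q = ex δ K · (Qg δ h (ofSet K) v / Mg δ) ≤ Mg h ≤ 1` (`Qg_le`), which tends to `qh h K v` for `v ∉ K` (`q_lim`); `tsum_lim` (for `v ∈ K` the weight is `0`: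
replace `f` by a constant).  `exp(-((h+δ)n)) = exp(-hn) exp(-δn)`.  Limits are unique (`tendsto_nhds_unique`).
-/

set_option autoImplicit false
open MeasureTheory Filter Topology
open scoped ENNReal BigOperators

namespace Pool.Agent.PB.S7

open Pool.Agent.PB

variable {d : ℕ}

/-- dominated convergence with a summable bound -/
private theorem tsum_lim2 {ι : Type*} [Countable ι] {l : Filter ℝ} [l.IsCountablyGenerated]
    {F : ℝ → ι → ℝ≥0∞} {G B : ι → ℝ≥0∞} (hB : ∑' i, B i ≠ ⊤)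
    (hf : ∀ᶠ s in l, ∀ i, F s i ≤ B i)
    (hl : ∀ i, Tendsto (fun s => F s i) l (𝓝 (G i))) :
    Tendsto (fun s => ∑' i, F s i) l (𝓝 (∑' i, G i)) := by
  letI : MeasurableSpace ι := ⊤
  haveI : MeasurableSingletonClass ι := ⟨fun _ => trivial⟩
  have h1 : ∀ u : ι → ℝ≥0∞, ∑' i, u i = ∫⁻ i, u i ∂(Measure.count : Measure ι) := fun u =>
    (lintegral_count u).symm
  simp only [h1]
  rw [h1] at hB
  refine tendsto_lintegral_filter_of_dominated_convergence B ?_ ?_ hB ?_
  · exact Eventually.of_forall fun s => measurable_from_top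
  · filter_upwards [hf] with s hs
    exact Eventually.of_forall fun i => hs i
  · exact Eventually.of_forall fun i => hl i

private theorem bdw_mono' {p : ℝ} (K : Finset (V d)) {F F' : V d → ℝ≥0∞}
    (h : ∀ v, v ∉ K → F v ≤ F' v) : bdw p K F ≤ bdw p K F' := by
  classical
  rw [S5.bdw_eq, S5.bdw_eq]
  refine mul_le_mul' le_rfl (Finset.sum_le_sum fun u _ => Finset.sum_le_sum fun e _ => ?_)
  split_ifs with h1
  · exact le_rfl
  · exact h _ h1

private theorem bdw_one_le' (p : ℝ) (K : Finset (V d)) :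
    bdw p K (fun _ => 1) ≤ (ENNReal.ofReal p * ((2 * d : ℕ) : ℝ≥0∞)) * K.card := by
  classical
  rw [S5.bdw_eq]
  calc ENNReal.ofReal p * ∑ u ∈ K, ∑ e ∈ U1 d, (if u + e ∈ K then (0 : ℝ≥0∞) else 1)
      ≤ ENNReal.ofReal p * ∑ u ∈ K, ∑ e ∈ U1 d, (1 : ℝ≥0∞) := by
        refine mul_le_mul' le_rfl (Finset.sum_le_sum fun u _ => Finset.sum_le_sum fun e _ => ?_)
        split_ifs
        · exact zero_le_one
        · exact le_rfl
    _ = _ := by
        rw [Finset.sum_const, Finset.sum_const, S5.card_U1, nsmul_eq_mul, nsmul_eq_mul, mul_one,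
          mul_assoc, mul_comm ((K.card : ℕ) : ℝ≥0∞)]

private theorem bdw_div' (p : ℝ) (K : Finset (V d)) (F : V d → ℝ≥0∞) (c : ℝ≥0∞) :
    bdw p K F / c = bdw p K (fun v => F v / c) := by
  classical
  rw [S5.bdw_eq, S5.bdw_eq, div_eq_mul_inv, mul_assoc, Finset.sum_mul]
  congr 1
  refine Finset.sum_congr rfl fun u _ => ?_
  rw [Finset.sum_mul]
  refine Finset.sum_congr rfl fun e _ => ?_
  rw [ite_mul, zero_mul, div_eq_mul_inv]

private theorem n_ex_le {h : ℝ} (hh : 0 < h) (n : ℕ) :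
    (n : ℝ≥0∞) * S5.ex h n ≤ ENNReal.ofReal (1 / h) := by
  unfold S5.ex
  rw [← ENNReal.ofReal_natCast, ← ENNReal.ofReal_mul (by positivity)]
  refine ENNReal.ofReal_le_ofReal ?_
  rw [le_div_iff₀ hh]
  have h1 : h * n + 1 ≤ Real.exp (h * n) := Real.add_one_le_exp _
  have h2 : Real.exp (-(h * n)) * Real.exp (h * n) = 1 := by
    rw [← Real.exp_add, neg_add_cancel, Real.exp_zero]
  have h3 : 0 < Real.exp (-(h * n)) := Real.exp_pos _
  nlinarith

private theorem EK_le' {p : ℝ} (hθ : theta d p = 0) {w : Finset (V d) → ℝ≥0∞} {c : ℝ≥0∞}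
    (h : ∀ K, w K ≤ c) : S5.EK p w ≤ c := by
  unfold S5.EK
  calc ∑' K : Finset (V d), S5.cK p K * w K ≤ ∑' K : Finset (V d), S5.cK p K * c :=
        ENNReal.tsum_le_tsum fun K => mul_le_mul' le_rfl (h K)
    _ = c := by rw [ENNReal.tsum_mul_right, S5.sum_cK hθ, one_mul]

private theorem one_sub_ex_le {δ : ℝ} (hδ : 0 < δ) (n : ℕ) :
    1 - S5.ex δ n ≤ ENNReal.ofReal δ * n := by
  unfold S5.ex
  rw [← ENNReal.ofReal_one, ← ENNReal.ofReal_sub _ (Real.exp_pos _).le,
    ← ENNReal.ofReal_natCast, ← ENNReal.ofReal_mul hδ.le]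
  refine ENNReal.ofReal_le_ofReal ?_
  have := Real.add_one_le_exp (-(δ * (n : ℝ)))
  linarith

private theorem bdw_tend {p : ℝ} (K : Finset (V d)) {l : Filter ℝ} {F : ℝ → V d → ℝ≥0∞}
    {G : V d → ℝ≥0∞} (h : ∀ v, v ∉ K → Tendsto (fun δ => F δ v) l (𝓝 (G v))) :
    Tendsto (fun δ => bdw p K (F δ)) l (𝓝 (bdw p K G)) := by
  classical
  simp only [S5.bdw_eq]
  refine ENNReal.Tendsto.const_mul ?_ (Or.inr ENNReal.ofReal_ne_top)
  refine tendsto_finsetSum _ fun u _ => tendsto_finsetSum _ fun e _ => ?_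
  by_cases h1 : u + e ∈ K
  · simp only [if_pos h1]
    exact tendsto_const_nhds
  · simp only [if_neg h1]
    exact h _ h1

theorem id4 (hC : Crit d) (h5 : Out5 d) (h6 : Out6 d) {h : ℝ} (hh : 0 < h) :
    qh h (∅ : Finset (V d)) 0 + ENNReal.ofReal (1 / (1 - pc d)) *
      (∑' K : Finset (V d), Pr d {ω : Om d | Cl (Oc ω) (0 : V d) = (K : Set (V d))} *
        (ex h (K : Set (V d)) * bdw (pc d) K (fun v => qh h K v))) = 1 := by
  classical
  have hθ := h5.theta_pc
  set Z : ℝ → ℝ≥0∞ := fun δ => ∑' K : Finset (V d), S5.cK (pc d) K *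
    (S5.ex (h + δ) K.card * bdw (pc d) K (fun v =>
      Qg (pc d) δ h (Del.ofSet (K : Set (V d))) v / Mg d (pc d) δ)) with hZ
  set D : ℝ → ℝ≥0∞ := fun δ => S5.EK (pc d)
    (fun K : Finset (V d) => (1 - S5.ex δ K.card) * S5.ex h K.card) with hD
  -- the identity divided by `M(δ)`
  have hid : ∀ δ : ℝ, 0 < δ →
      Qg (pc d) δ h (Del.ofSet ((∅ : Finset (V d)) : Set (V d))) 0 / Mg d (pc d) δ +
        ENNReal.ofReal (1 / (1 - pc d)) * Z δ + D δ / Mg d (pc d) δ = 1 := by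
    intro δ hδ
    have h1 := h5.ghost2 δ h hδ hh
    rw [S5.pr_two_reach hθ hδ.le hh.le] at h1
    have h2 := S5.Mg_eq (d := d) hθ hδ.le
    have h3 : Mg d (pc d) δ = S5.EK (pc d) (fun K : Finset (V d) =>
        (1 - S5.ex δ K.card) * (1 - S5.ex h K.card)) + D δ := by
      rw [h2]
      simp only [hD, S5.EK]
      rw [← ENNReal.tsum_add]
      refine tsum_congr fun K => ?_
      rw [← mul_add, ← mul_add, tsub_add_cancel_of_le (S5.ex_le_one hh.le _), mul_one]
    rw [h1] at h3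
    have h4 : (∑' K : Finset (V d),
        Pr d {ω : Om d | Cl (opn (pc d) ω) (0 : V d) = (K : Set (V d))} *
          ENNReal.ofReal (Real.exp (-((h + δ) * (K.card : ℝ)))) *
            bdw (pc d) K (fun v => Qg (pc d) δ h (Del.ofSet (K : Set (V d))) v)) /
              Mg d (pc d) δ = Z δ := by
      rw [div_eq_mul_inv, ← ENNReal.tsum_mul_right]
      simp only [hZ]
      refine tsum_congr fun K => ?_
      rw [mul_assoc, mul_assoc, ← div_eq_mul_inv, bdw_div']
      rfl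
    rw [← h4, ← mul_div_assoc, Finset.coe_empty, ← ENNReal.add_div, ← ENNReal.add_div, ← h3]
    exact ENNReal.div_self (Mg_ne_zero hδ) (Mg_ne_top δ)
  -- limits
  have L1 := q_lim hC h5 h6 hh (∅ : Finset (V d)) (v := 0) (by simp)
  have L2 : Tendsto Z (𝓝[>] 0) (𝓝 (∑' K : Finset (V d),
      Pr d {ω : Om d | Cl (Oc ω) (0 : V d) = (K : Set (V d))} *
        (ex h (K : Set (V d)) * bdw (pc d) K (fun v => qh h K v)))) := by
    refine tsum_lim2 (B := fun K => S5.cK (pc d) K * (S5.ex h K.card *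
      bdw (pc d) K (fun _ => 1))) ?_ ?_ ?_
    · have h1 : S5.EK (pc d) (fun K : Finset (V d) => S5.ex h K.card *
          bdw (pc d) K (fun _ => 1)) ≤
          ENNReal.ofReal (pc d) * ((2 * d : ℕ) : ℝ≥0∞) * ENNReal.ofReal (1 / h) := by
        refine EK_le' hθ fun K => ?_
        calc S5.ex h K.card * bdw (pc d) K (fun _ => 1)
            ≤ S5.ex h K.card * ((ENNReal.ofReal (pc d) * ((2 * d : ℕ) : ℝ≥0∞)) * K.card) :=
              mul_le_mul' le_rfl (bdw_one_le' _ K)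
          _ = (ENNReal.ofReal (pc d) * ((2 * d : ℕ) : ℝ≥0∞)) * (K.card * S5.ex h K.card) := by
              ring
          _ ≤ _ := mul_le_mul' le_rfl (n_ex_le hh _)
      refine ne_top_of_le_ne_top ?_ h1
      exact ENNReal.mul_ne_top (ENNReal.mul_ne_top ENNReal.ofReal_ne_top
        (ENNReal.natCast_ne_top _)) ENNReal.ofReal_ne_top
    · filter_upwards [self_mem_nhdsWithin] with δ hδ K
      have hδ' : (0 : ℝ) < δ := hδ
      refine mul_le_mul' le_rfl (mul_le_mul' ?_ (bdw_mono' K fun v _ => ?_))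
      · rw [S5.ex_add]
        exact mul_le_of_le_one_right' (S5.ex_le_one hδ'.le _)
      · refine (ENNReal.div_le_of_le_mul' (Qg_le h5 hδ' hh _ v)).trans (Mg_le_one' h)
    · intro K
      refine ENNReal.Tendsto.const_mul ?_ (Or.inr (measure_ne_top _ _))
      rw [ex_finset]
      refine ENNReal.Tendsto.mul ?_ (Or.inl ?_) (bdw_tend K fun v hv => q_lim hC h5 h6 hh K hv)
        (Or.inr ENNReal.ofReal_ne_top)
      · unfold S5.ex
        have hc : Continuous (fun δ : ℝ => Real.exp (-((h + δ) * (K.card : ℝ)))) := by fun_prop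
        have h2 := (hc.tendsto 0).mono_left (nhdsWithin_le_nhds (s := Set.Ioi (0 : ℝ)))
        rw [add_zero] at h2
        exact ENNReal.tendsto_ofReal h2
      · rw [Ne, ENNReal.ofReal_eq_zero, not_le]
        exact Real.exp_pos _
  have L3 : Tendsto (fun δ => D δ / Mg d (pc d) δ) (𝓝[>] 0) (𝓝 0) := by
    obtain ⟨C, hC1, hb⟩ := bds h5
    have h1 : Tendsto (fun δ : ℝ => ENNReal.ofReal (C / h * Real.sqrt δ)) (𝓝[>] 0) (𝓝 0) := by
      have hc : Continuous (fun δ : ℝ => C / h * Real.sqrt δ) := by fun_prop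
      have h2 := (hc.tendsto 0).mono_left (nhdsWithin_le_nhds (s := Set.Ioi (0 : ℝ)))
      rw [Real.sqrt_zero, mul_zero] at h2
      have h3 := ENNReal.tendsto_ofReal h2
      rwa [ENNReal.ofReal_zero] at h3
    refine tendsto_of_tendsto_of_tendsto_of_le_of_le' tendsto_const_nhds h1
      (Eventually.of_forall fun _ => zero_le) ?_
    filter_upwards [Ioc_mem_nhdsGT (zero_lt_one' ℝ)] with δ hδ
    obtain ⟨hδ0, hδ1⟩ := hδ
    have hDle : D δ ≤ ENNReal.ofReal (δ * (1 / h)) := by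
      refine EK_le' hθ fun K => ?_
      calc (1 - S5.ex δ K.card) * S5.ex h K.card
          ≤ (ENNReal.ofReal δ * K.card) * S5.ex h K.card :=
            mul_le_mul' (one_sub_ex_le hδ0 _) le_rfl
        _ = ENNReal.ofReal δ * (K.card * S5.ex h K.card) := mul_assoc _ _ _
        _ ≤ ENNReal.ofReal δ * ENNReal.ofReal (1 / h) := mul_le_mul' le_rfl (n_ex_le hh _)
        _ = _ := (ENNReal.ofReal_mul hδ0.le).symm
    have hM : 0 < Mr d (pc d) δ := by
      have h2 := (hb δ hδ0 hδ1).1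
      have h3 : 0 < Real.sqrt δ := Real.sqrt_pos.2 hδ0
      by_contra h4
      have h5' : Mr d (pc d) δ ≤ 0 := not_lt.1 h4
      nlinarith
    calc D δ / Mg d (pc d) δ ≤ ENNReal.ofReal (δ * (1 / h)) / Mg d (pc d) δ := by gcongr
      _ = ENNReal.ofReal (δ * (1 / h) / Mr d (pc d) δ) := by
          rw [← ofReal_Mr, ENNReal.ofReal_div_of_pos hM]
      _ ≤ _ := by
          refine ENNReal.ofReal_le_ofReal ?_
          rw [div_le_iff₀ hM]
          have h2 := (hb δ hδ0 hδ1).1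
          have h3 : 0 ≤ Real.sqrt δ := Real.sqrt_nonneg _
          have h4 : δ = Real.sqrt δ * Real.sqrt δ := (Real.mul_self_sqrt hδ0.le).symm
          have h5' : Real.sqrt δ * Real.sqrt δ ≤ Real.sqrt δ * (C * Mr d (pc d) δ) :=
            mul_le_mul_of_nonneg_left h2 h3
          rw [← h4] at h5'
          calc δ * (1 / h) ≤ Real.sqrt δ * (C * Mr d (pc d) δ) * (1 / h) := by
                gcongr
            _ = _ := by ring
  have L : Tendsto (fun δ : ℝ =>
      Qg (pc d) δ h (Del.ofSet ((∅ : Finset (V d)) : Set (V d))) 0 / Mg d (pc d) δ +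
        ENNReal.ofReal (1 / (1 - pc d)) * Z δ + D δ / Mg d (pc d) δ) (𝓝[>] 0)
      (𝓝 (qh h (∅ : Finset (V d)) 0 + ENNReal.ofReal (1 / (1 - pc d)) *
        (∑' K : Finset (V d), Pr d {ω : Om d | Cl (Oc ω) (0 : V d) = (K : Set (V d))} *
          (ex h (K : Set (V d)) * bdw (pc d) K (fun v => qh h K v))) + 0)) :=
    (L1.add (ENNReal.Tendsto.const_mul L2 (Or.inr ENNReal.ofReal_ne_top))).add L3
  rw [add_zero] at L
  refine tendsto_nhds_unique L ?_
  refine tendsto_const_nhds.congr' ?_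
  filter_upwards [self_mem_nhdsWithin] with δ hδ
  exact (hid δ hδ).symm

end Pool.Agent.PB.S7
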