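import Pool.Agent.PB.S7.Defs
import Pool.Agent.PB.S5.Ghost
import Pool.Agent.PB.S5.Conv
import Pool.Agent.PB.S5.An1

/-!
PB / S7 / MBd: bounds and derivative of `M` at `p_c`, `E4 h 1 = M'`.

Plan. `Mg ≤ 1` (prob_le_one), `Mg ≠ 0`: `S5.Mg_pos`.  `bds`: `h5.bounds` (`√h ≤ C h M'`, `h M' ≤ M ≤ C √h`), so
`√h ≤ C M` and `M' ≤ C/√h`.  `ofReal_Mr`: `Mr = (Mg).toReal`.  `Mr_deriv`: `S5.Mr_eq`, `S5.Mp_eq`, `S5.hasDerivAt_Lf` with
`μ = bet dlt` (`S5.bet_nonneg`, `S5.bet_summable`, `S5.dlt_ne_top`); `Mr = Lf` on a neighbourhood of `h` (all `h' ≥ 0`):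
`HasDerivAt.congr_of_eventuallyEq`.  `Mr_tendsto`: `Mr ≤ C √h` (squeeze).  `E4_one`: `S5.Mp_eq` and `S5.ofReal_Ld_bet` with
`W = dlt`, `lintegral_split_fin` on the cluster of `0` (finite a.s., `h5.theta_pc`); or `ofReal_integral_eq_lintegral_ofReal`
from the definition of `Mp` (for infinite clusters `Nc = 0`).
-/

set_option autoImplicit false
open MeasureTheory Filter Topology
open scoped ENNReal BigOperators

namespace Pool.Agent.PB.S7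

open Pool.Agent.PB

variable {d : ℕ}

theorem Mg_le_one' (h : ℝ) : Mg d (pc d) h ≤ 1 := S5.Mg_le_one d (pc d) h

theorem Mg_ne_top (h : ℝ) : Mg d (pc d) h ≠ ⊤ :=
  ne_top_of_le_ne_top ENNReal.one_ne_top (Mg_le_one' h)

theorem Mg_ne_zero {h : ℝ} (hh : 0 < h) : Mg d (pc d) h ≠ 0 := (S5.Mg_pos hh).ne'

theorem ofReal_Mr (h : ℝ) : ENNReal.ofReal (Mr d (pc d) h) = Mg d (pc d) h :=
  ENNReal.ofReal_toReal (Mg_ne_top h)

theorem bds (h5 : Out5 d) : ∃ C : ℝ, 1 ≤ C ∧ ∀ h : ℝ, 0 < h → h ≤ 1 →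
    Real.sqrt h ≤ C * Mr d (pc d) h ∧ Mr d (pc d) h ≤ C * Real.sqrt h ∧
      Real.sqrt h ≤ C * (h * Mp d (pc d) h) ∧ h * Mp d (pc d) h ≤ C * Real.sqrt h := by
  obtain ⟨C, hC, hb⟩ := h5.bounds
  refine ⟨C, hC, fun h h0 h1 => ?_⟩
  obtain ⟨b1, b2, b3⟩ := hb h h0 h1
  have hC0 : 0 ≤ C := by linarith
  exact ⟨b2.trans (mul_le_mul_of_nonneg_left b3 hC0), b1, b2, b3.trans b1⟩

theorem Mr_deriv (h5 : Out5 d) {h : ℝ} (hh : 0 < h) :
    HasDerivAt (fun x => Mr d (pc d) x) (Mp d (pc d) h) h := by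
  rw [S5.Mp_eq h5.theta_pc hh]
  have h1 := S5.hasDerivAt_Lf (S5.bet_nonneg (d := d) (pc d) dlt)
    (S5.bet_summable (d := d) (p := pc d) dlt (S5.dlt_ne_top (pc d))) hh
  refine h1.congr_of_eventuallyEq ?_
  filter_upwards [lt_mem_nhds hh] with x hx
  exact S5.Mr_eq h5.theta_pc hx.le

theorem Mr_tendsto (h5 : Out5 d) : Tendsto (fun h => Mr d (pc d) h) (𝓝[>] 0) (𝓝 0) := by
  obtain ⟨C, hC, hb⟩ := bds h5
  have h1 : Tendsto (fun h : ℝ => C * Real.sqrt h) (𝓝[>] 0) (𝓝 0) := by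
    have h2 : Tendsto (fun h : ℝ => C * Real.sqrt h) (𝓝 0) (𝓝 (C * Real.sqrt 0)) :=
      (continuous_const.mul Real.continuous_sqrt).tendsto 0
    rw [Real.sqrt_zero, mul_zero] at h2
    exact h2.mono_left nhdsWithin_le_nhds
  refine tendsto_of_tendsto_of_tendsto_of_le_of_le' tendsto_const_nhds h1 ?_ ?_
  · exact Filter.Eventually.of_forall fun h => ENNReal.toReal_nonneg
  · filter_upwards [Ioo_mem_nhdsGT (zero_lt_one' ℝ)] with h hh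
    exact (hb h hh.1 hh.2.le).2.1

theorem E4_one (h5 : Out5 d) {h : ℝ} (hh : 0 < h) :
    E4 h (fun _ : Om d => 1) = ENNReal.ofReal (Mp d (pc d) h) := by
  rw [S5.Mp_eq h5.theta_pc hh,
    S5.ofReal_Ld_bet h5.theta_pc (dlt : V d → ℝ≥0∞) (S5.dlt_ne_top (pc d)) hh]
  unfold E4 S5.EK
  rw [lintegral_split_fin ((opn_MES (d := d) (pc d)).cl 0) h5.theta_pc]
  refine tsum_congr fun K => ?_
  have hm : MeasurableSet {ω : Om d | Cl (opn (pc d) ω) (0 : V d) = (K : Set (V d))} :=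
    ((opn_MES (pc d)).cl 0).eq_set _
  have h1 : ∫⁻ ω in {ω : Om d | Cl (opn (pc d) ω) (0 : V d) = (K : Set (V d))},
      (Nc (Oc ω) (0 : V d) : ℝ≥0∞) * ex h (Cl (Oc ω) (0 : V d)) * 1 ∂Pr d =
      ∫⁻ ω in {ω : Om d | Cl (opn (pc d) ω) (0 : V d) = (K : Set (V d))},
        (K.card : ℝ≥0∞) * S5.ex h K.card ∂Pr d := by
    refine setLIntegral_congr_fun hm fun ω hω => ?_
    have h2 : Cl (Oc ω) (0 : V d) = (K : Set (V d)) := hω
    simp only [Nc, h2, ex_finset, Set.ncard_coe_finset, mul_one]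
    rfl
  rw [h1, setLIntegral_const, mul_comm]
  by_cases hK : S5.cK (d := d) (pc d) K = 0
  · have h3 : Pr d {ω : Om d | Cl (opn (pc d) ω) (0 : V d) = (K : Set (V d))} = 0 := hK
    rw [h3, hK, zero_mul, zero_mul]
  · beta_reduce
    rw [S5.sum_dlt (S5.zero_mem_of_cK hK), mul_one]
    rfl

end Pool.Agent.PB.S7
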