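import Pool.Agent.PB.S7.Defs
import Pool.Agent.PB.G.First

/-!
PB / S7 / QSum: `Q_{δ,h}(A,v)` is, up to `P2`, the sum over the first separating edges.

Plan. `QEv (pc d) δ h (ofSet A) v = {v ∉ A ∧ TwoT (OA A ω) v G'_δ G_h}` (definitional).
Lower bound: the events `FE δ h A v u w K` are pairwise disjoint in `(u,w,K)` (`FirstSep.unique`) and contained in `QEv` (`FirstSep.twoT_iff`);
`tsum_measure_le_measure_univ`-type: `∑' Pr (FE q) = Pr (⋃ FE q) ≤ Qg` (`measure_iUnion`, countable index `Tr d`; measurability `measurable_FE` is passed as `hm`).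
Upper bound: on `QEv`, `RchT (OA A ω) v G'_δ`, so `first_sep`: either `TwoT (OA A ω) v G' G'` (contained in the event of `P2`, `TwoT.mono`, `OA_subset`) or
`FirstSep .. u w`; then by `FirstSep.twoT_iff` the set `Cl (del1 O e) v` meets `G_h`; it is finite almost surely (subset of `Cl (Oc ω) v`, `h5.theta_pc`
and translation invariance), so `ω ∈ FE δ h A v u w K` for some finset `K`, or `ω` is in a null set.
-/

set_option autoImplicit false
open MeasureTheory Filter Topology
open scoped ENNReal BigOperators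

namespace Pool.Agent.PB.S7

open Pool.Agent.PB

variable {d : ℕ}

theorem Qg_ge (δ h : ℝ) (A : Finset (V d)) {v : V d} (hv : v ∉ A)
    (hm : ∀ u w K, MeasurableSet (FE δ h A v u w K)) :
    ∑' q : Tr d, Pr d (FE δ h A v q.1 q.2.1 q.2.2) ≤
      Qg (pc d) δ h (Del.ofSet (A : Set (V d))) v := by
  refine le_trans (tsum_meas_le_meas_iUnion_of_disjoint (Pr d) (fun q => hm _ _ _) ?_) ?_
  · rintro ⟨u, w, K⟩ ⟨u', w', K'⟩ hne
    simp only [Function.onFun]
    rw [Set.disjoint_left]
    rintro ω ⟨h1, h2, _⟩ ⟨h1', h2', _⟩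
    obtain ⟨rfl, rfl⟩ := FirstSep.unique h1 h1'
    refine hne ?_
    have h3 : K = K' := Finset.coe_injective (h2.symm.trans h2')
    rw [h3]
  · refine measure_mono (Set.iUnion_subset ?_)
    rintro ⟨u, w, K⟩ ω ⟨h1, h2, g, hg, hgK⟩
    have h3 : TwoT (OA A ω) v (ghost true δ ω) (ghost false h ω) := by
      refine (FirstSep.twoT_iff h1).2 ⟨g, ?_, hg⟩
      rw [h2]
      exact hgK
    exact ⟨hv, h3⟩

theorem Qg_le_sum (h5 : Out5 d) (δ h : ℝ) (A : Finset (V d)) {v : V d} (hv : v ∉ A) :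
    Qg (pc d) δ h (Del.ofSet (A : Set (V d))) v ≤
      (∑' q : Tr d, Pr d (FE δ h A v q.1 q.2.1 q.2.2)) + P2 d δ v := by
  have h0 : Pr d {ω : Om d | (Cl (Oc ω) v).Infinite} = 0 := by
    have h1 := theta_shift (d := d) (pc d) v
    rw [h5.theta_pc] at h1
    exact h1
  have hsub : QEv (pc d) δ h (Del.ofSet (A : Set (V d))) v ⊆
      ((⋃ q : Tr d, FE δ h A v q.1 q.2.1 q.2.2) ∪
        {ω : Om d | TwoT (Oc ω) v (ghost true δ ω) (ghost true δ ω)}) ∪
        {ω : Om d | (Cl (Oc ω) v).Infinite} := by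
    rintro ω ⟨_, h1⟩
    have h2 : TwoT (OA A ω) v (ghost true δ ω) (ghost false h ω) := h1
    have h3 : RchT (OA A ω) v (ghost true δ ω) := by
      obtain ⟨g, hg, g', _, hc⟩ := h2
      obtain ⟨S1, S2, hS1, _, _, hr, _⟩ := disjConn_two.1 hc
      exact ⟨g, hg, hr.mono hS1⟩
    rcases first_sep h3 with h4 | ⟨u, w, h4⟩
    · exact Or.inl (Or.inr (TwoT.mono (OA_subset A ω) h4))
    · by_cases hinf : (Cl (Oc ω) v).Infinite
      · exact Or.inr hinf
      · left
        left
        have hfin : (Cl (del1 (OA A ω) s(u, w)) v).Finite :=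
          (Set.not_infinite.1 hinf).subset
            (Cl_mono ((del1_subset _ _).trans (OA_subset A ω)) v)
        obtain ⟨g, hgK, hg⟩ := (FirstSep.twoT_iff h4).1 h2
        refine Set.mem_iUnion.2 ⟨(u, w, hfin.toFinset), h4, ?_, g, hg, ?_⟩
        · exact (Set.Finite.coe_toFinset hfin).symm
        · exact hfin.mem_toFinset.2 hgK
  refine (measure_mono hsub).trans ?_
  refine (measure_union_le _ _).trans ?_
  rw [h0, add_zero]
  refine (measure_union_le _ _).trans ?_
  exact add_le_add (measure_iUnion_le _) le_rfl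

end Pool.Agent.PB.S7
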