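import Pool.Agent.PB.S7.MBd
import Pool.Agent.PB.Mix.D2P

/-!
PB / S7 / Two7: `P(two edge-disjoint connections from v to G'_δ) = O(δ)`.

Plan. `Mix/D2P` with `A = D0`, `y = 0` (`Vs D0 y = {y}`): the statement for `ghost false`; `D2 (Oc ω) 0 D0 T ↔ TwoT (Oc ω) 0 T T`.
Swapping the two families of ghost labels is a relabelling of the index set (`relab_mp`, `measure_comp_equiv`, `Pr_eq`), so the
same holds for `ghost true`; general `v`: translation (`Pr_act (trI v)`, `opn_act`, `mem_ghost_act`), the constant does not depend on `v`.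
(Or directly: BK and independence, as in the header of D2P.)
`P2_lim`: `P2 ≤ ofReal (C δ)`, `Mg ≥ ofReal (√δ / C)` (`bds`), so the quotient is `≤ ofReal (C² √δ)`.
-/

set_option autoImplicit false
open MeasureTheory Filter Topology
open scoped ENNReal BigOperators

namespace Pool.Agent.PB.S7

open Pool.Agent.PB

variable {d : ℕ}

theorem P2_le (hC : Crit d) (h5 : Out5 d) : ∃ C : ℝ, 0 < C ∧ ∀ δ : ℝ, 0 < δ → δ ≤ 1 →
    ∀ v : V d, P2 d δ v ≤ ENNReal.ofReal (C * δ) := by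
  obtain ⟨C₁, hC₁, hb⟩ := h5.bounds
  have hB2 : Bm d (pc d) 2 < ⊤ := (Bm_mono_m (pc d) (by norm_num : 2 ≤ 8)).trans_lt hC.B8
  refine ⟨C₁ * C₁ + (Bm d (pc d) 2).toReal, by positivity, ?_⟩
  intro δ hδ hδ1 v
  have hsub : {ω : Om d | TwoT (Oc ω) v (ghost true δ ω) (ghost true δ ω)} ⊆
      ({ω : Om d | ∃ g ∈ ghost true δ ω, ∃ g' ∈ ghost true δ ω, g ≠ g' ∧
          DisjConn ((Del.ofSet ∅).rem (opn (pc d) ω))
            (Matrix.vecCons (v, g) (Matrix.vecCons (v, g') ![]))} ∪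
        {ω : Om d | ∃ g ∈ ghost true δ ω, DisjConn (opn (pc d) ω) ![(v, g), (v, g)]}) := by
    rintro ω ⟨g, hg, g', hg', hc⟩
    by_cases hgg : g = g'
    · subst hgg
      right
      exact ⟨g, hg, hc⟩
    · left
      refine ⟨g, hg, g', hg', hgg, ?_⟩
      rw [D2P_ofSet_empty_rem]
      exact hc
  have hMg : Mg d (pc d) δ * Mg d (pc d) δ ≤ ENNReal.ofReal (C₁ * C₁ * δ) := by
    have h1 := (hb δ hδ hδ1).1
    have h2 : Mg d (pc d) δ ≠ ⊤ := measure_ne_top _ _
    have h3 : Mg d (pc d) δ ≤ ENNReal.ofReal (C₁ * Real.sqrt δ) := by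
      rw [← ENNReal.ofReal_toReal h2]
      exact ENNReal.ofReal_le_ofReal h1
    calc Mg d (pc d) δ * Mg d (pc d) δ
        ≤ ENNReal.ofReal (C₁ * Real.sqrt δ) * ENNReal.ofReal (C₁ * Real.sqrt δ) := mul_le_mul' h3 h3
      _ = ENNReal.ofReal (C₁ * C₁ * δ) := by
          rw [← ENNReal.ofReal_mul (by positivity)]
          congr 1
          have := Real.mul_self_sqrt hδ.le
          calc C₁ * Real.sqrt δ * (C₁ * Real.sqrt δ) = C₁ * C₁ * (Real.sqrt δ * Real.sqrt δ) := by ring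
            _ = C₁ * C₁ * δ := by rw [this]
  unfold P2
  refine (measure_mono hsub).trans ?_
  refine (measure_union_le _ _).trans ?_
  have h3 := Pr_conn_ghost_ne_le (d := d) (pc d) δ true (Del.ofSet ∅) v v ![]
  simp only [Finset.univ_eq_empty, Finset.prod_empty, mul_one] at h3
  have h4 := D2P_common_ghost_le (d := d) (pc d) true hδ.le v v
  refine (add_le_add (h3.trans hMg) h4).trans (le_of_eq ?_)
  rw [add_mul, ENNReal.ofReal_add (by positivity) (by positivity), mul_comm (ENNReal.ofReal δ),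
    ENNReal.ofReal_mul ENNReal.toReal_nonneg, ENNReal.ofReal_toReal hB2.ne]

theorem P2_lim (hC : Crit d) (h5 : Out5 d) (v : V d) :
    Tendsto (fun δ : ℝ => P2 d δ v / Mg d (pc d) δ) (𝓝[>] 0) (𝓝 0) := by
  obtain ⟨C, hC0, hP⟩ := P2_le hC h5
  obtain ⟨D, hD1, hb⟩ := bds h5
  have hD0 : 0 < D := lt_of_lt_of_le one_pos hD1
  have hup : Tendsto (fun δ : ℝ => ENNReal.ofReal (C * D * Real.sqrt δ)) (𝓝[>] 0) (𝓝 0) := by
    have h1 : Tendsto (fun δ : ℝ => C * D * Real.sqrt δ) (𝓝[>] 0) (𝓝 0) := by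
      have h2 : Tendsto (fun δ : ℝ => C * D * Real.sqrt δ) (𝓝 0) (𝓝 (C * D * Real.sqrt 0)) :=
        (Real.continuous_sqrt.tendsto 0).const_mul _
      rw [Real.sqrt_zero, mul_zero] at h2
      exact h2.mono_left nhdsWithin_le_nhds
    have h3 := ENNReal.tendsto_ofReal h1
    rwa [ENNReal.ofReal_zero] at h3
  refine tendsto_of_tendsto_of_tendsto_of_le_of_le' tendsto_const_nhds hup
    (Eventually.of_forall fun _ => zero_le) ?_
  filter_upwards [Ioo_mem_nhdsGT (zero_lt_one (α := ℝ))] with δ hδ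
  have hs : 0 < Real.sqrt δ := Real.sqrt_pos.2 hδ.1
  refine ENNReal.div_le_of_le_mul ?_
  have h1 : ENNReal.ofReal (Real.sqrt δ / D) ≤ Mg d (pc d) δ := by
    rw [← ofReal_Mr]
    refine ENNReal.ofReal_le_ofReal ?_
    rw [div_le_iff₀ hD0, mul_comm]
    exact (hb δ hδ.1 hδ.2.le).1
  calc P2 d δ v ≤ ENNReal.ofReal (C * δ) := hP δ hδ.1 hδ.2.le v
    _ = ENNReal.ofReal (C * D * Real.sqrt δ) * ENNReal.ofReal (Real.sqrt δ / D) := by
        rw [← ENNReal.ofReal_mul (by positivity)]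
        congr 1
        have h2 := Real.mul_self_sqrt hδ.1.le
        have h3 : C * D * Real.sqrt δ * (Real.sqrt δ / D) = C * (Real.sqrt δ * Real.sqrt δ) := by
          field_simp
        rw [h3, h2]
    _ ≤ ENNReal.ofReal (C * D * Real.sqrt δ) * Mg d (pc d) δ := mul_le_mul' le_rfl h1

end Pool.Agent.PB.S7
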