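import Pool.Agent.PB.S7.TsumLim
import Pool.Agent.PB.S7.MBd
import Pool.Agent.PB.S7.Two7
import Pool.Agent.PB.S7.WqSum
import Pool.Agent.PB.S7.CA
import Pool.Agent.PB.S7.ExplFE
import Pool.Agent.PB.S7.QSum

/-!
PB / S7 / Lim71 (assembly): `Q_{δ,h}(A,v) / M(δ) → q_h(A,v)`.
-/

set_option autoImplicit false
open MeasureTheory Filter Topology
open scoped ENNReal BigOperators

namespace Pool.Agent.PB.S7

open Pool.Agent.PB

variable {d : ℕ}

theorem ex_tendsto_one (K : Finset (V d)) :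
    Tendsto (fun δ : ℝ => ex δ (K : Set (V d))) (𝓝[>] 0) (𝓝 1) := by
  have h1 : (fun δ : ℝ => ex δ (K : Set (V d))) =
      fun δ => ENNReal.ofReal (Real.exp (-(δ * (K.card : ℝ)))) := by
    funext δ; rw [ex_finset]
  rw [h1]
  have h2 : Tendsto (fun δ : ℝ => Real.exp (-(δ * (K.card : ℝ)))) (𝓝[>] 0) (𝓝 1) := by
    have h3 : Continuous fun δ : ℝ => Real.exp (-(δ * (K.card : ℝ))) := by fun_prop
    have h4 := h3.tendsto 0
    simp only [zero_mul, neg_zero, Real.exp_zero] at h4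
    exact h4.mono_left nhdsWithin_le_nhds
  have h5 := ENNReal.tendsto_ofReal h2
  rwa [ENNReal.ofReal_one] at h5

theorem FE_lim (hC : Crit d) (h5 : Out5 d) (h6 : Out6 d) {h : ℝ} (hh : 0 < h)
    (A : Finset (V d)) {v : V d} (hv : v ∉ A) :
    Tendsto (fun δ : ℝ => (∑' q : Tr d, Pr d (FE δ h A v q.1 q.2.1 q.2.2)) / Mg d (pc d) δ)
      (𝓝[>] 0) (𝓝 (qh h A v)) := by
  classical
  have key : Tendsto (fun δ : ℝ => ∑' q : Tr d, wq A v q.1 q.2.1 q.2.2 *
      (if q.2.1 ∉ A ∧ q.2.1 ∉ q.2.2 then ex δ (q.2.2 : Set (V d)) *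
        ((1 - ex h (q.2.2 : Set (V d))) * (cA δ (A ∪ q.2.2) q.2.1 / Mg d (pc d) δ)) else 0))
      (𝓝[>] 0) (𝓝 (∑' q : Tr d, wq A v q.1 q.2.1 q.2.2 *
      (if q.2.1 ∉ A ∧ q.2.1 ∉ q.2.2 then
        ((1 - ex h (q.2.2 : Set (V d))) * ENNReal.ofReal (psiK (A ∪ q.2.2) q.2.1)) else 0))) := by
    refine tsum_lim (wq_sum_ne_top hC A v) (C := 1) ENNReal.one_ne_top ?_ ?_
    · filter_upwards [self_mem_nhdsWithin] with δ hδ q
      have hδ' : (0 : ℝ) < δ := hδ
      by_cases hq : q.2.1 ∉ A ∧ q.2.1 ∉ q.2.2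
      · rw [if_pos hq]
        have h1 : cA δ (A ∪ q.2.2) q.2.1 / Mg d (pc d) δ ≤ 1 := by
          refine ENNReal.div_le_of_le_mul ?_
          rw [one_mul]
          exact cA_le hδ' _ _
        calc ex δ (q.2.2 : Set (V d)) *
            ((1 - ex h (q.2.2 : Set (V d))) * (cA δ (A ∪ q.2.2) q.2.1 / Mg d (pc d) δ))
            ≤ 1 * (1 * 1) := by
              refine mul_le_mul' (ex_le_one hδ'.le _) (mul_le_mul' tsub_le_self h1)
          _ = 1 := by simp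
      · rw [if_neg hq]; exact zero_le
    · intro q
      by_cases hq : q.2.1 ∉ A ∧ q.2.1 ∉ q.2.2
      · simp only [if_pos hq]
        have hq' : q.2.1 ∉ A ∪ q.2.2 := by
          rw [Finset.mem_union]
          push Not
          exact hq
        have h1 := cA_lim h5 h6 (A ∪ q.2.2) hq'
        have h2 := ex_tendsto_one q.2.2
        have h3 : Tendsto (fun δ : ℝ => (1 - ex h (q.2.2 : Set (V d))) *
            (cA δ (A ∪ q.2.2) q.2.1 / Mg d (pc d) δ)) (𝓝[>] 0)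
            (𝓝 ((1 - ex h (q.2.2 : Set (V d))) * ENNReal.ofReal (psiK (A ∪ q.2.2) q.2.1))) := by
          refine ENNReal.Tendsto.const_mul h1 (Or.inr ?_)
          exact ne_top_of_le_ne_top ENNReal.one_ne_top tsub_le_self
        have h4 := ENNReal.Tendsto.mul h2 (Or.inl one_ne_zero) h3 (Or.inr ENNReal.one_ne_top)
        rwa [one_mul] at h4
      · simp only [if_neg hq]
        exact tendsto_const_nhds
  have hC1 : ENNReal.ofReal (1 / (1 - pc d)) ≠ ⊤ := ENNReal.ofReal_ne_top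
  have key2 := ENNReal.Tendsto.const_mul key (Or.inr hC1)
  have e1 : ENNReal.ofReal (1 / (1 - pc d)) * (∑' q : Tr d, wq A v q.1 q.2.1 q.2.2 *
      (if q.2.1 ∉ A ∧ q.2.1 ∉ q.2.2 then
        ((1 - ex h (q.2.2 : Set (V d))) * ENNReal.ofReal (psiK (A ∪ q.2.2) q.2.1)) else 0)) =
      qh h A v := by
    unfold qh
    congr 1
    refine tsum_congr fun q => ?_
    by_cases hq : q.2.1 ∉ A ∧ q.2.1 ∉ q.2.2
    · rw [if_pos hq]
    · have : wq A v q.1 q.2.1 q.2.2 = 0 := by unfold wq; rw [if_neg hq]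
      rw [this, zero_mul, zero_mul]
  rw [e1] at key2
  refine key2.congr' ?_
  filter_upwards [self_mem_nhdsWithin] with δ hδ
  have hδ' : (0 : ℝ) < δ := hδ
  have e2 : ∀ q : Tr d, Pr d (FE δ h A v q.1 q.2.1 q.2.2) =
      ENNReal.ofReal (1 / (1 - pc d)) * (wq A v q.1 q.2.1 q.2.2 * (ex δ (q.2.2 : Set (V d)) *
        ((1 - ex h (q.2.2 : Set (V d))) * cA δ (A ∪ q.2.2) q.2.1))) := fun q =>
    Pr_FE hC hδ' hh A hv q.1 q.2.1 q.2.2
  simp_rw [e2]
  rw [ENNReal.tsum_mul_left, ENNReal.div_eq_inv_mul, mul_comm (Mg d (pc d) δ)⁻¹, mul_assoc,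
    ← ENNReal.tsum_mul_right]
  congr 1
  refine tsum_congr fun q => ?_
  by_cases hq : q.2.1 ∉ A ∧ q.2.1 ∉ q.2.2
  · rw [if_pos hq, ENNReal.div_eq_inv_mul]
    ring
  · have : wq A v q.1 q.2.1 q.2.2 = 0 := by unfold wq; rw [if_neg hq]
    rw [this, zero_mul, zero_mul, zero_mul]

theorem q_lim (hC : Crit d) (h5 : Out5 d) (h6 : Out6 d) {h : ℝ} (hh : 0 < h)
    (A : Finset (V d)) {v : V d} (hv : v ∉ A) :
    Tendsto (fun δ : ℝ => Qg (pc d) δ h (Del.ofSet (A : Set (V d))) v / Mg d (pc d) δ)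
      (𝓝[>] 0) (𝓝 (qh h A v)) := by
  have h1 := FE_lim hC h5 h6 hh A hv
  have h2 := P2_lim hC h5 v
  have h3 := h1.add h2
  rw [add_zero] at h3
  refine tendsto_of_tendsto_of_tendsto_of_le_of_le' h1 h3 ?_ ?_
  · refine Eventually.of_forall fun δ => ?_
    exact ENNReal.div_le_div_right (Qg_ge δ h A hv fun u w K => measurable_FE δ h A v u w K) _
  · refine Eventually.of_forall fun δ => ?_
    rw [← ENNReal.add_div]
    exact ENNReal.div_le_div_right (Qg_le_sum h5 δ h A hv) _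

end Pool.Agent.PB.S7
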