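import Pool.Agent.PB.S7.MBd
import Pool.Agent.PB.S7.LocH

/-!
PB / S7 / Mix4: local mixing with `W_s = sN e^{-sN}` (7.4).

Plan. `Wx := Wf 0 (fun _ => 0) (fun s N _ => s * N * exp(-(s*N)))` is a large scale functional: `h6.isLSF` with `IsW` (`c0 = 0`, `c = 1`): `x e^{-x} ≤ min 1 x`,
`|x e^{-x} - y e^{-y}| ≤ |x - y|` (derivative `(1-x) e^{-x}`, `|.| ≤ 1` for `x ≥ 0`).  `H O = 1` if `Lb R O 0 = L`, else `0`, is local
(`B = {e | ∀ x ∈ e, x ∈ bx R 0}`, as in `HL_local`).  `h6.loc B H _ Wx c _ D0 0`: `(EWH H Wx h D0 0 - κ EW Wx h D0 0)/√h → 0`, `κ = cloc H D0 0`.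
`EW Wx h D0 0 = h Mp h`, `EWH H Wx h D0 0 = ∫ H (Oc ω) h N e^{-hN} = h (E4 h 1{L_R = L}).toReal` (`ofReal_integral_eq_lintegral_ofReal`; infinite cluster: `Nc = 0`).
Divide by `h Mp h ≥ √h / C` (`bds`): the quotient `(E4 ..).toReal / Mp h → κ`; `κ ≥ 0` as a limit of nonnegative numbers.
-/

set_option autoImplicit false
open MeasureTheory Filter Topology
open scoped ENNReal BigOperators

namespace Pool.Agent.PB.S7

open Pool.Agent.PB

variable {d : ℕ}

private theorem mx4_xexp {x : ℝ} (hx : 0 ≤ x) : x * Real.exp (-x) ≤ min 1 x := by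
  have h1 : Real.exp (-x) ≤ 1 := Real.exp_le_one_iff.2 (by linarith)
  have h2 : Real.exp x * Real.exp (-x) = 1 := by rw [← Real.exp_add]; simp
  have h3 : x ≤ Real.exp x := by linarith [Real.add_one_le_exp x]
  have h4 := Real.exp_pos (-x)
  refine le_min ?_ ?_
  · nlinarith
  · nlinarith

private theorem mx4_lip1 {x y : ℝ} (hx : 0 ≤ x) (hxy : x ≤ y) :
    |x * Real.exp (-x) - y * Real.exp (-y)| ≤ y - x := by
  obtain ⟨δ, rfl⟩ : ∃ δ, y = x + δ := ⟨y - x, by ring⟩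
  have hδ : 0 ≤ δ := by linarith
  have h1 : Real.exp (-(x + δ)) = Real.exp (-x) * Real.exp (-δ) := by
    rw [← Real.exp_add]; congr 1; ring
  have h2 : Real.exp (-x) ≤ 1 := Real.exp_le_one_iff.2 (by linarith)
  have h3 : Real.exp (-δ) ≤ 1 := Real.exp_le_one_iff.2 (by linarith)
  have h4 : 1 - δ ≤ Real.exp (-δ) := by linarith [Real.add_one_le_exp (-δ)]
  have h5 := Real.exp_pos (-x)
  have h6 := Real.exp_pos (-δ)
  have h7 : x * Real.exp (-x) ≤ 1 := (mx4_xexp hx).trans (min_le_left _ _)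
  rw [h1, abs_le]
  have e : x * Real.exp (-x) - (x + δ) * (Real.exp (-x) * Real.exp (-δ)) =
      x * Real.exp (-x) * (1 - Real.exp (-δ)) - δ * (Real.exp (-x) * Real.exp (-δ)) := by ring
  have h8 : Real.exp (-x) * Real.exp (-δ) ≤ 1 := by nlinarith
  have h9 : 0 ≤ Real.exp (-x) * Real.exp (-δ) := by positivity
  have h10 : 0 ≤ x * Real.exp (-x) * (1 - Real.exp (-δ)) := by
    have : 0 ≤ x * Real.exp (-x) := by positivity
    exact mul_nonneg this (by linarith)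
  have h11 : x * Real.exp (-x) * (1 - Real.exp (-δ)) ≤ 1 * δ :=
    mul_le_mul h7 (by linarith) (by linarith) (by norm_num)
  have h12 : δ * (Real.exp (-x) * Real.exp (-δ)) ≤ δ * 1 := mul_le_mul_of_nonneg_left h8 hδ
  have h13 : 0 ≤ δ * (Real.exp (-x) * Real.exp (-δ)) := mul_nonneg hδ h9
  rw [e]
  constructor <;> linarith

private theorem mx4_lip {x y : ℝ} (hx : 0 ≤ x) (hy : 0 ≤ y) :
    |x * Real.exp (-x) - y * Real.exp (-y)| ≤ |x - y| := by
  rcases le_total x y with h | h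
  · rw [abs_sub_comm x y, abs_of_nonneg (sub_nonneg.2 h)]
    exact mx4_lip1 hx h
  · rw [abs_sub_comm, abs_of_nonneg (sub_nonneg.2 h)]
    exact mx4_lip1 hy h

private noncomputable def mx4w (s : ℝ) (N : ℕ) (_ : ℝ) : ℝ :=
  s * (N : ℝ) * Real.exp (-(s * (N : ℝ)))

private theorem mx4_isW : IsW mx4w 0 1 where
  zero_le := le_refl _
  one_le := le_refl _
  zero := fun s => by simp [mx4w]
  bd := by
    intro s hs _ N Y _
    have h0 : 0 ≤ s * (N : ℝ) := by positivity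
    have h1 : 0 ≤ s * (N : ℝ) * Real.exp (-(s * (N : ℝ))) := by positivity
    rw [one_mul, mx4w, abs_of_nonneg h1]
    exact mx4_xexp h0
  lip := by
    intro s hs _ N N' Y Y' _ _
    have h0 : 0 ≤ s * (N : ℝ) := by positivity
    have h0' : 0 ≤ s * (N' : ℝ) := by positivity
    refine (mx4_lip h0 h0').trans ?_
    rw [← mul_sub, abs_mul, abs_of_pos hs, one_mul]
    exact mul_le_mul_of_nonneg_left (le_add_of_nonneg_right (abs_nonneg _)) hs.le

private noncomputable def mx4H (R : ℕ) (L : Finset (V d)) (O : Set (Sym2 (V d))) : ℝ := by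
  classical exact if Lb R O (0 : V d) = (L : Set (V d)) then 1 else 0

private theorem mx4_ins_finite {S : Set (V d)} (h : S.Finite) : (ins S).Finite := by
  classical
  have h1 : ((h.toFinset ×ˢ h.toFinset).image (fun q : V d × V d => s(q.1, q.2)) :
    Set (Sym2 (V d))).Finite := Finset.finite_toSet _
  refine h1.subset ?_
  intro e he
  induction e using Sym2.ind with
  | _ a b =>
    rw [Finset.mem_coe, Finset.mem_image]
    exact ⟨(a, b), Finset.mem_product.2 ⟨h.mem_toFinset.2 (he a (Sym2.mem_mk_left a b)),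
      h.mem_toFinset.2 (he b (Sym2.mem_mk_right a b))⟩, rfl⟩

private theorem mx4_local (R : ℕ) (L : Finset (V d)) :
    LocalF (ins (bx R (0 : V d))) (mx4H R L) := by
  refine ⟨mx4_ins_finite (bx_finite R 0), ?_⟩
  intro O O' h
  have h1 : Lb R O (0 : V d) = Lb R O' (0 : V d) := by simp only [Lb, h]
  unfold mx4H
  rw [h1]

private theorem mx4_H_nonneg (R : ℕ) (L : Finset (V d)) (O : Set (Sym2 (V d))) :
    0 ≤ mx4H R L O := by
  unfold mx4H
  split_ifs <;> norm_num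

private theorem mx4_rem_D0 (O : Set (Sym2 (V d))) : (D0 : Del (V d)).rem O = O := by
  ext e
  simp [D0, Del.ofSet, Del.rem]

private theorem mx4_meas_Nc : Measurable (fun ω : Om d => (Nc (Oc ω) (0 : V d) : ℝ)) := by
  have h1 : Measurable (fun ω : Om d => (Cl (Oc ω) (0 : V d)).encard) :=
    ((opn_MES (pc d)).cl (0 : V d)).encard
  have h2 : Measurable (fun n : ℕ∞ => ((n.toNat : ℕ) : ℝ)) := measurable_of_countable _
  exact h2.comp h1

private theorem mx4_meas (h : ℝ) (R : ℕ) (L : Finset (V d)) :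
    Measurable (fun ω : Om d => (Nc (Oc ω) (0 : V d) : ℝ) *
      Real.exp (-(h * (Nc (Oc ω) (0 : V d) : ℝ))) * mx4H R L (Oc ω)) :=
  (mx4_meas_Nc.mul (Real.measurable_exp.comp ((mx4_meas_Nc.const_mul h).neg))).mul
    (local_measurable (mx4_local R L))

private theorem mx4_WA (s : ℝ) (O : Set (Sym2 (V d))) :
    WA (Wf 0 (fun _ => 0) mx4w) s (D0 : Del (V d)) O 0 =
      s * ((Nc O (0 : V d) : ℝ) * Real.exp (-(s * (Nc O (0 : V d) : ℝ)))) := by
  have h0 : (0 : V d) ∉ (D0 : Del (V d)).S := fun h => h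
  rw [WA, if_neg h0, mx4_rem_D0, Wf, mx4w]
  ring

private theorem mx4_EW (s : ℝ) :
    EW (Wf 0 (fun _ => 0) mx4w) s (D0 : Del (V d)) 0 = s * Mp d (pc d) s := by
  unfold EW Mp
  rw [← integral_const_mul]
  exact integral_congr_ae (Eventually.of_forall fun ω => mx4_WA s (Oc ω))

private theorem mx4_E4 (h : ℝ) (R : ℕ) (L : Finset (V d)) :
    (E4 h (fun ω : Om d => Set.indicator
        {ω : Om d | Lb R (Oc ω) (0 : V d) = (L : Set (V d))} (fun _ => 1) ω)).toReal =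
      ∫ ω : Om d, (Nc (Oc ω) (0 : V d) : ℝ) *
        Real.exp (-(h * (Nc (Oc ω) (0 : V d) : ℝ))) * mx4H R L (Oc ω) ∂Pr d := by
  rw [integral_eq_lintegral_of_nonneg_ae
    (Eventually.of_forall fun ω => mul_nonneg (by positivity) (mx4_H_nonneg R L _))
    (mx4_meas h R L).aestronglyMeasurable]
  congr 1
  unfold E4
  refine lintegral_congr fun ω => ?_
  have hN : (0 : ℝ) ≤ (Nc (Oc ω) (0 : V d) : ℝ) := Nat.cast_nonneg _
  have h1 : (Nc (Oc ω) (0 : V d) : ℝ≥0∞) * ex h (Cl (Oc ω) (0 : V d)) =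
      ENNReal.ofReal ((Nc (Oc ω) (0 : V d) : ℝ) *
        Real.exp (-(h * (Nc (Oc ω) (0 : V d) : ℝ)))) := by
    by_cases hf : (Cl (Oc ω) (0 : V d)).Finite
    · rw [ex_fin h hf, ENNReal.ofReal_mul hN, ENNReal.ofReal_natCast]
      rfl
    · have h0 : Nc (Oc ω) (0 : V d) = 0 := Set.Infinite.ncard hf
      rw [h0]
      simp
  have h2 : ENNReal.ofReal ((Nc (Oc ω) (0 : V d) : ℝ) *
        Real.exp (-(h * (Nc (Oc ω) (0 : V d) : ℝ))) * mx4H R L (Oc ω)) =
      ENNReal.ofReal ((Nc (Oc ω) (0 : V d) : ℝ) *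
        Real.exp (-(h * (Nc (Oc ω) (0 : V d) : ℝ)))) * ENNReal.ofReal (mx4H R L (Oc ω)) :=
    ENNReal.ofReal_mul (by positivity)
  rw [h1, h2]
  congr 1
  by_cases hL : Lb R (Oc ω) (0 : V d) = (L : Set (V d))
  · rw [mx4H, if_pos hL, ENNReal.ofReal_one]
    exact Set.indicator_of_mem (show ω ∈ {ω : Om d | Lb R (Oc ω) (0 : V d) = (L : Set (V d))}
      from hL) _
  · rw [mx4H, if_neg hL, ENNReal.ofReal_zero]
    exact Set.indicator_of_notMem
      (show ω ∉ {ω : Om d | Lb R (Oc ω) (0 : V d) = (L : Set (V d))} from hL) _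

private theorem mx4_EWH (s : ℝ) (R : ℕ) (L : Finset (V d)) :
    EWH (mx4H R L) (Wf 0 (fun _ => 0) mx4w) s (D0 : Del (V d)) 0 = s *
      (E4 s (fun ω : Om d => Set.indicator
        {ω : Om d | Lb R (Oc ω) (0 : V d) = (L : Set (V d))} (fun _ => 1) ω)).toReal := by
  rw [mx4_E4]
  unfold EWH
  rw [← integral_const_mul]
  refine integral_congr_ae (Eventually.of_forall fun ω => ?_)
  change mx4H R L (Oc ω) * WA (Wf 0 (fun _ => 0) mx4w) s (D0 : Del (V d)) (Oc ω) 0 = _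
  rw [mx4_WA]
  ring

theorem mix4 (hC : Crit d) (h5 : Out5 d) (h6 : Out6 d) (R : ℕ) (L : Finset (V d)) :
    ∃ ν : ℝ, 0 ≤ ν ∧ Tendsto (fun h : ℝ =>
      (E4 h (fun ω : Om d => Set.indicator
        {ω : Om d | Lb R (Oc ω) (0 : V d) = (L : Set (V d))} (fun _ => 1) ω)).toReal /
          Mp d (pc d) h) (𝓝[>] 0) (𝓝 ν) := by
  obtain ⟨c, hc⟩ := h6.isLSF 0 (fun _ => 0) mx4w 0 1 mx4_isW (fun L _ _ => by simp)
  have hD : (D0 : Del (V d)).Finite := ⟨Set.finite_empty, Set.finite_empty⟩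
  have hloc := h6.loc _ _ (mx4_local R L) _ c hc D0 0 hD (fun h => h)
  set κ := cloc (mx4H R L) (D0 : Del (V d)) 0 with hκ
  simp only [mx4_EW, mx4_EWH] at hloc
  set E : ℝ → ℝ := fun h => (E4 h (fun ω : Om d => Set.indicator
        {ω : Om d | Lb R (Oc ω) (0 : V d) = (L : Set (V d))} (fun _ => 1) ω)).toReal with hE
  obtain ⟨C, hC1, hb⟩ := bds h5
  have hCpos : 0 < C := by linarith
  have hpos : ∀ h : ℝ, 0 < h → h ≤ 1 → 0 < Mp d (pc d) h := by
    intro h h0 h1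
    have h2 := (hb h h0 h1).2.2.1
    have h3 : 0 < C * (h * Mp d (pc d) h) := (Real.sqrt_pos.2 h0).trans_le h2
    have h4 : 0 < h * Mp d (pc d) h := (mul_pos_iff_of_pos_left hCpos).1 h3
    exact (mul_pos_iff_of_pos_left h0).1 h4
  have hev : ∀ᶠ h : ℝ in 𝓝[>] 0, 0 < h ∧ h ≤ 1 := by
    have : Set.Ioc (0 : ℝ) 1 ∈ 𝓝[>] (0 : ℝ) := Ioc_mem_nhdsGT (by norm_num)
    filter_upwards [this] with h hh
    exact hh
  have hlim : Tendsto (fun h : ℝ => E h / Mp d (pc d) h) (𝓝[>] 0) (𝓝 κ) := by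
    rw [tendsto_iff_norm_sub_tendsto_zero]
    have h1 : Tendsto (fun h : ℝ => C * |(h * E h - κ * (h * Mp d (pc d) h)) / Real.sqrt h|)
        (𝓝[>] 0) (𝓝 0) := by
      have := (hloc.abs).const_mul C
      simpa using this
    refine squeeze_zero' (Eventually.of_forall fun h => norm_nonneg _) ?_ h1
    filter_upwards [hev] with h hh
    obtain ⟨h0, h1⟩ := hh
    have hM := hpos h h0 h1
    have hs : 0 < Real.sqrt h := Real.sqrt_pos.2 h0
    have h2 := (hb h h0 h1).2.2.1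
    have h3 : 0 < h * Mp d (pc d) h := mul_pos h0 hM
    have e : E h / Mp d (pc d) h - κ = (h * E h - κ * (h * Mp d (pc d) h)) /
        (h * Mp d (pc d) h) := by
      field_simp
    rw [Real.norm_eq_abs, e, abs_div, abs_div, abs_of_pos h3, abs_of_pos hs,
      div_le_iff₀ h3]
    have h4 : 0 ≤ |h * E h - κ * (h * Mp d (pc d) h)| := abs_nonneg _
    calc |h * E h - κ * (h * Mp d (pc d) h)|
        = |h * E h - κ * (h * Mp d (pc d) h)| / Real.sqrt h * Real.sqrt h := by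
          rw [div_mul_cancel₀ _ hs.ne']
      _ ≤ |h * E h - κ * (h * Mp d (pc d) h)| / Real.sqrt h * (C * (h * Mp d (pc d) h)) :=
          mul_le_mul_of_nonneg_left h2 (div_nonneg h4 hs.le)
      _ = _ := by ring
  refine ⟨κ, ?_, hlim⟩
  refine ge_of_tendsto hlim ?_
  filter_upwards [hev] with h hh
  exact div_nonneg ENNReal.toReal_nonneg (hpos h hh.1 hh.2).le

end Pool.Agent.PB.S7
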