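import Pool.Agent.PB.S7.Lim71
import Pool.Agent.PB.S7.QBK

/-!
PB / S7 / Q72: bounds for `q_h` (7.2), from those for `Q_{δ,h}` by `q_lim`.
-/

set_option autoImplicit false
open MeasureTheory Filter Topology
open scoped ENNReal BigOperators

namespace Pool.Agent.PB.S7

open Pool.Agent.PB

variable {d : ℕ}

theorem qh_le (hC : Crit d) (h5 : Out5 d) (h6 : Out6 d) {h : ℝ} (hh : 0 < h)
    (A : Finset (V d)) {v : V d} (hv : v ∉ A) : qh h A v ≤ Mg d (pc d) h := by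
  refine le_of_tendsto (q_lim hC h5 h6 hh A hv) ?_
  filter_upwards [self_mem_nhdsWithin] with δ hδ
  have hδ' : (0 : ℝ) < δ := hδ
  refine ENNReal.div_le_of_le_mul ?_
  rw [mul_comm]
  exact Qg_le h5 hδ' hh _ v

theorem qh_anti (hC : Crit d) (h5 : Out5 d) (h6 : Out6 d) {h : ℝ} (hh : 0 < h)
    {A' A : Finset (V d)} (hA : A' ⊆ A) {v : V d} (hv : v ∉ A) : qh h A v ≤ qh h A' v := by
  have hv' : v ∉ A' := fun hx => hv (hA hx)
  refine le_of_tendsto_of_tendsto (q_lim hC h5 h6 hh A hv) (q_lim hC h5 h6 hh A' hv') ?_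
  refine Eventually.of_forall fun δ => ?_
  exact ENNReal.div_le_div_right (Qg_anti (pc d) δ h hA v) _

theorem qh_lip (hC : Crit d) (h5 : Out5 d) (h6 : Out6 d) {h : ℝ} (hh : 0 < h)
    {A' A : Finset (V d)} (hA : A' ⊆ A) {v : V d} (hv : v ∉ A) :
    qh h A' v ≤ qh h A v + (∑ z ∈ A \ A', tau (pc d) (z - v)) * (2 * Mg d (pc d) h) := by
  have hv' : v ∉ A' := fun hx => hv (hA hx)
  have h1 := (q_lim hC h5 h6 hh A hv).add
    (tendsto_const_nhds (x := (∑ z ∈ A \ A', tau (pc d) (z - v)) * (2 * Mg d (pc d) h)))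
  refine le_of_tendsto_of_tendsto (q_lim hC h5 h6 hh A' hv') h1 ?_
  filter_upwards [self_mem_nhdsWithin] with δ hδ
  have hδ' : (0 : ℝ) < δ := hδ
  have h2 := Qg_diff h5 hδ' hh hA hv
  have hM0 : Mg d (pc d) δ ≠ 0 := Mg_ne_zero hδ'
  have hMt : Mg d (pc d) δ ≠ ⊤ := Mg_ne_top δ
  have h3 := ENNReal.div_le_div_right h2 (Mg d (pc d) δ)
  refine h3.trans (le_of_eq ?_)
  rw [ENNReal.add_div]
  congr 1
  rw [show (∑ z ∈ A \ A', tau (pc d) (z - v)) * (2 * (Mg d (pc d) δ * Mg d (pc d) h)) =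
    ((∑ z ∈ A \ A', tau (pc d) (z - v)) * (2 * Mg d (pc d) h)) * Mg d (pc d) δ by ring]
  rw [ENNReal.mul_div_cancel_right hM0 hMt]

theorem qh_shift (hC : Crit d) (h5 : Out5 d) (h6 : Out6 d) {h : ℝ} (hh : 0 < h)
    (A : Finset (V d)) {v : V d} (hv : v ∉ A) (z : V d) :
    qh h (A.image (fun x => x + z)) (v + z) = qh h A v := by
  have hv' : v + z ∉ A.image (fun x => x + z) := by
    intro hx
    obtain ⟨y, hy, hyz⟩ := Finset.mem_image.1 hx
    exact hv (add_right_cancel hyz ▸ hy)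
  have h1 := q_lim hC h5 h6 hh (A.image (fun x => x + z)) hv'
  have h2 := q_lim hC h5 h6 hh A hv
  refine tendsto_nhds_unique h1 (h2.congr fun δ => ?_)
  rw [Qg_shift]

end Pool.Agent.PB.S7
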