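import Pool.Agent.PB.S7.WqSum
import Pool.Agent.PB.S7.ExitDet

/-!
PB / S7 / SqDet: deterministic comparison of the integrand of 7.1 with its local version (7.3).

Plan. `L = Lb R' O v ⊆ S = Cl O v` (finite).  `DConn (O ∩ ins ..) v u → DConn O v u` (`DConn_mono`).
`aps_le`: for `w ∉ A`: (1) `w ∉ S`: `psi_anti`, `psi_lip` (h6) for the finsets `A ∪ L ⊆ A ∪ S`: `ψ(A∪S,w) ≤ ψ(A∪L,w) ≤ ψ(A∪S,w) + Σ_{z ∈ S \ L} τ(z-w)`;
(2) `w ∈ S \ L`: `aps A S w = 0`, `aps A L w ≤ 1 = τ(w - w) ≤ Σ_{z ∈ S \ L} τ(z-w)` (`tau_zero` of P/Act: `τ(0) = 1`); (3) `w ∈ L` or `w ∈ A`: both `0`.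
`Sq_le_add`, `SqL_le_add`: termwise in `(u,w)` (`ENNReal.tsum_le_tsum`, `ENNReal.tsum_add`), case distinction on `u ∈ bx R v` and on the two `DConn`.
`SqL_bd`: `SqL ≤ Σ_{u ∈ bx R v} Σ_w J(w-u) = |bx R v| nrm J` (`aps ≤ 1` by `h6.psi_le`; `bx R v` finite, `nrm_J`).
-/

set_option autoImplicit false
open MeasureTheory Filter Topology
open scoped ENNReal BigOperators

namespace Pool.Agent.PB.S7

open Pool.Agent.PB

variable {d : ℕ}

private lemma sqd_aps_pos {A S : Set (V d)} {w : V d} (h : w ∉ A ∧ w ∉ S) :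
    aps A S w = ENNReal.ofReal (psi (Del.ofSet (A ∪ S)) w) := by
  unfold aps
  rw [if_pos h]

private lemma sqd_aps_neg {A S : Set (V d)} {w : V d} (h : ¬ (w ∉ A ∧ w ∉ S)) :
    aps A S w = 0 := by
  unfold aps
  rw [if_neg h]

theorem aps_le_one (h6 : Out6 d) (A : Finset (V d)) {S : Set (V d)} (hS : S.Finite) (w : V d) :
    aps (A : Set (V d)) S w ≤ 1 := by
  by_cases h : w ∉ (A : Set (V d)) ∧ w ∉ S
  · rw [sqd_aps_pos h, ← ENNReal.ofReal_one]
    refine ENNReal.ofReal_le_ofReal (h6.psi_le _ w ?_ ?_)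
    · exact Del.ofSet_finite (A.finite_toSet.union hS)
    · intro hw
      rcases hw with hw | hw
      · exact h.1 hw
      · exact h.2 hw
  · rw [sqd_aps_neg h]
    exact zero_le_one

private lemma sqd_psi_eq (A : Finset (V d)) {S : Set (V d)} (hS : S.Finite) (w : V d) :
    psi (Del.ofSet ((A : Set (V d)) ∪ S)) w = psiK (A ∪ hS.toFinset) w := by
  classical
  unfold psiK
  congr 2
  simp

private lemma sqd_anti (h6 : Out6 d) (A : Finset (V d)) {L S : Set (V d)} (hS : S.Finite)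
    (hLS : L ⊆ S) (w : V d) : aps (A : Set (V d)) S w ≤ aps (A : Set (V d)) L w := by
  classical
  by_cases h : w ∉ (A : Set (V d)) ∧ w ∉ S
  · have h' : w ∉ (A : Set (V d)) ∧ w ∉ L := ⟨h.1, fun hw => h.2 (hLS hw)⟩
    rw [sqd_aps_pos h, sqd_aps_pos h', sqd_psi_eq A hS, sqd_psi_eq A (hS.subset hLS)]
    refine ENNReal.ofReal_le_ofReal (h6.psi_anti _ _ w ?_ ?_)
    · refine Finset.union_subset_union le_rfl ?_
      intro x hx
      rw [Set.Finite.mem_toFinset] at hx ⊢
      exact hLS hx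
    · rw [Finset.mem_union, Set.Finite.mem_toFinset, not_or]
      exact ⟨by simpa using h.1, h.2⟩
  · rw [sqd_aps_neg h]
    exact bot_le

private lemma sqd_lip (h6 : Out6 d) (A : Finset (V d)) {L S : Set (V d)} (hS : S.Finite)
    (hLS : L ⊆ S) (w : V d) (t : V d → ℝ≥0∞)
    (ht : ∀ z, z ∈ S → z ∉ L → tau (pc d) (z - w) ≤ t z) :
    aps (A : Set (V d)) L w ≤ aps (A : Set (V d)) S w + ∑' z, t z := by
  classical
  by_cases h : w ∉ (A : Set (V d)) ∧ w ∉ S
  · have h' : w ∉ (A : Set (V d)) ∧ w ∉ L := ⟨h.1, fun hw => h.2 (hLS hw)⟩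
    have hL := hS.subset hLS
    rw [sqd_aps_pos h, sqd_aps_pos h', sqd_psi_eq A hS, sqd_psi_eq A hL]
    have hsub : A ∪ hL.toFinset ⊆ A ∪ hS.toFinset := by
      refine Finset.union_subset_union le_rfl ?_
      intro x hx
      rw [Set.Finite.mem_toFinset] at hx ⊢
      exact hLS hx
    have hw : w ∉ A ∪ hS.toFinset := by
      rw [Finset.mem_union, Set.Finite.mem_toFinset, not_or]
      exact ⟨by simpa using h.1, h.2⟩
    have h1 := h6.psi_lip _ _ w hsub hw
    have h2 : psiK (A ∪ hL.toFinset) w ≤ psiK (A ∪ hS.toFinset) w +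
        ∑ z ∈ (A ∪ hS.toFinset) \ (A ∪ hL.toFinset), (tau (pc d) (z - w)).toReal := by
      linarith
    have h3 : 0 ≤ psiK (A ∪ hS.toFinset) w := by
      refine h6.psi_nonneg _ w (Del.ofSet_finite (Finset.finite_toSet _)) ?_
      exact fun hh => hw (Finset.mem_coe.1 hh)
    refine (ENNReal.ofReal_le_ofReal h2).trans ?_
    rw [ENNReal.ofReal_add h3 (Finset.sum_nonneg fun _ _ => ENNReal.toReal_nonneg)]
    refine add_le_add le_rfl ?_
    rw [ENNReal.ofReal_sum_of_nonneg fun _ _ => ENNReal.toReal_nonneg]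
    refine le_trans ?_ (ENNReal.sum_le_tsum ((A ∪ hS.toFinset) \ (A ∪ hL.toFinset)))
    refine Finset.sum_le_sum fun z hz => ?_
    rw [Finset.mem_sdiff, Finset.mem_union, Finset.mem_union, not_or, Set.Finite.mem_toFinset,
      Set.Finite.mem_toFinset] at hz
    have hzS : z ∈ S ∧ z ∉ L := ⟨hz.1.resolve_left hz.2.1, hz.2.2⟩
    rw [ENNReal.ofReal_toReal (ne_top_of_le_ne_top ENNReal.one_ne_top
      (tau_le_one (pc d) (z - w)))]
    exact ht z hzS.1 hzS.2
  · by_cases h' : w ∉ (A : Set (V d)) ∧ w ∉ L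
    · have hwS : w ∈ S := by
        by_contra hcon
        exact h ⟨h'.1, hcon⟩
      refine (aps_le_one h6 A (hS.subset hLS) w).trans ?_
      refine le_trans ?_ le_add_self
      refine le_trans ?_ (ENNReal.le_tsum w)
      refine le_trans ?_ (ht w hwS h'.2)
      rw [sub_self, tau_zero]
    · rw [sqd_aps_neg h']
      exact bot_le

private lemma sqd_Lb_sub (R : ℕ) (O : Set (Sym2 (V d))) (v : V d) : Lb R O v ⊆ Cl O v :=
  fun _ hx => Rch.mono Set.inter_subset_left hx

theorem bx_finite (R : ℕ) (v : V d) : (bx R v).Finite := by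
  have h : bx R v = Set.pi Set.univ (fun i => Set.Icc (v i - R) (v i + R)) := by
    ext y
    simp only [bx, Set.mem_ofPred_eq, Set.mem_pi, Set.mem_univ, forall_true_left, Set.mem_Icc]
    refine forall_congr' fun i => ?_
    rw [abs_le]
    constructor
    · rintro ⟨h1, h2⟩; constructor <;> linarith
    · rintro ⟨h1, h2⟩; constructor <;> linarith
  rw [h]
  exact Set.Finite.pi (fun i => Set.finite_Icc (v i - (R : ℤ)) (v i + R))

private lemma sqd_Lb_bx (R : ℕ) (O : Set (Sym2 (V d))) (v : V d) : Lb R O v ⊆ bx R v := by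
  intro x hx
  have hv : v ∈ bx R v := by
    intro i
    simp
  have hx' : Rch (O ∩ ins (bx R v)) v x := hx
  unfold Rch at hx'
  induction hx' with
  | refl => exact hv
  | tail _ hab _ => exact hab.2 _ (Sym2.mem_mk_right _ _)

private lemma sqd_Lb_finite (R : ℕ) (O : Set (Sym2 (V d))) (v : V d) : (Lb R O v).Finite :=
  (bx_finite R v).subset (sqd_Lb_bx R O v)


theorem Sq_le_add (h6 : Out6 d) (A : Finset (V d)) {O : Set (Sym2 (V d))} {v : V d}
    (hfin : (Cl O v).Finite) (R R' : ℕ) :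
    Sq (A : Set (V d)) O v ≤ SqL (A : Set (V d)) R R' O v + Er R R' O v := by
  classical
  unfold Sq SqL Er
  rw [← ENNReal.tsum_add]
  refine ENNReal.tsum_le_tsum fun u => ?_
  rw [← ENNReal.tsum_add]
  refine ENNReal.tsum_le_tsum fun w => ?_
  by_cases hD : DConn O v u
  · rw [if_pos hD]
    by_cases hu : u ∈ bx R v
    · by_cases hL : DConn (O ∩ ins (bx R' v)) v u
      · rw [if_pos ⟨hu, hL⟩]
        refine le_trans ?_ le_self_add
        exact mul_le_mul' le_rfl (sqd_anti h6 A hfin (sqd_Lb_sub R' O v) w)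
      · refine le_trans ?_ le_add_self
        refine mul_le_mul' le_rfl ?_
        refine (aps_le_one h6 A hfin w).trans ?_
        rw [if_pos (show u ∈ bx R v ∧ DConn O v u ∧ ¬ DConn (O ∩ ins (bx R' v)) v u from
          ⟨hu, hD, hL⟩)]
        exact le_trans le_add_self le_self_add
    · refine le_trans ?_ le_add_self
      refine mul_le_mul' le_rfl ?_
      refine (aps_le_one h6 A hfin w).trans ?_
      rw [if_pos (show u ∉ bx R v ∧ DConn O v u from ⟨hu, hD⟩)]
      exact le_trans le_self_add le_self_add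
  · rw [if_neg hD]
    exact bot_le

theorem SqL_le_add (h6 : Out6 d) (A : Finset (V d)) {O : Set (Sym2 (V d))} {v : V d}
    (hfin : (Cl O v).Finite) (R R' : ℕ) :
    SqL (A : Set (V d)) R R' O v ≤ Sq (A : Set (V d)) O v + Er R R' O v := by
  classical
  unfold Sq SqL Er
  rw [← ENNReal.tsum_add]
  refine ENNReal.tsum_le_tsum fun u => ?_
  rw [← ENNReal.tsum_add]
  refine ENNReal.tsum_le_tsum fun w => ?_
  by_cases hL : u ∈ bx R v ∧ DConn (O ∩ ins (bx R' v)) v u
  · have hD : DConn O v u := DConn_mono Set.inter_subset_left hL.2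
    rw [if_pos hL, if_pos hD]
    refine (mul_le_mul' le_rfl (sqd_lip h6 A hfin (sqd_Lb_sub R' O v) w
      (fun z => if z ∈ Cl O v ∧ z ∉ Lb R' O v then tau (pc d) (z - w) else 0)
      (fun z hz hz' => by rw [if_pos ⟨hz, hz'⟩]))).trans ?_
    rw [mul_add]
    refine add_le_add le_rfl (mul_le_mul' le_rfl ?_)
    refine le_trans ?_ le_add_self
    rw [if_pos hL.1]
  · rw [if_neg hL]
    exact bot_le

theorem SqL_bd (h6 : Out6 d) (A : Finset (V d)) (v : V d) (R R' : ℕ) :
    ∃ B : ℝ, 0 ≤ B ∧ ∀ O : Set (Sym2 (V d)),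
      SqL (A : Set (V d)) R R' O v ≤ ENNReal.ofReal B := by
  classical
  set T : ℝ≥0∞ := ∑ _u ∈ (bx_finite R v).toFinset, nrm (J (pc d) : V d → ℝ≥0∞) with hT
  have hJ : nrm (J (pc d) : V d → ℝ≥0∞) ≠ ⊤ := by
    rw [nrm_J]
    exact ENNReal.mul_ne_top ENNReal.ofReal_ne_top (ENNReal.natCast_ne_top _)
  have hTt : T ≠ ⊤ := by
    rw [hT]
    exact ENNReal.sum_ne_top.2 fun _ _ => hJ
  refine ⟨T.toReal, ENNReal.toReal_nonneg, fun O => ?_⟩
  rw [ENNReal.ofReal_toReal hTt]
  unfold SqL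
  have h1 : ∀ u : V d, (∑' w : V d, (if u ∈ bx R v ∧ DConn (O ∩ ins (bx R' v)) v u then
      J (pc d) (w - u) * aps (A : Set (V d)) (Lb R' O v) w else 0)) ≤
      if u ∈ (bx_finite R v).toFinset then nrm (J (pc d) : V d → ℝ≥0∞) else 0 := by
    intro u
    by_cases hu : u ∈ bx R v
    · rw [if_pos ((bx_finite R v).mem_toFinset.2 hu)]
      have h2 : nrm (J (pc d) : V d → ℝ≥0∞) = ∑' w : V d, J (pc d) (w - u) := by
        unfold nrm
        exact ((Equiv.subRight u).tsum_eq (J (pc d) : V d → ℝ≥0∞)).symm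
      rw [h2]
      refine ENNReal.tsum_le_tsum fun w => ?_
      split_ifs with h3
      · calc J (pc d) (w - u) * aps (A : Set (V d)) (Lb R' O v) w
            ≤ J (pc d) (w - u) * 1 :=
              mul_le_mul' le_rfl (aps_le_one h6 A (sqd_Lb_finite R' O v) w)
          _ = J (pc d) (w - u) := mul_one _
      · exact bot_le
    · rw [if_neg (fun h => hu ((bx_finite R v).mem_toFinset.1 h))]
      refine le_of_eq ?_
      rw [ENNReal.tsum_eq_zero]
      intro w
      rw [if_neg (fun h => hu h.1)]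
  refine (ENNReal.tsum_le_tsum h1).trans ?_
  rw [hT, tsum_eq_sum (s := (bx_finite R v).toFinset) (fun u hu => if_neg hu)]
  refine Finset.sum_le_sum fun u hu => ?_
  rw [if_pos hu]

end Pool.Agent.PB.S7
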