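import Mathlib

/-!
PB / S7 / TsumLim: dominated convergence for sums in `[0,∞]`.
-/

set_option autoImplicit false
open MeasureTheory Filter Topology
open scoped ENNReal BigOperators

namespace Pool.Agent.PB.S7

theorem tsum_lim {ι : Type*} [Countable ι] {l : Filter ℝ} [l.IsCountablyGenerated]
    {w : ι → ℝ≥0∞} (hw : ∑' i, w i ≠ ⊤) {f : ℝ → ι → ℝ≥0∞} {g : ι → ℝ≥0∞} {C : ℝ≥0∞}
    (hC : C ≠ ⊤) (hf : ∀ᶠ s in l, ∀ i, f s i ≤ C)
    (hl : ∀ i, Tendsto (fun s => f s i) l (𝓝 (g i))) :
    Tendsto (fun s => ∑' i, w i * f s i) l (𝓝 (∑' i, w i * g i)) := by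
  letI : MeasurableSpace ι := ⊤
  haveI : MeasurableSingletonClass ι := ⟨fun _ => trivial⟩
  have h1 : ∀ u : ι → ℝ≥0∞, ∑' i, u i = ∫⁻ i, u i ∂(Measure.count : Measure ι) := fun u =>
    (lintegral_count u).symm
  simp only [h1]
  rw [h1] at hw
  refine tendsto_lintegral_filter_of_dominated_convergence (fun i => w i * C) ?_ ?_ ?_ ?_
  · exact Eventually.of_forall fun s => measurable_from_top
  · filter_upwards [hf] with s hs
    exact Eventually.of_forall fun i => mul_le_mul' le_rfl (hs i)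
  · rw [lintegral_mul_const _ measurable_from_top]
    exact ENNReal.mul_ne_top hw hC
  · refine Eventually.of_forall fun i => ?_
    refine ENNReal.Tendsto.const_mul (hl i) (Or.inr ?_)
    rw [← h1] at hw
    exact ENNReal.ne_top_of_tsum_ne_top hw i

end Pool.Agent.PB.S7
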